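import Mathlib
import Pool.Graph.R_seed8.H712R2.MA.Stm
import Pool.Graph.R_seed8.Y52.SJ.Stm

/-!
# Project SV: symplectic balls in Lagrangian products and in symmetric convex domains

Goals (helper269).

* R1 (MP_63be92_gt): for all centrally symmetric convex bodies `A, B ⊆ ℝⁿ` the Gromov width and the
  cylindrical capacity of `A × B` agree (strong Viterbo for Lagrangian products; sharp form of
  Mahler's inequality).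
* R2 (MP_548236_gt): `cylCapacity K ≤ 7 gromovWidth K` for every centrally symmetric convex domain.

Idea of R1: `A = {|l_k(x)| ≤ 1}`, `η` the inverse of the lens map `hh` (library, `H712MA`),
`P(z) = Σ_k |η(l_k(z))|^(2m)` on `{z = x + i u : l_k(z) ∈ WW}`, `κ = (1 + ε) π m`,
`c(x, y) = (1/κ) ∫_0^y Δ|η|^(2m)(x, t) dt`. The map `F(x, u) = (x, Σ_k c(l_k(x), l_k(u)) l_k)`
pulls `Σ dx_i ∧ dv_i` back to `dd^c P / κ`, and `|c| ≤ |η|^(2m) + δ` for large `m`, so `F` maps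
`{P < 1 - δ'}` into `A × A°`. As `log P` is plurisubharmonic with a logarithmic pole of mass `2m`,
`P` can be replaced inside by a potential whose form contains a standard ball of capacity close to
`4 π m / κ`, and Moser's isotopy shows that `({P < 1 - δ'}, dd^c P / κ)` contains such a ball.

Each `S_X : Prop` below is one job: prove `theorem X : S_X` in a file importing this one.
-/

set_option autoImplicit false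

open MeasureTheory Filter Topology Set
open scoped ContDiff Matrix

noncomputable section

namespace Pool.Agent.H269.SV

open H712MA (pk WW eta hd gg VV E2 Spans)
open Pool.Agent.Y52.SJ (std SympEmb ball cyl gromovWidth cylCapacity)

/-- multiplication by `i` on `ℝⁿ × ℝⁿ`: `(x, u) ↦ (-u, x)` -/
def JJ (n : ℕ) : E2 n →L[ℝ] E2 n :=
  (-(ContinuousLinearMap.snd ℝ (Fin n → ℝ) (Fin n → ℝ))).prod
    (ContinuousLinearMap.fst ℝ (Fin n → ℝ) (Fin n → ℝ))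

@[simp] theorem JJ_apply {n : ℕ} (v : E2 n) : JJ n v = (-v.2, v.1) := rfl

/-- `|z|²` -/
def nsq {n : ℕ} (z : E2 n) : ℝ := ∑ i, (z.1 i ^ 2 + z.2 i ^ 2)

/-- the two-form `dd^c f`, `dd^c f (u, v) = D²f(v, iu) - D²f(u, iv)` (so that
`dd^c (|z|²/4) = Σ dx_i ∧ du_i`) -/
def ddc {n : ℕ} (f : E2 n → ℝ) (z u v : E2 n) : ℝ :=
  fderiv ℝ (fderiv ℝ f) z v (JJ n u) - fderiv ℝ (fderiv ℝ f) z u (JJ n v)

/-- the Levi form `D²f(v, v) + D²f(iv, iv) = dd^c f (v, iv)` -/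
def levi {n : ℕ} (f : E2 n → ℝ) (z v : E2 n) : ℝ :=
  fderiv ℝ (fderiv ℝ f) z v v + fderiv ℝ (fderiv ℝ f) z (JJ n v) (JJ n v)

/-- the Laplacian of a function on `ℂ` -/
def lap (p : ℂ → ℝ) (w : ℂ) : ℝ :=
  fderiv ℝ (fderiv ℝ p) w 1 1 + fderiv ℝ (fderiv ℝ p) w Complex.I Complex.I

/-- `Δ |η|^(2m) = 4 m² |η|^(2m-2) / |h'(η)|²` on the lens -/
def dens (m : ℕ) (w : ℂ) : ℝ := 4 * (m * ‖eta w‖ ^ (m - 1) / ‖hd (eta w)‖) ^ 2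

/-! ## one variable -/

/-- EST: for `0 ≤ α ≤ α_ε := (π/2)/(1+ε)`, all real `Λ` and all large `m`,
`m T^m ≤ η D` with `T = (cosh Λ - cos α)/(cosh Λ + cos α)`,
`D = Λ sinh Λ cos α + α sin α cosh Λ`.

Proof. Let `c = cos α_ε ∈ (0, 1]`, so `cos α ≥ c`. As `cosh Λ - 1 ≤ Λ sinh Λ` and
`1 - cos α ≤ α sin α` (`0 ≤ α ≤ π/2`), `cosh Λ - cos α ≤ Λ sinh Λ + α sin α ≤ D / c`.
Choose `Λ₁ ≥ 1` with `1/(2c²) ≤ (3/4) η Λ₁`.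
Case `|Λ| ≤ Λ₁`: `T ≤ θ := (cosh Λ₁ - c)/(cosh Λ₁ + c) < 1` and
`m T^m ≤ m θ^(m-1) T ≤ m θ^(m-1) (cosh Λ - cos α) ≤ m θ^(m-1) D / c ≤ η D` for large `m`.
Case `|Λ| ≥ Λ₁`: `T = 1 - 2cos α/(cosh Λ + cos α) ≤ exp(-c/cosh Λ)`, so
`m T^m ≤ m exp(-c m / cosh Λ) = cosh Λ · u e^(-cu) ≤ cosh Λ / (c e) ≤ cosh Λ / (2c)`, `u = m/cosh Λ`,
while `D ≥ c Λ sinh Λ ≥ c Λ₁ (3/4) cosh Λ` (`sinh |Λ| ≥ (3/4) cosh Λ` for `|Λ| ≥ 1`). -/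
def S_EST : Prop := ∀ ε > (0 : ℝ), ∀ η > (0 : ℝ), ∃ M : ℕ, ∀ m : ℕ, M ≤ m → ∀ L α : ℝ, 0 ≤ α →
  α ≤ Real.pi / 2 / (1 + ε) →
  m * ((Real.cosh L - Real.cos α) / (Real.cosh L + Real.cos α)) ^ m ≤
    η * (L * Real.sinh L * Real.cos α + α * Real.sin α * Real.cosh L)

/-- ONE: the vertical primitive of `Δ|η|^(2m)` is at most `(1+ε) π m (|η|^(2m) + δ)` for large `m`.

Proof. Library: `H712MA.H1 .. H4` prove `S_H1 .. S_H4` (files `Pool.Graph.R_seed8.H712R2.MA.H1`,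
...). Write `ζ(t) = η(x + i t)`, `0 ≤ t ≤ y` (in the lens by `S_H4` (1)), `ζ' = i / h'(ζ)`.
`h'(ζ) ζ = gg ζ = (4/π²) log cay ζ`, `cay ζ = (1+ζ)/(1-ζ)` (file H3: `hasSum_half_log`), put
`W = log cay ζ = L + i α`, `0 < α < π/2` for `t > 0`. Then `ζ = tanh (W/2)`,
`|ζ|² = (cosh L - cos α)/(cosh L + cos α)`, `(1 - ζ²) h'(ζ) = (8/π²) W / sinh W`,
`W' = 2 ζ'/(1 - ζ²) = i (π²/4) sinh W / W`, so
`α' = (π²/4) (L sinh L cos α + α sin α cosh L)/|W|² ≥ 0`, and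
`dens = 4 m² |ζ|^(2m) / |gg ζ|² = (π⁴/4) m² |ζ|^(2m) / |W|²`. With `S_H4` (4) (or directly)
`d/dt |ζ|^(2m) = (2/m)(dens/4) Im gg ζ = (2 α/(π² m)) dens`.
Let `κ = (1+ε) π m`. For `t > 0`: `dens/κ ≤ d/dt (|ζ|^(2m) + δ (2/π) α)`. Indeed if
`α ≥ (π/2)/(1+ε)` then `(2α/(π² m)) dens ≥ dens/κ`; if `α ≤ (π/2)/(1+ε)` then EST with
`η = 2δ/π²` gives `dens/κ = (π³/(4(1+ε))) m |ζ|^(2m)/|W|² ≤ δ (2/π) α'`.
So `G(t) = |ζ(t)|^(2m) + δ (2/π) α(t) - (1/κ) ∫_0^t dens` is continuous on `[0, y]` with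
`G' ≥ 0` on `(0, y)`, hence `G(y) ≥ G(0) ≥ 0`, and `(2/π) α(y) ≤ 1`. -/
def S_ONE : Prop := S_EST → ∀ ε > (0 : ℝ), ∀ δ > (0 : ℝ), ∃ M : ℕ, ∀ m : ℕ, M ≤ m →
  ∀ x y : ℝ, (⟨x, y⟩ : ℂ) ∈ WW → 0 ≤ y →
  ∫ t in (0 : ℝ)..y, dens m ⟨x, t⟩ ≤ (1 + ε) * Real.pi * m * (‖eta ⟨x, y⟩‖ ^ (2 * m) + δ)

/-- PRIM: the vertical primitive of a smooth function on a vertically star-shaped open set is
smooth.

Proof. `c(w) = w.im * ∫_0^1 ρ(w.re, s w.im) ds`. Near `w₀ ∈ U` the compact segment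
`{(w₀.re, s w₀.im)}` lies in `U`; a neighbourhood `N` of `w₀` is such that `(w.re, s w.im)`,
`w ∈ N`, `s ∈ [0,1]`, stays in a compact `C ⊆ U`; replace `ρ` by the globally smooth `χ ρ`, `χ = 1`
near `C`, `supp χ ⊆ U`, and use `Pool.Agent.W585.contDiff_param`
(`Pool.Graph.R_seed8.W585.Param`). Derivative: fundamental theorem of calculus. -/
def S_PRIM : Prop := ∀ (U : Set ℂ) (ρ : ℂ → ℝ), IsOpen U →
  (∀ x y y' : ℝ, (⟨x, y⟩ : ℂ) ∈ U → |y'| ≤ |y| → (⟨x, y'⟩ : ℂ) ∈ U) → ContDiffOn ℝ ∞ ρ U →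
  ContDiffOn ℝ ∞ (fun w : ℂ => ∫ t in (0 : ℝ)..w.im, ρ ⟨w.re, t⟩) U ∧
  ∀ w ∈ U, fderiv ℝ (fun w : ℂ => ∫ t in (0 : ℝ)..w.im, ρ ⟨w.re, t⟩) w Complex.I = ρ w

/-- LAP: `Δ |g|² = 4 |g'|²` for holomorphic `g`, and `|g|²` is smooth. -/
def S_LAP : Prop := ∀ (U : Set ℂ) (g : ℂ → ℂ), IsOpen U → DifferentiableOn ℂ g U →
  ContDiffOn ℝ ∞ (fun w => ‖g w‖ ^ 2) U ∧ ∀ w ∈ U, lap (fun w => ‖g w‖ ^ 2) w = 4 * ‖deriv g w‖ ^ 2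

/-- DSUM: `dd^c` of `Σ_k p(l_k(z))`. (Chain rule; `pk v` is real linear,
`pk v (JJ u) = i pk v u`, and the Hessian of `p` at `w` is symmetric.) -/
def S_DSUM : Prop := ∀ (n : ℕ) (ι : Type) [Fintype ι] (l : ι → Fin n → ℝ) (U : Set ℂ) (p : ℂ → ℝ),
  IsOpen U → ContDiffOn ℝ ∞ p U →
  ∀ z : E2 n, (∀ k, pk (l k) z ∈ U) → ∀ u v : E2 n,
    ddc (fun z => ∑ k, p (pk (l k) z)) z u v =
      ∑ k, lap p (pk (l k) z) * ((l k ⬝ᵥ u.1) * (l k ⬝ᵥ v.2) - (l k ⬝ᵥ u.2) * (l k ⬝ᵥ v.1))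

/-- FMAP: the map `F(x, u) = (x, Σ_k c(l_k(x), l_k(u)) l_k)` is smooth, injective, and pulls the
standard form back to `Σ_k c_y(l_k(z)) l_k(dx) ∧ l_k(du)`.

Proof. Injective: `F(x,u) = F(x,u')` gives `Σ_k (c(l_k x, l_k u) - c(l_k x, l_k u')) l_k = 0`; take
the dot product with `u - u'`; every summand is `≥ 0` and `> 0` if `l_k u ≠ l_k u'`, because `c` is
strictly increasing on vertical segments of `U`. So `l_k (u - u') = 0` for all `k`, hence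
`u = u'` as the `l_k` span. Symplectic form: `Σ_i dx_i ∧ d(Σ_k c_k l_k^i) = Σ_k dl_k(x) ∧ dc_k`,
and the `x`-derivative of `c` drops out. -/
def S_FMAP : Prop := ∀ (n : ℕ) (ι : Type) [Fintype ι] (l : ι → Fin n → ℝ), Spans l →
  ∀ (U : Set ℂ) (c ρ : ℂ → ℝ), IsOpen U →
  (∀ x y y' : ℝ, (⟨x, y⟩ : ℂ) ∈ U → |y'| ≤ |y| → (⟨x, y'⟩ : ℂ) ∈ U) → ContDiffOn ℝ ∞ c U →
  (∀ w ∈ U, fderiv ℝ c w Complex.I = ρ w) → (∀ w ∈ U, 0 < ρ w) →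
  let V : Set (E2 n) := {z | ∀ k, pk (l k) z ∈ U}
  let F : E2 n → E2 n := fun z => (z.1, ∑ k, c (pk (l k) z) • l k)
  ContDiffOn ℝ ∞ F V ∧ InjOn F V ∧ ∀ z ∈ V, ∀ u v : E2 n,
    std (fderiv ℝ F z u) (fderiv ℝ F z v) =
      ∑ k, ρ (pk (l k) z) * ((l k ⬝ᵥ u.1) * (l k ⬝ᵥ v.2) - (l k ⬝ᵥ u.2) * (l k ⬝ᵥ v.1))

/-! ## several variables -/

/-- MOSER: two potentials which agree off a compact set and are strictly plurisubharmonic on a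
neighbourhood of it have isotopic forms.

Proof. Library toolkit: `Pool.Graph.R_pool_sql_team_seeded_63374d34.N520.HFlow/HTwo/HAlg/HMoser`
(`exists_isotopy_linear`, `pull_const`, `contDiff_solve`, `dOne`; see the proof of `moser` there).
`lam f z v = -Df z (J v)`, `dOne (lam f) = ddc f`; `S_t = ddc((1-s) f₀ + s f₁)`, `s = sin² t`, tames
`J` on `V`. With a smooth cutoff `χ` (`χ = 1` near `K`, support in `V`) let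
`S'_t = χ S_t + (1-χ) std`, nondegenerate everywhere, `Y_t = (S'_t)⁻¹ (lam f₀ - lam f₁)`, smooth with
support in `K`, `X_t = s'(t) Y_t`; the flow exists, is the identity off `K`, keeps `K` invariant.
The computation of `pull_const` is pointwise along the trajectory, only closedness of `S'_t` near
the point is used, and `S'_t = S_t` is exact near `K`; off `K` the flow is the identity near the
point and the forms agree. -/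
def S_MOSER : Prop := ∀ (n : ℕ) (f₀ f₁ : E2 n → ℝ) (K V : Set (E2 n)),
  ContDiff ℝ ∞ f₀ → ContDiff ℝ ∞ f₁ → IsCompact K → IsOpen V → K ⊆ V →
  (∀ z, z ∉ K → f₀ z = f₁ z) →
  (∀ z ∈ V, ∀ v, v ≠ 0 → 0 < levi f₀ z v) → (∀ z ∈ V, ∀ v, v ≠ 0 → 0 < levi f₁ z v) →
  ∃ Φ Ψ : E2 n → E2 n, ContDiff ℝ ∞ Φ ∧ (∀ z, Ψ (Φ z) = z) ∧ (∀ z, Φ (Ψ z) = z) ∧
    (∀ z, z ∉ K → Φ z = z) ∧
    ∀ z u v, ddc f₁ (Φ z) (fderiv ℝ Φ z u) (fderiv ℝ Φ z v) = ddc f₀ z u v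

/-- BALL: the Fubini–Study ball. `φ(z) = δ z / √(4a - |z|²)`; `|φ|² + δ² = 4 a δ²/(4a - |z|²)`. The
pullback of `λ = -d(a log(|w|²+δ²)) ∘ J = -2a ⟨w, J dw⟩/(|w|²+δ²)` is `-½ ⟨z, J dz⟩` (radial map:
`⟨z, J z⟩ = 0`). Direct computation of both sides is also possible. -/
def S_BALL : Prop := ∀ (n : ℕ) (a δ R r c : ℝ), 0 < a → 0 < δ → 0 < R → 0 < r →
  r ^ 2 * (R ^ 2 + δ ^ 2) ≤ 4 * a * R ^ 2 →
  ∃ φ : E2 n → E2 n, ContDiffOn ℝ ∞ φ (ball n r) ∧ InjOn φ (ball n r) ∧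
    MapsTo φ (ball n r) (ball n R) ∧
    ∀ f : E2 n → ℝ, (∀ z ∈ ball n R, f z = a * Real.log (nsq z + δ ^ 2) + c) →
      ∀ z ∈ ball n r, ∀ u v, ddc f (φ z) (fderiv ℝ φ z u) (fderiv ℝ φ z v) = std u v

/-- THETA: a smooth `Θ` on `(0, ∞)` equal to `s₀ log t + c` for `t ≤ s₀` and to `t` for `t ≥ s₁`,
with `Θ' > 0` and `t Θ'(t)` nondecreasing.

Proof. `w(t) = s₀ + (t - s₀) T((t - s₀)/(s₁ - s₀))`, `T = Real.smoothTransition` (monotone), is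
smooth, nondecreasing, `= s₀` for `t ≤ s₀`, `= t` for `t ≥ s₁`; `Θ(t) = s₁ + ∫_{s₁}^t w(τ)/τ dτ`. -/
def S_THETA : Prop := ∀ s₀ s₁ : ℝ, 0 < s₀ → s₀ < s₁ → ∃ (Θ : ℝ → ℝ) (c : ℝ),
  ContDiffOn ℝ ∞ Θ (Ioi 0) ∧ (∀ t, s₁ ≤ t → Θ t = t) ∧
  (∀ t, 0 < t → t ≤ s₀ → Θ t = s₀ * Real.log t + c) ∧
  ∀ t, 0 < t → 0 < deriv Θ t ∧ 0 ≤ deriv Θ t + t * deriv (deriv Θ) t

/-- MU: a smooth convex `μ` with `μ = 0` for `t ≤ -1`, `μ = t` for `t ≥ 1`.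
Proof: `μ(t) = ∫_{-1}^t T((τ+1)/2) dτ`, `T = Real.smoothTransition`, `T(x) + T(1-x) = 1`. -/
def S_MU : Prop := ∃ μ : ℝ → ℝ, ContDiff ℝ ∞ μ ∧ (∀ t, t ≤ -1 → μ t = 0) ∧
  (∀ t, 1 ≤ t → μ t = t) ∧ ∀ t, 0 ≤ deriv μ t ∧ deriv μ t ≤ 1 ∧ 0 ≤ deriv (deriv μ) t

/-- LEVI: Levi forms of compositions `θ ∘ f`, of sums of squares of holomorphic functions, and of
`a log(|z|² + δ²)`.
(1) `levi (θ∘f) v = θ' levi f v + θ'' (Df(v)² + Df(Jv)²)`.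
(2) if `f = Σ|h_j|²` near `z`, `h_j` smooth with `Dh_j(Jv) = i Dh_j(v)`, then
`levi f v = 4 Σ |Dh_j(v)|²` and `Df(v)² + Df(Jv)² ≤ f(z) levi f v` (Cauchy–Schwarz).
(3) `levi (a log(|z|²+δ²)) v = 4a [ |v|²/(|z|²+δ²) - (⟨z,v⟩² + ⟨z,Jv⟩²)/(|z|²+δ²)² ]
 ≥ 4 a δ² |v|²/(|z|²+δ²)²`. -/
def S_LEVI : Prop :=
  (∀ (n : ℕ) (f : E2 n → ℝ) (θ : ℝ → ℝ) (z v : E2 n), ContDiffAt ℝ ∞ f z →
    ContDiffAt ℝ ∞ θ (f z) →
    levi (fun y => θ (f y)) z v = deriv θ (f z) * levi f z v +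
      deriv (deriv θ) (f z) * ((fderiv ℝ f z v) ^ 2 + (fderiv ℝ f z (JJ n v)) ^ 2)) ∧
  (∀ (n : ℕ) (ι : Type) [Fintype ι] (f : E2 n → ℝ) (h : ι → E2 n → ℂ) (U : Set (E2 n)) (z v : E2 n),
    IsOpen U → z ∈ U → (∀ y ∈ U, f y = ∑ j, ‖h j y‖ ^ 2) → (∀ j, ContDiffOn ℝ ∞ (h j) U) →
    (∀ j, ∀ y ∈ U, ∀ v, fderiv ℝ (h j) y (JJ n v) = Complex.I * fderiv ℝ (h j) y v) →
    levi f z v = 4 * ∑ j, ‖fderiv ℝ (h j) z v‖ ^ 2 ∧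
      (fderiv ℝ f z v) ^ 2 + (fderiv ℝ f z (JJ n v)) ^ 2 ≤ f z * levi f z v) ∧
  (∀ (n : ℕ) (a δ c : ℝ) (z v : E2 n), 0 < a → 0 < δ →
    4 * a * δ ^ 2 * nsq v / (nsq z + δ ^ 2) ^ 2 ≤
      levi (fun y => a * Real.log (nsq y + δ ^ 2) + c) z v)

/-- a nonnegative function which is a finite sum of squares of holomorphic functions on the
relatively compact open set `{P < s}` and vanishes to order `2m` at the origin only -/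
structure PD (n m : ℕ) (ι : Type) [Fintype ι] (h : ι → E2 n → ℂ) (P : E2 n → ℝ) (s : ℝ) :
    Prop where
  cont : Continuous P
  nonneg : ∀ z, 0 ≤ P z
  eq : ∀ z, P z < s → P z = ∑ j, ‖h j z‖ ^ 2
  smooth : ∀ j, ContDiffOn ℝ ∞ (h j) {z | P z < s}
  hol : ∀ j z, P z < s → ∀ v, fderiv ℝ (h j) z (JJ n v) = Complex.I * fderiv ℝ (h j) z v
  cpt : ∀ t, t < s → IsCompact {z | P z ≤ t}
  lower : ∃ c > 0, ∀ z, P z < s → c * nsq z ^ m ≤ P z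
  upper : ∃ C > 0, ∃ ρ > 0, ∀ z : E2 n, nsq z < ρ → P z < s ∧ P z ≤ C * nsq z ^ m

/-- POLE: the potential `P/κ + τN` can be replaced, inside `{P < s}`, by one which is
`a log(|z|² + δ²) + c` on a ball `B(R)`, `4 a R²/(R² + δ²) ≥ r²`, for every `r² < 4 m s / κ`.

Proof. Choose `γ' < s₀ < s₁ < s`, `r² < 4 m γ'/κ`, `γ' > 0`; `t = s₁`, `Θ` from THETA,
`g₁ = Θ(P)/κ + τ N` on `{0 < P < s}`, `a = m γ'/κ`, `g₂ = a log(|z|²+δ²) + c₂`,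
`f₀ = g₂ + μ(g₁ - g₂)` for `z` away from `0`, `f₀ = g₂` near `0`.
By `PD.lower`, `g₁ ≥ (m s₀/κ) log nsq - C₂` on `{0 < P < s}` (for `P ≥ s₀` both sides are bounded);
by `PD.upper` and `N ≤ C nsq`, `g₁ ≤ (m s₀/κ) log nsq + C₁` for `nsq < ρ'`, so that `P ≤ s₀`.
Fix `R₂ > 0` small (`nsq < R₂²` implies `nsq < ρ'`) and
`c₂` with `g₁ - g₂ ≥ 1` whenever `nsq z ≥ R₂²`, `P z < s`, for every `δ ≤ R₂` (possible: for
`nsq ≥ R₂²`, `log(nsq + δ²) ≤ log nsq + log 2`, and `s₀ > γ'`, so the worst case is `nsq = R₂²`).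
Then for `nsq < R₁²` (with `R₁ < R₂` small, independent of `δ`) `g₁ - g₂ ≤ -1`, because
`log (nsq + δ²) ≥ log nsq` and `(s₀ - γ') log nsq → -∞`. Take `R < R₁` and `δ` small with
`r² (R² + δ²) ≤ 4 a R²`. Levi: `levi f₀ ≥ (1-μ') levi g₂ + μ' levi g₁ > 0`,
`levi g₁ ≥ τ levi N > 0` by LEVI (1), (2) and `Θ' ≥ 0`, `Θ' + tΘ'' ≥ 0`.
For `P ≥ s₁`: `nsq ≥ R₂²` (as `nsq < ρ'` gives `P ≤ s₀`), so `f₀ = g₁ = P/κ + τN`. -/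
def S_POLE : Prop := S_THETA → S_MU → S_LEVI → ∀ (n m : ℕ) (ι : Type) [Fintype ι]
  (h : ι → E2 n → ℂ) (P : E2 n → ℝ) (s κ τ r : ℝ) (N : E2 n → ℝ), 1 ≤ n → 1 ≤ m → 0 < s → 0 < κ →
  0 < τ → PD n m ι h P s → ContDiff ℝ ∞ N → (∀ z, 0 ≤ N z) →
  (∃ C : ℝ, ∀ z, N z ≤ C * nsq z) → (∀ z v, v ≠ 0 → 0 < levi N z v) →
  0 < r → r ^ 2 < 4 * m * s / κ →
  ∃ (t : ℝ) (f₀ : E2 n → ℝ) (a δ R c : ℝ), t < s ∧ ContDiffOn ℝ ∞ f₀ {z | P z < s} ∧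
    (∀ z, P z < s → t ≤ P z → f₀ z = P z / κ + τ * N z) ∧
    (∀ z, P z < s → ∀ v, v ≠ 0 → 0 < levi f₀ z v) ∧
    0 < a ∧ 0 < δ ∧ 0 < R ∧ r ^ 2 * (R ^ 2 + δ ^ 2) ≤ 4 * a * R ^ 2 ∧
    (∀ z ∈ ball n R, P z ≤ t) ∧ ∀ z ∈ ball n R, f₀ z = a * Real.log (nsq z + δ ^ 2) + c

/-- PDL: the data for the lens. Library: `H712MA.S_P` (proved in `...MA.P`), `S_H1`, `S_H2`;
lower bound `‖η(w)‖ ≥ ‖w‖`, upper bound `‖η(w)‖ ≤ (π²/4) ‖w‖` on `WW` (`S_H1`). Here `L` is the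
`Lens` with `L.W = WW`, `L.e = eta` and `VV L m l z = Σ_k ‖η(l_k(z))^m‖²`. -/
def S_PDL : Prop := ∀ (L : H712MA.Lens), L.W = WW → L.e = eta → ∀ (n m : ℕ) (ι : Type) [Fintype ι]
  (l : ι → Fin n → ℝ), 1 ≤ n → 1 ≤ m → Spans l →
  PD n m ι (fun k z => eta (pk (l k) z) ^ m) (VV L m l) 1

/-- NET: approximation by polytopes from inside. (Finite `η`-net of the compact set `B`;
`B ⊆ conv(±l_k) + η B` gives `B ⊆ (1-η)⁻¹ conv(±l_k)`.) -/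
def S_NET : Prop := ∀ (n : ℕ) (B : Set (Fin n → ℝ)), IsCompact B → Convex ℝ B →
  (∀ x ∈ B, -x ∈ B) → (0 : Fin n → ℝ) ∈ interior B → ∀ ε > (0 : ℝ),
  ∃ (N : ℕ) (l : Fin N → Fin n → ℝ), (∀ k, l k ∈ B) ∧ Spans l ∧
    ∀ b ∈ B, ∃ c : Fin N → ℝ, ∑ k, |c k| ≤ 1 + ε ∧ b = ∑ k, c k • l k

/-- CORE (R1 for `A = B°`): every ball of capacity less than `4` embeds in `int B° × int B`. -/
def S_CORE : Prop := ∀ (n : ℕ) (B : Set (Fin n → ℝ)), 1 ≤ n → IsCompact B → Convex ℝ B →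
  (∀ x ∈ B, -x ∈ B) → (0 : Fin n → ℝ) ∈ interior B → ∀ r : ℝ, 0 < r → Real.pi * r ^ 2 < 4 →
  SympEmb (ball n r) {z : E2 n | (∀ b ∈ B, |b ⬝ᵥ z.1| < 1) ∧ z.2 ∈ interior B}

/-! ## R2: general symmetric convex domains -/

/-- a norm on phase space which dominates the symplectic form and is self-dual for it (its unit
ball `L` satisfies `L = L^ω`) -/
structure SN (n : ℕ) (h : E2 n → ℝ) : Prop where
  nonneg : ∀ v, 0 ≤ h v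
  pos : ∀ v, v ≠ 0 → 0 < h v
  add : ∀ v w, h (v + w) ≤ h v + h w
  smul : ∀ (t : ℝ) v, h (t • v) = |t| * h v
  std_le : ∀ v w, |std v w| ≤ h v * h w
  dual : ∀ (v : E2 n) (C : ℝ), 0 ≤ C → (∀ w, std v w ≤ C * h w) → h v ≤ C

/-- the projection of the unit ball to the second factor -/
def Sh {n : ℕ} (h : E2 n → ℝ) : Set (Fin n → ℝ) := {y | ∃ x, h (x, y) ≤ 1}

/-- CHAIN: there is `φ` on `D = Sh h` with
`φ(y') - φ(y) ≤ (7/4) h(ξ, y' - y) + ⟨ξ, (y + y')/2⟩` for all `y, y' ∈ D`, `h(ξ, y'-y) ≤ 1`.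

Proof. A chain from `0` to `y` is a list of steps `(ξ_i, y_{i-1} → y_i)`, `y_i ∈ D`, of lengths
`ℓ_i = h(ξ_i, y_i - y_{i-1}) ≤ 1`, with cost `Σ (7/4) ℓ_i + ⟨ξ_i, (y_{i-1}+y_i)/2⟩`;
`φ(y) = inf` of the costs (for fixed `y` the set of costs is nonempty: `D` is convex, `0 ∈ D`, take
a subdivided segment with `ξ = 0`). The inequality is clear, once the costs are bounded below.
For `y ∈ D` choose `x_y` with `h(x_y, y) ≤ 1`, `ψ(y) = ½⟨x_y, y⟩`. For a chain from `b ∈ D` to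
`e ∈ D` of total length `ℓ` let `u_0 = (x_b, b)`, `u_i = u_{i-1} + (ξ_i, y_i - y_{i-1})`. Then
`-Σ⟨ξ_i, (y_{i-1}+y_i)/2⟩ = ½ Σ std(u_{i-1}, u_i) + ½⟨x_b, b⟩ - ½⟨X_N, e⟩`
`= ψ(b) - ψ(e) + ½ [Σ std(u_{i-1}, u_i) - std(u_N, w_e)]`, `w_e = (x_e, e)`, and
`std(u_{i-1}, u_i) = std(u_{i-1}, u_i - u_{i-1}) ≤ (1 + ℓ_1 + .. + ℓ_{i-1}) ℓ_i`,
`-std(u_N, w_e) ≤ 1 + ℓ`; so the cost is at least `ψ(e) - ψ(b) + (7/4) ℓ - ½ - ℓ - ℓ²/4`. The last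
four terms are `≥ 0` for `1 ≤ ℓ ≤ 2` and `≥ -½` for `0 ≤ ℓ ≤ 1`. Cut a long chain into blocks of
length in `[1, 2]` (steps are at most `1`) and one last block of length `< 1`:
cost `≥ ψ(e) - ψ(b) - ½`. -/
def S_CHAIN : Prop := ∀ (n : ℕ) (h : E2 n → ℝ), SN n h → ∃ φ : (Fin n → ℝ) → ℝ,
  ∀ y ∈ Sh h, ∀ y' ∈ Sh h, ∀ ξ : Fin n → ℝ, h (ξ, y' - y) ≤ 1 →
    φ y' ≤ φ y + 7 / 4 * h (ξ, y' - y) + ξ ⬝ᵥ ((1 / 2 : ℝ) • (y + y'))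

/-- MOLL: smoothing of `φ`.

Proof. `D = Sh h` is compact, convex, symmetric, `0 ∈ int D` (`h` is a norm on a finite-dimensional
space). Extend `φ` by `0` off `int D` (`φ` is continuous, hence bounded, on `D`: take `ξ = 0`) and
convolve with an even bump function `ρ` supported in `{|z| < r}`, `(1-ε) D + {|z| < r} ⊆ int D`:
`Φ(y) = ∫ φ(y - z) ρ(z) dz`. For `y, y' ∈ (1-ε') D` close to each other, the inequality of CHAIN at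
`y - z, y' - z` integrates to the same inequality for `Φ`, since `∫ z ρ(z) dz = 0`. Put
`y' = y + tη`, `ξ → tξ`, divide by `t → 0+`. -/
def S_MOLL : Prop := ∀ (n : ℕ) (h : E2 n → ℝ), SN n h → ∀ φ : (Fin n → ℝ) → ℝ,
  (∀ y ∈ Sh h, ∀ y' ∈ Sh h, ∀ ξ : Fin n → ℝ, h (ξ, y' - y) ≤ 1 →
    φ y' ≤ φ y + 7 / 4 * h (ξ, y' - y) + ξ ⬝ᵥ ((1 / 2 : ℝ) • (y + y'))) →
  ∀ ε : ℝ, 0 < ε → ε < 1 → ∃ Φ : (Fin n → ℝ) → ℝ, ContDiff ℝ ∞ Φ ∧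
    ∀ y ∈ Sh h, ∀ ξ η : Fin n → ℝ,
      fderiv ℝ Φ ((1 - ε) • y) η - ξ ⬝ᵥ ((1 - ε) • y) ≤ 7 / 4 * h (ξ, η)

/-- the symplectic polar -/
def sp {n : ℕ} (K : Set (E2 n)) : Set (E2 n) := {v | ∀ w ∈ K, |std v w| ≤ 1}

/-- ZORN: if `K^ω ⊆ (K^ω)^ω` then `K` contains the unit ball of a norm as above.

Proof. Bipolar theorem: `sp (sp K) = K`. Zorn on `{M | sp K ⊆ M ⊆ sp M}`; a maximal `M` satisfies
`M = sp M` (add a point `z ∈ sp M`), `L = M ⊆ sp (sp K) = K`. `h(v) = sup_{w ∈ L} |std v w|` (finite as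
`L ⊆ K` is bounded, positive for `v ≠ 0` as `L ⊇ sp K` is a neighbourhood of `0`);
`{h ≤ 1} = sp L = L`, `|std v w| ≤ h v h w` by homogeneity. -/
def S_ZORN : Prop := ∀ (n : ℕ) (K : Set (E2 n)), IsCompact K → Convex ℝ K → (∀ v ∈ K, -v ∈ K) →
  (0 : E2 n) ∈ interior K → (∀ v ∈ sp K, ∀ w ∈ sp K, |std v w| ≤ 1) →
  ∃ h : E2 n → ℝ, SN n h ∧ ∀ v, h v ≤ 1 → v ∈ K

/-- CYL: two functionals bound the cylindrical capacity (library: `S_CAP2` proved in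
`Pool.Graph.R_seed8.Y550.SJ.Cap2`, `S_SQ` in `...Y43.SJ.SQ`, `S_WITT` in `...Y540.SJ.Witt`; see
`Pool.Graph.R_seed8.Y52.SJ.Abs2/Conc` for the use). -/
def S_CYL : Prop := ∀ (n : ℕ) (K : Set (E2 (n + 1))) (v w : E2 (n + 1)), 0 < std v w →
  (∀ x ∈ K, |std v x| ≤ 1) → (∀ x ∈ K, |std w x| ≤ 1) →
  cylCapacity K ≤ ENNReal.ofReal (4 / std v w)

end Pool.Agent.H269.SV
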