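import Pool.Agent.H269.SV.Stm

/-! Project SV (helper269): BALL, by helper343. The Fubini–Study ball. -/

set_option autoImplicit false

open MeasureTheory Filter Topology Set
open scoped ContDiff Matrix

noncomputable section

namespace Pool.Agent.H343.SV

open Pool.Agent.H269.SV
open H712MA (E2)
open Pool.Agent.Y52.SJ (std ball)

variable {n : ℕ}

/-- coordinates -/
def p1 (i : Fin n) : E2 n →L[ℝ] ℝ :=
  (ContinuousLinearMap.proj i).comp (ContinuousLinearMap.fst ℝ (Fin n → ℝ) (Fin n → ℝ))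

def p2 (i : Fin n) : E2 n →L[ℝ] ℝ :=
  (ContinuousLinearMap.proj i).comp (ContinuousLinearMap.snd ℝ (Fin n → ℝ) (Fin n → ℝ))

@[simp] lemma p1_apply (i : Fin n) (z : E2 n) : p1 i z = z.1 i := rfl
@[simp] lemma p2_apply (i : Fin n) (z : E2 n) : p2 i z = z.2 i := rfl

/-- the inner product -/
def ip : E2 n →L[ℝ] E2 n →L[ℝ] ℝ := ∑ i, ((p1 i).smulRight (p1 i) + (p2 i).smulRight (p2 i))

lemma ip_apply (z w : E2 n) : ip z w = ∑ i, (z.1 i * w.1 i + z.2 i * w.2 i) := by
  simp [ip]

lemma ip_comm (z w : E2 n) : ip z w = ip w z := by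
  rw [ip_apply, ip_apply]
  exact Finset.sum_congr rfl fun i _ => by ring

lemma nsq_eq (z : E2 n) : nsq z = ip z z := by
  rw [ip_apply]
  exact Finset.sum_congr rfl fun i _ => by ring

lemma nsq_nonneg (z : E2 n) : 0 ≤ nsq z := Finset.sum_nonneg fun i _ => by positivity

lemma ip_J (z u : E2 n) : ip z (JJ n u) = std u z := by
  rw [ip_apply]
  unfold std
  refine Finset.sum_congr rfl fun i _ => ?_
  simp only [JJ_apply, Pi.neg_apply]
  ring

lemma std_anti (u v : E2 n) : std u v = - std v u := by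
  unfold std
  rw [← Finset.sum_neg_distrib]
  exact Finset.sum_congr rfl fun i _ => by ring

lemma std_self (u : E2 n) : std u u = 0 := by
  have := std_anti u u
  linarith

lemma std_add_left (u v w : E2 n) : std (u + v) w = std u w + std v w := by
  unfold std
  rw [← Finset.sum_add_distrib]
  exact Finset.sum_congr rfl fun i _ => by simp only [Prod.fst_add, Prod.snd_add, Pi.add_apply]; ring

lemma std_smul_left (c : ℝ) (u w : E2 n) : std (c • u) w = c * std u w := by
  unfold std
  rw [Finset.mul_sum]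
  exact Finset.sum_congr rfl fun i _ => by
    simp only [Prod.smul_fst, Prod.smul_snd, Pi.smul_apply, smul_eq_mul]; ring

lemma std_add_right (u v w : E2 n) : std w (u + v) = std w u + std w v := by
  rw [std_anti, std_add_left, std_anti u, std_anti v]; ring

lemma std_smul_right (c : ℝ) (u w : E2 n) : std w (c • u) = c * std w u := by
  rw [std_anti, std_smul_left, std_anti u]; ring

lemma nsq_hasFDerivAt (z : E2 n) : HasFDerivAt (nsq : E2 n → ℝ) ((2 : ℝ) • ip z) z := by
  have h : HasFDerivAt (fun z : E2 n => ip z z) _ z :=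
    (ip.hasFDerivAt (x := z)).clm_apply (hasFDerivAt_id z)
  have e : (nsq : E2 n → ℝ) = fun z => ip z z := funext nsq_eq
  rw [e]
  refine h.congr_fderiv (ContinuousLinearMap.ext fun u => ?_)
  show ip z u + ip u z = 2 * ip z u
  rw [ip_comm u z]
  ring

lemma nsq_contDiff : ContDiff ℝ ∞ (nsq : E2 n → ℝ) := by
  have e : (nsq : E2 n → ℝ) = fun z => ip z z := funext nsq_eq
  rw [e]
  exact ip.contDiff.clm_apply contDiff_id

lemma isOpen_ball (n : ℕ) (r : ℝ) : IsOpen (ball n r) := by
  have : ball n r = {z : E2 n | nsq z < r ^ 2} := rfl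
  rw [this]
  exact isOpen_lt (nsq_contDiff.continuous) continuous_const

/-- the form of the Fubini–Study potential -/
lemma ddc_fs (a δ R c : ℝ) (hδ : 0 < δ) (f : E2 n → ℝ)
    (hf : ∀ z ∈ ball n R, f z = a * Real.log (nsq z + δ ^ 2) + c) (w : E2 n) (hw : w ∈ ball n R)
    (U V : E2 n) : ddc f w U V = 4 * a * std U V / (nsq w + δ ^ 2) -
      4 * a * (std U w * ip w V - std V w * ip w U) / (nsq w + δ ^ 2) ^ 2 := by
  have hpos : ∀ z : E2 n, 0 < nsq z + δ ^ 2 := fun z => by
    have := nsq_nonneg z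
    positivity
  have h1 : ∀ z ∈ ball n R, HasFDerivAt f ((2 * a / (nsq z + δ ^ 2)) • ip z) z := by
    intro z hz
    have h := (((nsq_hasFDerivAt z).add_const (δ ^ 2)).log (hpos z).ne').const_mul a
    have h2 := h.add_const c
    refine (h2.congr_of_eventuallyEq ?_).congr_fderiv ?_
    · filter_upwards [(isOpen_ball n R).mem_nhds hz] with y hy
      rw [hf y hy]
    · rw [smul_smul, smul_smul]
      congr 1
      field_simp
  have h2 : HasFDerivAt (fderiv ℝ f) ((2 * a / (nsq w + δ ^ 2)) • ip +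
      ((-(4 * a) / (nsq w + δ ^ 2) ^ 2) • ip w).smulRight (ip w)) w := by
    have h3 : HasFDerivAt (fun z : E2 n => (2 * a / (nsq z + δ ^ 2)))
        ((-(4 * a) / (nsq w + δ ^ 2) ^ 2) • ip w) w := by
      have h4 := ((hasDerivAt_inv (hpos w).ne').comp_hasFDerivAt w
        ((nsq_hasFDerivAt w).add_const (δ ^ 2))).const_mul (2 * a)
      refine (h4.congr_of_eventuallyEq (Eventually.of_forall fun z => ?_)).congr_fderiv ?_
      · simp only [Function.comp_apply]
        rw [div_eq_mul_inv]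
      · rw [smul_smul, smul_smul]
        congr 1
        have := (hpos w).ne'
        field_simp
        ring
    have h5 : HasFDerivAt (fun z : E2 n => (2 * a / (nsq z + δ ^ 2)) • ip z) _ w :=
      h3.smul (ip.hasFDerivAt (x := w))
    refine h5.congr_of_eventuallyEq ?_
    filter_upwards [(isOpen_ball n R).mem_nhds hw] with y hy
    exact (h1 y hy).fderiv
  unfold ddc
  rw [h2.fderiv]
  have key : ∀ x y : E2 n, ((2 * a / (nsq w + δ ^ 2)) • (ip : E2 n →L[ℝ] E2 n →L[ℝ] ℝ) +
      ((-(4 * a) / (nsq w + δ ^ 2) ^ 2) • (ip w : E2 n →L[ℝ] ℝ)).smulRight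
        (ip w : E2 n →L[ℝ] ℝ)) x y =
      2 * a / (nsq w + δ ^ 2) * ip x y + -(4 * a) / (nsq w + δ ^ 2) ^ 2 * ip w x * ip w y := by
    intro x y
    show (2 * a / (nsq w + δ ^ 2)) * ip x y + ((-(4 * a) / (nsq w + δ ^ 2) ^ 2) * ip w x) * ip w y = _
    ring
  rw [key, key, ip_J, ip_J, ip_J, ip_J, std_anti V U]
  have := (hpos w).ne'
  field_simp
  ring

/-- the scalar factor -/
def gf (a δ : ℝ) (z : E2 n) : ℝ := δ * (4 * a - nsq z) ^ (-(1 / 2) : ℝ)

lemma gf_sq (a δ : ℝ) (z : E2 n) (hz : 0 < 4 * a - nsq z) :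
    gf a δ z ^ 2 = δ ^ 2 / (4 * a - nsq z) := by
  unfold gf
  have h : ((4 * a - nsq z) ^ (-(1 / 2) : ℝ)) ^ 2 = (4 * a - nsq z)⁻¹ := by
    rw [← Real.rpow_natCast, ← Real.rpow_mul hz.le, ← Real.rpow_neg_one]
    norm_num
  rw [mul_pow, h, div_eq_mul_inv]

lemma gf_pos (a δ : ℝ) (hδ : 0 < δ) (z : E2 n) (hz : 0 < 4 * a - nsq z) : 0 < gf a δ z := by
  unfold gf
  positivity

lemma gf_hasFDerivAt (a δ : ℝ) (z : E2 n) (hz : 0 < 4 * a - nsq z) :
    HasFDerivAt (gf a δ : E2 n → ℝ) ((gf a δ z / (4 * a - nsq z)) • ip z) z := by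
  have h := (((nsq_hasFDerivAt z).const_sub (4 * a)).rpow_const (p := (-(1 / 2) : ℝ))
    (Or.inl hz.ne')).const_mul δ
  refine h.congr_fderiv ?_
  rw [smul_smul]
  unfold gf
  rw [Real.rpow_sub_one hz.ne', ← neg_smul, smul_smul]
  congr 1
  ring

lemma nsq_smul (c : ℝ) (z : E2 n) : nsq (c • z) = c ^ 2 * nsq z := by
  unfold nsq
  rw [Finset.mul_sum]
  exact Finset.sum_congr rfl fun i _ => by
    simp only [Prod.smul_fst, Prod.smul_snd, Pi.smul_apply, smul_eq_mul]; ring

theorem BALL : S_BALL := by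
  intro n a δ R r c ha hδ hR hr hle
  have hq : ∀ z ∈ ball n r, 0 < 4 * a - nsq z := by
    intro z hz
    have h1 : nsq z < r ^ 2 := hz
    have h2 : r ^ 2 * (R ^ 2) ≤ 4 * a * R ^ 2 := by
      have : 0 ≤ r ^ 2 * δ ^ 2 := by positivity
      linarith
    have h3 : r ^ 2 ≤ 4 * a := le_of_mul_le_mul_right h2 (by positivity)
    linarith
  refine ⟨fun z => gf a δ z • z, ?_, ?_, ?_, ?_⟩
  · -- smooth
    refine ContDiffOn.smul (f := gf a δ) (g := fun z : E2 n => z) ?_ contDiffOn_id
    unfold gf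
    refine contDiffOn_const.mul ?_
    intro z hz
    refine ContDiffWithinAt.rpow_const_of_ne ?_ (hq z hz).ne'
    exact (contDiff_const.sub nsq_contDiff).contDiffAt.contDiffWithinAt
  · -- injective
    intro z hz z' hz' he
    simp only at he
    have hqz := hq z hz
    have hqz' := hq z' hz'
    have h1 : gf a δ z ^ 2 * nsq z = gf a δ z' ^ 2 * nsq z' := by
      rw [← nsq_smul, ← nsq_smul, he]
    rw [gf_sq a δ z hqz, gf_sq a δ z' hqz'] at h1
    have h2 : nsq z = nsq z' := by
      field_simp at h1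
      nlinarith
    have h3 : gf a δ z = gf a δ z' := by unfold gf; rw [h2]
    rw [h3] at he
    exact smul_right_injective _ (gf_pos a δ hδ z' hqz').ne' he
  · -- image
    intro z hz
    have hqz := hq z hz
    have h1 : nsq z < r ^ 2 := hz
    show nsq (gf a δ z • z) < R ^ 2
    rw [nsq_smul, gf_sq a δ z hqz, div_mul_eq_mul_div, div_lt_iff₀ hqz]
    have h2 : nsq z * (R ^ 2 + δ ^ 2) < r ^ 2 * (R ^ 2 + δ ^ 2) :=
      mul_lt_mul_of_pos_right h1 (by positivity)
    nlinarith
  · intro f hf z hz u v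
    have hqz := hq z hz
    have hmem : gf a δ z • z ∈ ball n R := by
      have h1 : nsq z < r ^ 2 := hz
      show nsq (gf a δ z • z) < R ^ 2
      rw [nsq_smul, gf_sq a δ z hqz, div_mul_eq_mul_div, div_lt_iff₀ hqz]
      have h2 : nsq z * (R ^ 2 + δ ^ 2) < r ^ 2 * (R ^ 2 + δ ^ 2) :=
        mul_lt_mul_of_pos_right h1 (by positivity)
      nlinarith
    rw [ddc_fs a δ R c hδ f hf _ hmem]
    have hd : HasFDerivAt (fun z : E2 n => gf a δ z • z) _ z :=
      (gf_hasFDerivAt a δ z hqz).smul (hasFDerivAt_id z)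
    rw [hd.fderiv]
    have hv : ∀ x : E2 n, (gf a δ z • ContinuousLinearMap.id ℝ ((Fin n → ℝ) × (Fin n → ℝ)) +
        ((gf a δ z / (4 * a - nsq z)) • ip z).smulRight z) x =
        gf a δ z • (x + (ip z x / (4 * a - nsq z)) • z) := by
      intro x
      show gf a δ z • x + ((gf a δ z / (4 * a - nsq z)) * ip z x) • z = _
      rw [smul_add, smul_smul]
      congr 2
      ring
    rw [hv, hv]
    have hg2 := gf_sq a δ z hqz
    have hgp := gf_pos a δ hδ z hqz
    set g := gf a δ z with hg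
    set q := 4 * a - nsq z with hqd
    have hns : nsq z = 4 * a - q := by rw [hqd]; ring
    have hipz : ip z z = 4 * a - q := by rw [← nsq_eq, hns]
    have hs : nsq (g • z) + δ ^ 2 = 4 * a * g ^ 2 := by
      rw [nsq_smul, hg2, hns]
      field_simp
      ring
    rw [hs]
    simp only [std_smul_left, std_smul_right, std_add_left, std_add_right, std_self, map_smul,
      map_add, smul_eq_mul, hipz, ContinuousLinearMap.smul_apply]
    rw [std_anti z v]
    have ha' := ha.ne'
    have hg' := hgp.ne'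
    have hq' := hqz.ne'
    field_simp
    ring

end Pool.Agent.H343.SV
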