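import Pool.Agent.H269.SV.Stm

/-!
# Project SV (helper269), job CHAIN
-/

set_option autoImplicit false

open Pool.Agent.H269.SV
open H712MA (E2)
open Pool.Agent.Y52.SJ (std)
open scoped Matrix

namespace Pool.Agent.H601.SV

variable {n : ℕ}

theorem std_eq (u v : E2 n) : std u v = u.1 ⬝ᵥ v.2 - u.2 ⬝ᵥ v.1 := by
  unfold std dotProduct
  rw [Finset.sum_sub_distrib]

/-- chains from `0` -/
inductive Reach (h : E2 n → ℝ) : (Fin n → ℝ) → ℝ → Prop
  | zero : Reach h 0 0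
  | step {y : Fin n → ℝ} {c : ℝ} (y' ξ : Fin n → ℝ) (hc : Reach h y c) (hy' : y' ∈ Sh h)
      (hl : h (ξ, y' - y) ≤ 1) :
      Reach h y' (c + (7 / 4 * h (ξ, y' - y) + ξ ⬝ᵥ ((1 / 2 : ℝ) • (y + y'))))

theorem h_zero {h : E2 n → ℝ} (hh : SN n h) : h 0 = 0 := by
  have := hh.smul 0 0
  rw [zero_smul, abs_zero, zero_mul] at this
  exact this

theorem sh_smul {h : E2 n → ℝ} (hh : SN n h) {y : Fin n → ℝ} (hy : y ∈ Sh h) {t : ℝ}
    (ht : |t| ≤ 1) : t • y ∈ Sh h := by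
  obtain ⟨x, hx⟩ := hy
  refine ⟨t • x, ?_⟩
  have h1 : ((t • x, t • y) : E2 n) = t • ((x, y) : E2 n) := rfl
  rw [h1, hh.smul]
  have h2 := hh.nonneg (x, y)
  have h3 := abs_nonneg t
  nlinarith

/-- the invariant -/
theorem invariant {h : E2 n → ℝ} (hh : SN n h) {y : Fin n → ℝ} {c : ℝ} (hr : Reach h y c) :
    ∃ (X : Fin n → ℝ) (l : ℝ), 0 ≤ l ∧ l ≤ 1 ∧ h (X, y) ≤ 1 + l ∧
      1 / 2 * (X ⬝ᵥ y) + 5 / 4 * l - 1 / 4 * l ^ 2 ≤ c := by
  induction hr with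
  | zero =>
    refine ⟨0, 0, le_rfl, by norm_num, ?_, by simp⟩
    have h1 : ((0, 0) : E2 n) = 0 := rfl
    rw [h1, h_zero hh]
    norm_num
  | @step y c y' ξ hc hy' hl ih =>
    obtain ⟨X, l, hl0, hl1, hX, hcost⟩ := ih
    set lam := h (ξ, y' - y) with hlam
    have hlam0 : 0 ≤ lam := hh.nonneg _
    -- the new vector
    have hadd : h (X + ξ, y') ≤ 1 + (l + lam) := by
      have h1 : ((X + ξ, y') : E2 n) = (X, y) + (ξ, y' - y) := by
        ext i <;> simp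
      rw [h1]
      have := hh.add (X, y) (ξ, y' - y)
      linarith
    have hstd : (X ⬝ᵥ y') - (y ⬝ᵥ (X + ξ)) ≤ (1 + l) * lam := by
      have h1 := hh.std_le (X, y) (ξ, y' - y)
      rw [std_eq] at h1
      have h2 := (abs_le.1 h1).2
      simp only [dotProduct_sub, dotProduct_add] at h2 ⊢
      have h3 : y ⬝ᵥ X = X ⬝ᵥ y := dotProduct_comm _ _
      have h4 : h (X, y) * lam ≤ (1 + l) * lam := mul_le_mul_of_nonneg_right hX hlam0
      linarith
    have hid : 1 / 2 * (X ⬝ᵥ y) + ξ ⬝ᵥ ((1 / 2 : ℝ) • (y + y')) =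
        1 / 2 * ((X + ξ) ⬝ᵥ y') - 1 / 2 * ((X ⬝ᵥ y') - (y ⬝ᵥ (X + ξ))) := by
      simp only [dotProduct_smul, dotProduct_add, add_dotProduct, smul_eq_mul]
      have h3 : y ⬝ᵥ X = X ⬝ᵥ y := dotProduct_comm _ _
      have h4 : y ⬝ᵥ ξ = ξ ⬝ᵥ y := dotProduct_comm _ _
      rw [h3, h4]
      ring
    have hnew : 1 / 2 * ((X + ξ) ⬝ᵥ y') + 5 / 4 * (l + lam) - 1 / 4 * (l + lam) ^ 2 ≤
        c + (7 / 4 * lam + ξ ⬝ᵥ ((1 / 2 : ℝ) • (y + y'))) := by
      nlinarith [sq_nonneg lam]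
    by_cases hcase : l + lam ≤ 1
    · exact ⟨X + ξ, l + lam, by linarith, hcase, hadd, hnew⟩
    · push Not at hcase
      obtain ⟨x, hx⟩ := hy'
      refine ⟨x, 0, le_rfl, by norm_num, by linarith, ?_⟩
      have h1 := hh.std_le (X + ξ, y') (x, y')
      rw [std_eq] at h1
      have h2 := (abs_le.1 h1).1
      simp only at h2
      have h3 : y' ⬝ᵥ x = x ⬝ᵥ y' := dotProduct_comm _ _
      rw [h3] at h2
      have h4 : h (X + ξ, y') * h (x, y') ≤ 1 + (l + lam) := by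
        have := hh.nonneg (X + ξ, y')
        have := hh.nonneg (x, y')
        nlinarith
      have h5 : 0 ≤ (l + lam - 1) * (2 - (l + lam)) :=
        mul_nonneg (by linarith) (by linarith)
      nlinarith

theorem lower {h : E2 n → ℝ} (hh : SN n h) {y : Fin n → ℝ} (hy : y ∈ Sh h) :
    ∃ B : ℝ, ∀ c, Reach h y c → B ≤ c := by
  obtain ⟨x, hx⟩ := hy
  refine ⟨1 / 2 * (x ⬝ᵥ y) - 1, fun c hc => ?_⟩
  obtain ⟨X, l, hl0, hl1, hX, hcost⟩ := invariant hh hc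
  have h1 := hh.std_le (X, y) (x, y)
  rw [std_eq] at h1
  have h2 := (abs_le.1 h1).1
  simp only at h2
  have h3 : y ⬝ᵥ x = x ⬝ᵥ y := dotProduct_comm _ _
  rw [h3] at h2
  have h4 : h (X, y) * h (x, y) ≤ 1 + l := by
    have := hh.nonneg (X, y)
    have := hh.nonneg (x, y)
    nlinarith
  nlinarith

theorem reach_exists {h : E2 n → ℝ} (hh : SN n h) {y : Fin n → ℝ} (hy : y ∈ Sh h) :
    ∃ c, Reach h y c := by
  obtain ⟨N, hN⟩ := exists_nat_gt (h (0, y))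
  have hN0 : 0 < N := by
    have := hh.nonneg (0, y)
    have h1 : (0 : ℝ) < N := lt_of_le_of_lt this hN
    exact_mod_cast h1
  have hNr : (0 : ℝ) < N := by exact_mod_cast hN0
  have key : ∀ k : ℕ, k ≤ N → ∃ c, Reach h (((k : ℝ) / N) • y) c := by
    intro k
    induction k with
    | zero =>
      intro _
      refine ⟨0, ?_⟩
      have h1 : (((0 : ℕ) : ℝ) / N) • y = 0 := by simp
      rw [h1]
      exact Reach.zero
    | succ k ih =>
      intro hk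
      obtain ⟨c, hc⟩ := ih (by omega)
      refine ⟨_, Reach.step ((((k + 1 : ℕ) : ℝ) / N) • y) 0 hc ?_ ?_⟩
      · apply sh_smul hh hy
        rw [abs_of_nonneg (by positivity), div_le_one hNr]
        exact_mod_cast hk
      · have h1 : (((0 : Fin n → ℝ), (((k + 1 : ℕ) : ℝ) / N) • y - ((k : ℝ) / N) • y) : E2 n) =
            (1 / (N : ℝ)) • ((0, y) : E2 n) := by
          ext i
          · simp
          · simp only [Prod.smul_mk, Pi.sub_apply, Pi.smul_apply, smul_eq_mul]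
            push_cast
            ring
        rw [h1, hh.smul, abs_of_pos (by positivity), one_div, inv_mul_le_iff₀ hNr]
        linarith
  obtain ⟨c, hc⟩ := key N le_rfl
  rw [div_self hNr.ne', one_smul] at hc
  exact ⟨c, hc⟩

/-- the job CHAIN of project SV -/
theorem CHAIN : S_CHAIN := by
  intro n h hh
  refine ⟨fun y => sInf {c | Reach h y c}, ?_⟩
  intro y hy y' hy' ξ hl
  obtain ⟨B, hB⟩ := lower hh hy'
  have h1 : sInf {c | Reach h y' c} -
      (7 / 4 * h (ξ, y' - y) + ξ ⬝ᵥ ((1 / 2 : ℝ) • (y + y'))) ≤ sInf {c | Reach h y c} := by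
    apply le_csInf
    · obtain ⟨c, hc⟩ := reach_exists hh hy
      exact ⟨c, hc⟩
    · intro c hc
      have h2 : sInf {c | Reach h y' c} ≤
          c + (7 / 4 * h (ξ, y' - y) + ξ ⬝ᵥ ((1 / 2 : ℝ) • (y + y'))) :=
        csInf_le ⟨B, fun c hc => hB c hc⟩ (Reach.step y' ξ hc hy' hl)
      linarith
  show sInf {c | Reach h y' c} ≤ sInf {c | Reach h y c} + 7 / 4 * h (ξ, y' - y) +
    ξ ⬝ᵥ ((1 / 2 : ℝ) • (y + y'))
  linarith

end Pool.Agent.H601.SV
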