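import Pool.Agent.H269.SV.Stm
import Pool.Graph.R_seed8.Y52.SJ.Abs2
import Pool.Graph.R_seed8.Y540.SJ.Witt
import Pool.Graph.R_seed8.Y43.SJ.SQ
import Pool.Graph.R_seed8.Y550.SJ.Cap2

/-!
# Project SV (helper269), part CYL: two functionals bound the cylindrical capacity
-/

set_option autoImplicit false

namespace Pool.Agent.H282.SV

open Pool.Agent.Y52.SJ (std SympEmb ball cyl gromovWidth cylCapacity trf trf_apply om_L std_e std_f
  Conf isCS_JJ om)

theorem std_smul_right {n : ℕ} (c : ℝ) (u v : (Fin n → ℝ) × (Fin n → ℝ)) :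
    std u (c • v) = c * std u v := by
  unfold std
  rw [Finset.mul_sum]
  refine Finset.sum_congr rfl fun i _ => ?_
  simp
  ring

theorem std_swap {n : ℕ} (u v : (Fin n → ℝ) × (Fin n → ℝ)) : std u v = -std v u := by
  unfold std
  rw [← Finset.sum_neg_distrib]
  refine Finset.sum_congr rfl fun i _ => ?_
  ring

theorem std_smul_left {n : ℕ} (c : ℝ) (u v : (Fin n → ℝ) × (Fin n → ℝ)) :
    std (c • u) v = c * std u v := by
  rw [std_swap, std_smul_right, std_swap v u]
  ring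

theorem CYL : Pool.Agent.H269.SV.S_CYL := by
  intro n K v w ha hv hw
  set a := std v w with hadef
  set q := (Real.sqrt a)⁻¹ with hq
  have hq2 : q ^ 2 = a⁻¹ := by
    rw [hq, inv_pow, Real.sq_sqrt ha.le]
  let Lc := Pool.Agent.Y52.SJ.L (n + 1)
  let Jc := Pool.Agent.Y52.SJ.JJ (n + 1)
  have h1 : om Jc (Lc (q • v)) (Lc (q • w)) = 1 := by
    show om (Pool.Agent.Y52.SJ.JJ (n + 1)) (Pool.Agent.Y52.SJ.L (n + 1) (q • v))
      (Pool.Agent.Y52.SJ.L (n + 1) (q • w)) = 1
    rw [om_L, std_smul_left, std_smul_right, ← hadef, ← mul_assoc, ← sq, hq2]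
    exact inv_mul_cancel₀ ha.ne'
  have h2 : om Jc (Lc (Pi.single 0 1, 0)) (Lc (0, Pi.single 0 1)) = 1 := by
    show om (Pool.Agent.Y52.SJ.JJ (n + 1)) (Pool.Agent.Y52.SJ.L (n + 1) (Pi.single 0 1, 0))
      (Pool.Agent.Y52.SJ.L (n + 1) (0, Pi.single 0 1)) = 1
    rw [om_L, std_f]
    simp
  obtain ⟨ψ, hψ, hψv, hψw⟩ := Pool.Agent.Y540.SJ.main _ Jc (isCS_JJ _) _ _ _ _ h1 h2
  have hP : ∀ x y, std (trf (n + 1) ψ x) (trf (n + 1) ψ y) = std x y := by
    intro x y
    rw [← om_L, ← om_L x y]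
    have := hψ (Lc x) (Lc y)
    rw [one_mul] at this
    simpa [trf_apply] using this
  have hPv : trf (n + 1) ψ (q • v) = (Pi.single 0 1, 0) := by
    rw [trf_apply]
    show (Pool.Agent.Y52.SJ.L (n + 1)).symm (ψ (Lc (q • v))) = _
    rw [hψv]
    exact ContinuousLinearEquiv.symm_apply_apply _ _
  have hPw : trf (n + 1) ψ (q • w) = (0, Pi.single 0 1) := by
    rw [trf_apply]
    show (Pool.Agent.Y52.SJ.L (n + 1)).symm (ψ (Lc (q • w))) = _
    rw [hψw]
    exact ContinuousLinearEquiv.symm_apply_apply _ _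
  have hsq : ∀ t : ℝ, |t| ≤ 1 → (q * t) ^ 2 ≤ a⁻¹ := by
    intro t ht
    rw [mul_pow, hq2]
    have h3 : t ^ 2 ≤ 1 := by
      have := abs_le.1 ht
      nlinarith [this.1, this.2]
    have h4 : 0 < a⁻¹ := inv_pos.2 ha
    nlinarith
  have key := Pool.Agent.Y550.SJ.main Pool.Agent.Y43.SJ.SQ.main n K (trf (n + 1) ψ) 0 a⁻¹
    (inv_nonneg.2 ha.le) hP (by
      intro x hx
      rw [zero_add]
      have e1 : (trf (n + 1) ψ x).2 0 = q * std v x := by
        have := std_e (trf (n + 1) ψ x)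
        rw [← hPv, hP, std_smul_right, std_swap x v] at this
        linarith
      have e2 : (trf (n + 1) ψ x).1 0 = q * (-std w x) := by
        have := std_f (trf (n + 1) ψ x)
        rw [← hPw, hP, std_smul_right, std_swap x w] at this
        linarith
      rw [e1, e2]
      exact ⟨hsq _ (by rw [abs_neg]; exact hw x hx), hsq _ (hv x hx)⟩)
  rw [div_eq_mul_inv]
  exact key

end Pool.Agent.H282.SV
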