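import Pool.Agent.H269.SV.Stm

set_option autoImplicit false

open MeasureTheory Filter Topology Set
open scoped ContDiff Matrix

noncomputable section

namespace Pool.Agent.H399.SV

open H712MA (pk WW eta hd gg VV E2 Spans)
open Pool.Agent.H269.SV

/-- `pk v` as a continuous linear map -/
def pkL {n : ℕ} (v : Fin n → ℝ) : E2 n →L[ℝ] ℂ :=
  LinearMap.toContinuousLinearMap
    { toFun := fun z => pk v z
      map_add' := by
        intro x y
        apply Complex.ext <;> simp [pk, dotProduct_add]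
      map_smul' := by
        intro c x
        apply Complex.ext <;> simp [pk, dotProduct_smul] }

theorem pkL_apply {n : ℕ} (v : Fin n → ℝ) (z : E2 n) : pkL v z = pk v z := rfl

theorem pkL_JJ {n : ℕ} (v : Fin n → ℝ) (z : E2 n) :
    pkL v (JJ n z) = Complex.I * pkL v z := by
  apply Complex.ext <;> simp [pkL_apply, pk]

theorem bil {B : ℂ →L[ℝ] ℂ →L[ℝ] ℝ} (hs : ∀ x y, B x y = B y x) (x y : ℂ) :
    B y (Complex.I * x) - B x (Complex.I * y) =
      (B 1 1 + B Complex.I Complex.I) * (x.re * y.im - x.im * y.re) := by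
  have key : ∀ a b : ℂ, B a b = a.re * b.re * B 1 1 + a.re * b.im * B 1 Complex.I +
      a.im * b.re * B Complex.I 1 + a.im * b.im * B Complex.I Complex.I := by
    intro a b
    have ha : a = a.re • (1 : ℂ) + a.im • Complex.I := by
      apply Complex.ext <;> simp
    have hb : b = b.re • (1 : ℂ) + b.im • Complex.I := by
      apply Complex.ext <;> simp
    conv_lhs => rw [ha, hb]
    simp only [map_add, map_smul, add_apply, smul_apply, smul_eq_mul]
    ring
  rw [key y (Complex.I * x), key x (Complex.I * y)]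
  rw [hs Complex.I 1]
  simp only [Complex.mul_re, Complex.mul_im, Complex.I_re, Complex.I_im]
  ring

theorem DSUM : S_DSUM := by
  intro n ι _ l U p hU hp z hz u v
  have hfd : ∀ y : E2 n, (∀ k, pk (l k) y ∈ U) →
      fderiv ℝ (fun z => ∑ k, p (pk (l k) z)) y = ∑ k, (fderiv ℝ p (pk (l k) y)).comp (pkL (l k)) := by
    intro y hy
    apply HasFDerivAt.fderiv
    apply HasFDerivAt.fun_sum
    intro k _
    have h1 : HasFDerivAt p (fderiv ℝ p (pk (l k) y)) (pk (l k) y) := by
      apply DifferentiableAt.hasFDerivAt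
      exact (hp.contDiffAt (hU.mem_nhds (hy k))).differentiableAt (by simp)
    exact h1.comp y (pkL (l k)).hasFDerivAt
  have hopen : ∀ᶠ y in 𝓝 z, ∀ k, pk (l k) y ∈ U := by
    rw [eventually_all]
    intro k
    exact (pkL (l k)).continuous.continuousAt.preimage_mem_nhds (hU.mem_nhds (hz k))
  have hev : fderiv ℝ (fun z => ∑ k, p (pk (l k) z)) =ᶠ[𝓝 z]
      fun y => ∑ k, (fderiv ℝ p (pk (l k) y)).comp (pkL (l k)) := by
    filter_upwards [hopen] with y hy
    exact hfd y hy
  have h2 : fderiv ℝ (fderiv ℝ (fun z => ∑ k, p (pk (l k) z))) z =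
      ∑ k, (((ContinuousLinearMap.compL ℝ (E2 n) ℂ ℝ).flip (pkL (l k))).comp
        ((fderiv ℝ (fderiv ℝ p) (pk (l k) z)).comp (pkL (l k)))) := by
    rw [hev.fderiv_eq]
    apply HasFDerivAt.fderiv
    apply HasFDerivAt.fun_sum
    intro k _
    have hd2 : ContDiffAt ℝ ∞ (fderiv ℝ p) (pk (l k) z) :=
      (hp.contDiffAt (hU.mem_nhds (hz k))).fderiv_right (by simp)
    have h1 : HasFDerivAt (fderiv ℝ p) (fderiv ℝ (fderiv ℝ p) (pk (l k) z)) (pk (l k) z) := by
      apply DifferentiableAt.hasFDerivAt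
      exact hd2.differentiableAt (by simp)
    have h3 := h1.comp z (pkL (l k)).hasFDerivAt
    exact ((ContinuousLinearMap.compL ℝ (E2 n) ℂ ℝ).flip (pkL (l k))).hasFDerivAt.comp z h3
  unfold ddc
  rw [h2]
  simp only [sum_apply, ContinuousLinearMap.comp_apply,
    ContinuousLinearMap.flip_apply, ContinuousLinearMap.compL_apply]
  rw [← Finset.sum_sub_distrib]
  apply Finset.sum_congr rfl
  intro k _
  rw [pkL_JJ, pkL_JJ]
  have hsym : IsSymmSndFDerivAt ℝ p (pk (l k) z) := by
    apply (hp.contDiffAt (hU.mem_nhds (hz k))).isSymmSndFDerivAt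
    simp only [minSmoothness_of_isRCLikeNormedField]
    exact WithTop.coe_le_coe.2 le_top
  rw [bil (fun x y => hsym.eq x y)]
  simp only [lap, pkL_apply, pk]

end Pool.Agent.H399.SV
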