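import Pool.Agent.H269.SV.Stm

/-! Project SV of helper269, job EST. -/

set_option autoImplicit false

open Filter Topology Set

namespace Pool.Agent.H264.SV

namespace ESTaux

theorem cosh_sub_one_le {x : ℝ} (hx : 0 ≤ x) : Real.cosh x - 1 ≤ x * Real.sinh x := by
  have hd : ∀ y : ℝ, HasDerivAt (fun y => y * Real.sinh y - Real.cosh y) (y * Real.cosh y) y := by
    intro y
    have := ((hasDerivAt_id y).mul (Real.hasDerivAt_sinh y)).sub (Real.hasDerivAt_cosh y)
    refine this.congr_deriv ?_
    simp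
  have hm : MonotoneOn (fun y => y * Real.sinh y - Real.cosh y) (Ici 0) := by
    refine monotoneOn_of_deriv_nonneg (convex_Ici 0) (fun y _ => (hd y).continuousAt.continuousWithinAt)
      (fun y _ => (hd y).differentiableAt.differentiableWithinAt) ?_
    intro y hy
    rw [interior_Ici] at hy
    rw [(hd y).deriv]
    exact mul_nonneg (le_of_lt hy) (Real.cosh_pos y).le
  have := hm (Set.mem_Ici.2 le_rfl) (Set.mem_Ici.2 hx) hx
  simp at this
  linarith

theorem one_sub_cos_le {a : ℝ} (h0 : 0 ≤ a) (h1 : a ≤ Real.pi / 2) :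
    1 - Real.cos a ≤ a * Real.sin a := by
  have e1 : 1 - Real.cos a = 2 * Real.sin (a / 2) ^ 2 := by
    have h2 : Real.cos a = 2 * Real.cos (a / 2) ^ 2 - 1 := by
      rw [← Real.cos_two_mul]; congr 1; ring
    have := Real.sin_sq_add_cos_sq (a / 2)
    linarith
  have e2 : Real.sin a = 2 * Real.sin (a / 2) * Real.cos (a / 2) := by
    rw [← Real.sin_two_mul]; congr 1; ring
  have hs : 0 ≤ Real.sin (a / 2) :=
    Real.sin_nonneg_of_nonneg_of_le_pi (by linarith) (by linarith [Real.pi_pos])
  have hs2 : Real.sin (a / 2) ≤ a / 2 := Real.sin_le (by linarith)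
  have hc : 1 / 2 ≤ Real.cos (a / 2) := by
    rw [← Real.cos_pi_div_three]
    exact Real.cos_le_cos_of_nonneg_of_le_pi (by linarith) (by linarith [Real.pi_pos])
      (by linarith [Real.pi_pos])
  have h3 : Real.sin (a / 2) ≤ a * Real.cos (a / 2) := by
    have : a * (1 / 2) ≤ a * Real.cos (a / 2) := mul_le_mul_of_nonneg_left hc h0
    linarith
  rw [e1, e2]
  have h4 := mul_le_mul_of_nonneg_left h3 hs
  nlinarith

theorem sinh_ge {x : ℝ} (hx : 1 ≤ x) : Real.cosh x / 2 ≤ Real.sinh x := by
  rw [Real.cosh_eq, Real.sinh_eq]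
  have h1 : x + 1 ≤ Real.exp x := Real.add_one_le_exp x
  have h2 : Real.exp (-x) ≤ 1 / 2 := by
    rw [Real.exp_neg]
    rw [inv_le_comm₀ (Real.exp_pos x) (by norm_num)]
    norm_num
    linarith
  linarith

theorem pos_case (ε : ℝ) (hε : 0 < ε) (η : ℝ) (hη : 0 < η) : ∃ M : ℕ, ∀ m : ℕ, M ≤ m →
    ∀ L α : ℝ, 0 ≤ L → 0 ≤ α → α ≤ Real.pi / 2 / (1 + ε) →
    m * ((Real.cosh L - Real.cos α) / (Real.cosh L + Real.cos α)) ^ m ≤
      η * (L * Real.sinh L * Real.cos α + α * Real.sin α * Real.cosh L) := by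
  set A : ℝ := Real.pi / 2 / (1 + ε)
  have hpi := Real.pi_pos
  have hA0 : 0 ≤ A := by positivity
  have hA1 : A < Real.pi / 2 := by
    rw [div_lt_iff₀ (by linarith)]
    nlinarith
  set c : ℝ := Real.cos A
  have hc0 : 0 < c := Real.cos_pos_of_mem_Ioo ⟨by linarith, hA1⟩
  have hc1 : c ≤ 1 := Real.cos_le_one _
  set Λ : ℝ := max 1 (2 / (η * c ^ 2))
  have hΛ1 : 1 ≤ Λ := le_max_left _ _
  have hΛ2 : 2 / (η * c ^ 2) ≤ Λ := le_max_right _ _
  set θ : ℝ := 1 - 2 * c / (Real.cosh Λ + 1)
  have hch : 1 ≤ Real.cosh Λ := Real.one_le_cosh Λ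
  have hθ1 : θ < 1 := by
    have : 0 < 2 * c / (Real.cosh Λ + 1) := by positivity
    linarith
  have hθ0 : 0 ≤ θ := by
    have : 2 * c / (Real.cosh Λ + 1) ≤ 1 := by
      rw [div_le_one (by positivity)]; linarith
    linarith
  have hlim : Tendsto (fun k : ℕ => (k : ℝ) * θ ^ k + θ ^ k) atTop (𝓝 0) := by
    have := (tendsto_self_mul_const_pow_of_lt_one hθ0 hθ1).add
      (tendsto_pow_atTop_nhds_zero_of_lt_one hθ0 hθ1)
    rwa [add_zero] at this
  obtain ⟨M, hM⟩ := eventually_atTop.1 (hlim.eventually (gt_mem_nhds (show 0 < η * c by positivity)))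
  refine ⟨M + 1, fun m hm L α hL hα hα' => ?_⟩
  have hcos : c ≤ Real.cos α := Real.cos_le_cos_of_nonneg_of_le_pi hα (by linarith) hα'
  have hcos0 : 0 < Real.cos α := hc0.trans_le hcos
  have hcos1 : Real.cos α ≤ 1 := Real.cos_le_one _
  have hsin : 0 ≤ Real.sin α := Real.sin_nonneg_of_nonneg_of_le_pi hα (by linarith)
  have hchL : 1 ≤ Real.cosh L := Real.one_le_cosh L
  have hshL : 0 ≤ Real.sinh L := Real.sinh_nonneg_iff.2 hL
  set D : ℝ := L * Real.sinh L * Real.cos α + α * Real.sin α * Real.cosh L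
  have hLs : 0 ≤ L * Real.sinh L := mul_nonneg hL hshL
  have has : 0 ≤ α * Real.sin α := mul_nonneg hα hsin
  have hD0 : 0 ≤ D := by positivity
  set T : ℝ := (Real.cosh L - Real.cos α) / (Real.cosh L + Real.cos α)
  have hden : 0 < Real.cosh L + Real.cos α := by positivity
  have hT0 : 0 ≤ T := div_nonneg (by linarith) hden.le
  have hT : T = 1 - 2 * Real.cos α / (Real.cosh L + Real.cos α) := by
    simp only [T]
    field_simp
    ring
  have hcD : c * (Real.cosh L - Real.cos α) ≤ D := by
    have h1 := cosh_sub_one_le hL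
    have h2 := one_sub_cos_le hα (by linarith)
    have h3 : c * (L * Real.sinh L) ≤ L * Real.sinh L * Real.cos α := by
      rw [mul_comm c]; exact mul_le_mul_of_nonneg_left hcos hLs
    have h4 : c * (α * Real.sin α) ≤ α * Real.sin α * Real.cosh L := by
      rw [mul_comm c]; exact mul_le_mul_of_nonneg_left (by linarith) has
    have h5 : c * (Real.cosh L - Real.cos α) ≤ c * (L * Real.sinh L + α * Real.sin α) :=
      mul_le_mul_of_nonneg_left (by linarith) hc0.le
    simp only [D]
    linarith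
  rcases le_total L Λ with hLΛ | hLΛ
  · -- bounded case
    have hTθ : T ≤ θ := by
      rw [hT]
      have h1 : Real.cosh L ≤ Real.cosh Λ := by
        rw [Real.cosh_le_cosh, abs_of_nonneg hL, abs_of_nonneg (by linarith)]; exact hLΛ
      have h2 : 2 * c / (Real.cosh Λ + 1) ≤ 2 * Real.cos α / (Real.cosh L + Real.cos α) :=
        div_le_div₀ (by positivity) (by linarith) hden (by linarith)
      simp only [θ]
      linarith
    obtain ⟨k, rfl⟩ : ∃ k, m = k + 1 := ⟨m - 1, by omega⟩
    have hk := hM k (by omega)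
    have hTle : T ≤ Real.cosh L - Real.cos α :=
      div_le_self (by linarith) (by linarith)
    calc ((k + 1 : ℕ) : ℝ) * T ^ (k + 1) = ((k : ℝ) + 1) * T ^ k * T := by push_cast; ring
      _ ≤ ((k : ℝ) + 1) * θ ^ k * (Real.cosh L - Real.cos α) := by
          refine mul_le_mul (mul_le_mul_of_nonneg_left (pow_le_pow_left₀ hT0 hTθ k) (by positivity))
            hTle hT0 (by positivity)
      _ ≤ (η * c) * (Real.cosh L - Real.cos α) :=
          mul_le_mul_of_nonneg_right (by linarith) (by linarith)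
      _ = η * (c * (Real.cosh L - Real.cos α)) := by ring
      _ ≤ η * D := mul_le_mul_of_nonneg_left hcD hη.le
  · -- large L
    have hch0 : 0 < Real.cosh L := by linarith
    have hTe : T ≤ Real.exp (-(c / Real.cosh L)) := by
      have h1 : c / Real.cosh L ≤ 2 * Real.cos α / (Real.cosh L + Real.cos α) := by
        rw [div_le_div_iff₀ hch0 hden]
        have h2 : c * (Real.cosh L + Real.cos α) ≤ Real.cos α * (Real.cosh L + Real.cos α) :=
          mul_le_mul_of_nonneg_right hcos hden.le
        have h3 : Real.cos α * (Real.cosh L + Real.cos α) ≤ Real.cos α * (2 * Real.cosh L) :=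
          mul_le_mul_of_nonneg_left (by linarith) hcos0.le
        linarith
      have h4 := Real.add_one_le_exp (-(c / Real.cosh L))
      rw [hT]
      linarith
    have h5 : T ^ m ≤ Real.exp (-(c / Real.cosh L) * m) := by
      calc T ^ m ≤ Real.exp (-(c / Real.cosh L)) ^ m := pow_le_pow_left₀ hT0 hTe m
        _ = Real.exp (-(c / Real.cosh L) * m) := by
            rw [← Real.exp_nat_mul]; congr 1; ring
    set x : ℝ := c / Real.cosh L * m
    have hx : x * Real.exp (-x) ≤ 1 := by
      have h6 := Real.add_one_le_exp x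
      have h7 : 0 < Real.exp (-x) := Real.exp_pos _
      calc x * Real.exp (-x) ≤ Real.exp x * Real.exp (-x) :=
            mul_le_mul_of_nonneg_right (by linarith) h7.le
        _ = 1 := by rw [← Real.exp_add]; simp
    have h8 : (m : ℝ) * T ^ m ≤ Real.cosh L / c := by
      calc (m : ℝ) * T ^ m ≤ m * Real.exp (-(c / Real.cosh L) * m) :=
            mul_le_mul_of_nonneg_left h5 (Nat.cast_nonneg m)
        _ = Real.cosh L / c * (x * Real.exp (-x)) := by
            have e : -(c / Real.cosh L) * m = -x := by simp only [x]; ring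
            rw [e]
            simp only [x]
            field_simp
        _ ≤ Real.cosh L / c * 1 := mul_le_mul_of_nonneg_left hx (by positivity)
        _ = Real.cosh L / c := mul_one _
    have h9 : Λ * (Real.cosh L / 2) * c ≤ D := by
      have h10 := sinh_ge (hΛ1.trans hLΛ)
      have h11 : Λ * (Real.cosh L / 2) ≤ L * Real.sinh L :=
        mul_le_mul hLΛ h10 (by positivity) hL
      have h12 : Λ * (Real.cosh L / 2) * c ≤ L * Real.sinh L * Real.cos α :=
        mul_le_mul h11 hcos hc0.le hLs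
      have h13 : 0 ≤ α * Real.sin α * Real.cosh L := by positivity
      simp only [D]
      linarith
    have h14 : Real.cosh L / c ≤ η * (Λ * (Real.cosh L / 2) * c) := by
      have h15 : 2 ≤ Λ * (η * c ^ 2) := by
        rwa [div_le_iff₀ (by positivity)] at hΛ2
      rw [div_le_iff₀ hc0]
      have h16 : 2 * (Real.cosh L / 2) ≤ Λ * (η * c ^ 2) * (Real.cosh L / 2) :=
        mul_le_mul_of_nonneg_right h15 (by positivity)
      calc Real.cosh L = 2 * (Real.cosh L / 2) := by ring
        _ ≤ _ := h16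
        _ = η * (Λ * (Real.cosh L / 2) * c) * c := by ring
    exact h8.trans (h14.trans (mul_le_mul_of_nonneg_left h9 hη.le))

end ESTaux

theorem EST : Pool.Agent.H269.SV.S_EST := by
  intro ε hε η hη
  obtain ⟨M, hM⟩ := ESTaux.pos_case ε hε η hη
  refine ⟨M, fun m hm L α h0 h1 => ?_⟩
  rcases le_total 0 L with hL | hL
  · exact hM m hm L α hL h0 h1
  · have := hM m hm (-L) α (by linarith) h0 h1
    rw [Real.cosh_neg, Real.sinh_neg, neg_mul_neg] at this
    exact this

end Pool.Agent.H264.SV
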