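import Pool.Agent.H269.SV.Stm

set_option autoImplicit false

open MeasureTheory Filter Topology Set
open scoped ContDiff Matrix

noncomputable section

namespace Pool.Agent.H860.SV

open H712MA (pk WW eta hd gg VV E2 Spans)
open Pool.Agent.Y52.SJ (std SympEmb ball cyl gromovWidth cylCapacity)
open Pool.Agent.H269.SV

/-- the dot product as a continuous linear map -/
def dotL {n : ℕ} (v : Fin n → ℝ) : (Fin n → ℝ) →L[ℝ] ℝ :=
  LinearMap.toContinuousLinearMap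
    { toFun := fun x => v ⬝ᵥ x
      map_add' := fun x y => dotProduct_add v x y
      map_smul' := fun a x => by simp [dotProduct_smul] }

@[simp] theorem dotL_apply {n : ℕ} (v x : Fin n → ℝ) : dotL v x = v ⬝ᵥ x := rfl

/-- `pk v` as a continuous linear map -/
def pkL {n : ℕ} (v : Fin n → ℝ) : E2 n →L[ℝ] ℂ :=
  ((dotL v).comp (ContinuousLinearMap.fst ℝ (Fin n → ℝ) (Fin n → ℝ))).smulRight (1 : ℂ) +
  ((dotL v).comp (ContinuousLinearMap.snd ℝ (Fin n → ℝ) (Fin n → ℝ))).smulRight Complex.I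

theorem pkL_apply' {n : ℕ} (v : Fin n → ℝ) (z : E2 n) :
    pkL v z = (v ⬝ᵥ z.1) • (1 : ℂ) + (v ⬝ᵥ z.2) • Complex.I := rfl

theorem pkL_apply {n : ℕ} (v : Fin n → ℝ) (z : E2 n) : pkL v z = pk v z := by
  rw [pkL_apply']
  apply Complex.ext <;> simp [pk]

theorem pkL_eq {n : ℕ} (v : Fin n → ℝ) : (⇑(pkL v) : E2 n → ℂ) = pk v :=
  funext (pkL_apply v)

theorem mono_vert (U : Set ℂ) (c ρ : ℂ → ℝ) (hU : IsOpen U)
    (hst : ∀ x y y' : ℝ, (⟨x, y⟩ : ℂ) ∈ U → |y'| ≤ |y| → (⟨x, y'⟩ : ℂ) ∈ U)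
    (hc : ContDiffOn ℝ ∞ c U) (hd : ∀ w ∈ U, fderiv ℝ c w Complex.I = ρ w)
    (hp : ∀ w ∈ U, 0 < ρ w) (x y y' : ℝ) (h1 : (⟨x, y⟩ : ℂ) ∈ U) (h2 : (⟨x, y'⟩ : ℂ) ∈ U)
    (hlt : y < y') : c ⟨x, y⟩ < c ⟨x, y'⟩ := by
  have hseg : ∀ t ∈ Icc y y', (⟨x, t⟩ : ℂ) ∈ U := by
    intro t ht
    by_cases h0 : |t| ≤ |y|
    · exact hst x y t h1 h0
    · refine hst x y' t h2 ?_
      push Not at h0
      rcases le_or_gt 0 t with h | h
      · rw [abs_of_nonneg h, abs_of_nonneg (h.trans ht.2)]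
        exact ht.2
      · exfalso
        rw [abs_of_neg h, abs_of_nonpos (ht.1.trans h.le)] at h0
        linarith [ht.1]
  have hder : ∀ t ∈ Icc y y', HasDerivAt (fun t : ℝ => c ⟨x, t⟩) (ρ ⟨x, t⟩) t := by
    intro t ht
    have hm := hseg t ht
    have hcd : HasFDerivAt c (fderiv ℝ c ⟨x, t⟩) ⟨x, t⟩ :=
      ((hc.contDiffAt (hU.mem_nhds hm)).differentiableAt (by simp)).hasFDerivAt
    have hin : HasDerivAt (fun t : ℝ => (⟨x, t⟩ : ℂ)) Complex.I t := by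
      have h3 : (fun t : ℝ => (⟨x, t⟩ : ℂ)) = fun t : ℝ => (x : ℂ) + (t : ℂ) * Complex.I := by
        funext t
        apply Complex.ext <;> simp
      rw [h3]
      have h4 : HasDerivAt (fun t : ℝ => ((t : ℝ) : ℂ)) 1 t := Complex.ofRealCLM.hasDerivAt
      have h5 := (h4.mul_const Complex.I).const_add (x : ℂ)
      rwa [one_mul] at h5
    have := hcd.comp_hasDerivAt t hin
    rwa [hd _ hm] at this
  have hmono : StrictMonoOn (fun t : ℝ => c ⟨x, t⟩) (Icc y y') := by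
    refine strictMonoOn_of_deriv_pos (convex_Icc y y')
      (fun t ht => (hder t ht).continuousAt.continuousWithinAt) ?_
    intro t ht
    rw [interior_Icc] at ht
    rw [(hder t (Ioo_subset_Icc_self ht)).deriv]
    exact hp _ (hseg t (Ioo_subset_Icc_self ht))
  exact hmono (left_mem_Icc.2 hlt.le) (right_mem_Icc.2 hlt.le) hlt

theorem FMAP : S_FMAP := by
  intro n ι _ l hl U c ρ hU hst hc hder hpos V F
  have hVopen : IsOpen V := by
    have : V = ⋂ k, (pkL (l k)) ⁻¹' U := by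
      ext z
      simp only [V, mem_ofPred_eq, mem_iInter, mem_preimage, pkL_apply]
    rw [this]
    exact isOpen_iInter_of_finite fun k => hU.preimage (pkL (l k)).continuous
  refine ⟨?_, ?_, ?_⟩
  · refine ContDiffOn.prodMk contDiff_fst.contDiffOn ?_
    refine ContDiffOn.sum fun k _ => ?_
    have h1 : ContDiffOn ℝ ∞ (fun z : E2 n => c (pkL (l k) z)) V := by
      refine hc.comp (pkL (l k)).contDiff.contDiffOn ?_
      intro z hz
      rw [pkL_apply]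
      exact hz k
    have h2 : ContDiffOn ℝ ∞ (fun z : E2 n => c (pk (l k) z)) V := by
      simpa only [pkL_apply] using h1
    exact h2.smul contDiffOn_const
  · intro z hz z' hz' heq
    have e0 : F z = F z' := heq
    have e1 : z.1 = z'.1 := (Prod.ext_iff.1 e0).1
    have e2 : ∑ k, c (pk (l k) z) • l k = ∑ k, c (pk (l k) z') • l k :=
      (Prod.ext_iff.1 e0).2
    have hterm : ∀ k, 0 ≤ (c (pk (l k) z) - c (pk (l k) z')) * (l k ⬝ᵥ z.2 - l k ⬝ᵥ z'.2) ∧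
        ((c (pk (l k) z) - c (pk (l k) z')) * (l k ⬝ᵥ z.2 - l k ⬝ᵥ z'.2) = 0 →
          l k ⬝ᵥ z.2 = l k ⬝ᵥ z'.2) := by
      intro k
      have hk : (⟨l k ⬝ᵥ z.1, l k ⬝ᵥ z.2⟩ : ℂ) ∈ U := hz k
      have hk' : (⟨l k ⬝ᵥ z.1, l k ⬝ᵥ z'.2⟩ : ℂ) ∈ U := by
        rw [e1]
        exact hz' k
      have hpk : pk (l k) z' = ⟨l k ⬝ᵥ z.1, l k ⬝ᵥ z'.2⟩ := by
        unfold pk
        rw [e1]
      rw [hpk]
      change 0 ≤ (c ⟨l k ⬝ᵥ z.1, l k ⬝ᵥ z.2⟩ - _) * _ ∧
        ((c ⟨l k ⬝ᵥ z.1, l k ⬝ᵥ z.2⟩ - _) * _ = 0 → _)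
      rcases lt_trichotomy (l k ⬝ᵥ z.2) (l k ⬝ᵥ z'.2) with h | h | h
      · have := mono_vert U c ρ hU hst hc hder hpos _ _ _ hk hk' h
        have h3 : 0 < (c ⟨l k ⬝ᵥ z.1, l k ⬝ᵥ z.2⟩ - c ⟨l k ⬝ᵥ z.1, l k ⬝ᵥ z'.2⟩) *
            (l k ⬝ᵥ z.2 - l k ⬝ᵥ z'.2) :=
          mul_pos_of_neg_of_neg (sub_neg.2 this) (sub_neg.2 h)
        exact ⟨h3.le, fun h0 => absurd h0 h3.ne'⟩
      · exact ⟨by rw [h]; simp, fun _ => h⟩
      · have := mono_vert U c ρ hU hst hc hder hpos _ _ _ hk' hk h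
        have h3 : 0 < (c ⟨l k ⬝ᵥ z.1, l k ⬝ᵥ z.2⟩ - c ⟨l k ⬝ᵥ z.1, l k ⬝ᵥ z'.2⟩) *
            (l k ⬝ᵥ z.2 - l k ⬝ᵥ z'.2) :=
          mul_pos (sub_pos.2 this) (sub_pos.2 h)
        exact ⟨h3.le, fun h0 => absurd h0 h3.ne'⟩
    have hsum : ∑ k, (c (pk (l k) z) - c (pk (l k) z')) * (l k ⬝ᵥ z.2 - l k ⬝ᵥ z'.2) = 0 := by
      have h1 : (∑ k, (c (pk (l k) z) - c (pk (l k) z')) • l k) ⬝ᵥ (z.2 - z'.2) = 0 := by
        have : ∑ k, (c (pk (l k) z) - c (pk (l k) z')) • l k = 0 := by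
          simp_rw [sub_smul]
          rw [Finset.sum_sub_distrib, e2, sub_self]
        rw [this, zero_dotProduct]
      rw [← h1, sum_dotProduct]
      refine Finset.sum_congr rfl fun k _ => ?_
      rw [smul_dotProduct, dotProduct_sub, smul_eq_mul]
    have hall : ∀ k, l k ⬝ᵥ z.2 = l k ⬝ᵥ z'.2 := by
      intro k
      have := (Finset.sum_eq_zero_iff_of_nonneg fun k _ => (hterm k).1).1 hsum k (Finset.mem_univ k)
      exact (hterm k).2 this
    obtain ⟨f, hf⟩ := hl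
    have e3 : z.2 - z'.2 = 0 := by
      have hdet : (Matrix.of fun i j => l (f i) j : Matrix (Fin n) (Fin n) ℝ).det ≠ 0 := hf
      refine Matrix.eq_zero_of_mulVec_eq_zero hdet ?_
      funext i
      change (fun j => l (f i) j) ⬝ᵥ (z.2 - z'.2) = 0
      have := hall (f i)
      rw [dotProduct_sub]
      exact sub_eq_zero.2 this
    exact Prod.ext e1 (sub_eq_zero.1 e3)
  · intro z hz u v
    have hck : ∀ k, HasFDerivAt (fun z : E2 n => c (pk (l k) z))
        ((fderiv ℝ c (pk (l k) z)).comp (pkL (l k))) z := by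
      intro k
      have h1 : HasFDerivAt c (fderiv ℝ c (pk (l k) z)) (pkL (l k) z) := by
        rw [pkL_apply]
        exact ((hc.contDiffAt (hU.mem_nhds (hz k))).differentiableAt (by simp)).hasFDerivAt
      have h2 := h1.comp z (pkL (l k)).hasFDerivAt
      have h3 : (c ∘ (pkL (l k)) : E2 n → ℝ) = fun z : E2 n => c (pk (l k) z) := by
        funext y
        rw [Function.comp_apply, pkL_apply]
      rwa [h3] at h2
    have hF : HasFDerivAt F ((ContinuousLinearMap.fst ℝ (Fin n → ℝ) (Fin n → ℝ)).prod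
        (∑ k, ((fderiv ℝ c (pk (l k) z)).comp (pkL (l k))).smulRight (l k))) z := by
      refine HasFDerivAt.prodMk hasFDerivAt_fst ?_
      refine HasFDerivAt.fun_sum fun k _ => ?_
      exact (hck k).smul_const (l k)
    have hval : ∀ w : E2 n, fderiv ℝ F z w =
        (w.1, ∑ k, ((l k ⬝ᵥ w.1) * fderiv ℝ c (pk (l k) z) 1 +
          (l k ⬝ᵥ w.2) * ρ (pk (l k) z)) • l k) := by
      intro w
      rw [hF.fderiv]
      refine Prod.ext rfl ?_
      change (∑ k, ((fderiv ℝ c (pk (l k) z)).comp (pkL (l k))).smulRight (l k)) w = _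
      rw [sum_apply]
      refine Finset.sum_congr rfl fun k _ => ?_
      rw [ContinuousLinearMap.smulRight_apply, ContinuousLinearMap.comp_apply, pkL_apply',
        map_add, map_smul, map_smul, hder _ (hz k), smul_eq_mul, smul_eq_mul]
    rw [hval u, hval v]
    have hstd : ∀ (a b a' b' : Fin n → ℝ), std (a, b) (a', b') = a ⬝ᵥ b' - b ⬝ᵥ a' := by
      intro a b a' b'
      unfold std
      rw [Finset.sum_sub_distrib]
      rfl
    rw [hstd, dotProduct_sum, sum_dotProduct, ← Finset.sum_sub_distrib]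
    refine Finset.sum_congr rfl fun k _ => ?_
    rw [dotProduct_smul, smul_dotProduct, dotProduct_comm u.1 (l k), smul_eq_mul, smul_eq_mul]
    ring

end Pool.Agent.H860.SV
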