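import Mathlib
import Pool.Agent.H269.SV.Stm

/-!
# Project SV, task LAP: the Laplacian of `|g|²` for holomorphic `g`
-/

set_option autoImplicit false

open MeasureTheory Filter Topology Set
open scoped ContDiff Matrix ComplexConjugate

noncomputable section

namespace Pool.Agent.H199.SV

open Pool.Agent.H269.SV

/-- `c ↦ (v ↦ Re (c v))` -/
def Ph : ℂ →L[ℝ] (ℂ →L[ℝ] ℝ) :=
  (ContinuousLinearMap.compL ℝ ℂ ℂ ℝ Complex.reCLM).comp (ContinuousLinearMap.mul ℝ ℂ)

theorem Ph_apply (c v : ℂ) : Ph c v = (c * v).re := rfl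

theorem hd1 {g : ℂ → ℂ} {g' w : ℂ} (h : HasDerivAt g g' w) :
    HasFDerivAt (fun w => ‖g w‖ ^ 2) (Ph (2 * (conj (g w) * g'))) w := by
  have h1 : HasFDerivAt g ((ContinuousLinearMap.toSpanSingleton ℂ g').restrictScalars ℝ) w :=
    h.hasFDerivAt.restrictScalars ℝ
  have h2 := h1.norm_sq
  refine h2.congr_fderiv ?_
  ext v
  simp [Ph_apply, Complex.inner]
  ring

theorem hd2 {g : ℂ → ℂ} {g' w : ℂ} (h : HasDerivAt g g' w) {g'' : ℂ}
    (h' : HasDerivAt (deriv g) g'' w) :
    HasFDerivAt (fun w => 2 * (conj (g w) * deriv g w))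
      ((2 : ℂ) • ((conj (g w)) • ((ContinuousLinearMap.toSpanSingleton ℂ g'').restrictScalars ℝ) +
        (deriv g w) • ((Complex.conjCLE : ℂ →L[ℝ] ℂ).comp
          ((ContinuousLinearMap.toSpanSingleton ℂ g').restrictScalars ℝ)))) w := by
  have h1 : HasFDerivAt g ((ContinuousLinearMap.toSpanSingleton ℂ g').restrictScalars ℝ) w :=
    h.hasFDerivAt.restrictScalars ℝ
  have h2 : HasFDerivAt (deriv g)
      ((ContinuousLinearMap.toSpanSingleton ℂ g'').restrictScalars ℝ) w :=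
    h'.hasFDerivAt.restrictScalars ℝ
  have h3 : HasFDerivAt (fun w => conj (g w)) ((Complex.conjCLE : ℂ →L[ℝ] ℂ).comp
          ((ContinuousLinearMap.toSpanSingleton ℂ g').restrictScalars ℝ)) w :=
    (Complex.conjCLE : ℂ →L[ℝ] ℂ).hasFDerivAt.comp w h1
  exact (h3.mul h2).const_mul 2

theorem LAP : S_LAP := by
  intro U g hU hg
  refine ⟨?_, ?_⟩
  · have h1 : ContDiffOn ℂ ∞ g U := hg.contDiffOn hU
    exact (h1.restrict_scalars ℝ).norm_sq ℝ
  · intro w hw
    have hN : U ∈ 𝓝 w := hU.mem_nhds hw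
    have hd : ∀ z ∈ U, HasDerivAt g (deriv g z) z := fun z hz =>
      (hg.differentiableAt (hU.mem_nhds hz)).hasDerivAt
    have hg' : DifferentiableOn ℂ (deriv g) U := hg.deriv hU
    have hd' : HasDerivAt (deriv g) (deriv (deriv g) w) w :=
      (hg'.differentiableAt hN).hasDerivAt
    have h1 : fderiv ℝ (fun w => ‖g w‖ ^ 2) =ᶠ[𝓝 w]
        fun w => Ph (2 * (conj (g w) * deriv g w)) := by
      filter_upwards [hN] with z hz
      exact (hd1 (hd z hz)).fderiv
    have h2 := Ph.hasFDerivAt.comp w (hd2 (hd w hw) hd')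
    have h3 : fderiv ℝ (fderiv ℝ (fun w => ‖g w‖ ^ 2)) w = _ :=
      h1.fderiv_eq.trans h2.fderiv
    unfold lap
    rw [h3]
    simp only [ContinuousLinearMap.comp_apply, ContinuousLinearMap.smul_apply,
      ContinuousLinearMap.add_apply, ContinuousLinearMap.coe_restrictScalars',
      ContinuousLinearMap.toSpanSingleton_apply, Ph_apply, smul_eq_mul,
      ContinuousLinearEquiv.coe_coe, Complex.conjCLE_apply]
    rw [← Complex.normSq_eq_norm_sq, Complex.normSq_apply]
    simp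
    ring

end Pool.Agent.H199.SV
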