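import Pool.Agent.H269.SV.Stm
import Pool.Graph.R_pool_sql_team_seeded_63374d34.N520.HMoser

/-!
# The compactly supported Moser isotopy for Kähler potentials
-/

set_option autoImplicit false
set_option maxSynthPendingDepth 3

open MeasureTheory Filter Topology Set
open scoped ContDiff Matrix Manifold

noncomputable section

namespace Pool.Agent.H287.SV

open Pool.Agent.H269.SV
open H712MA (E2)
open Pool.Agent.N520.Had

/-- the primitive of `ddc f` -/
def lam {n : ℕ} (f : E2 n → ℝ) (z : E2 n) : E2 n →L[ℝ] ℝ := -((fderiv ℝ f z).comp (JJ n))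

theorem lam_apply {n : ℕ} (f : E2 n → ℝ) (z v : E2 n) : lam f z v = -(fderiv ℝ f z (JJ n v)) := rfl

theorem contDiff_lam {n : ℕ} {f : E2 n → ℝ} (hf : ContDiff ℝ ∞ f) : ContDiff ℝ ∞ (lam f) := by
  have h1 : ContDiff ℝ ∞ (fderiv ℝ f) := hf.fderiv_right (m := ∞) (by simp)
  exact (h1.clm_comp contDiff_const).neg

theorem dOne_lam {n : ℕ} {f : E2 n → ℝ} (hf : ContDiff ℝ ∞ f) (z u v : E2 n) :
    dOne (lam f) z u v = ddc f z u v := by
  have h1 : ContDiff ℝ ∞ (fderiv ℝ f) := hf.fderiv_right (m := ∞) (by simp)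
  have h2 : ∀ a b : E2 n, fderiv ℝ (lam f) z a b = -(fderiv ℝ (fderiv ℝ f) z a (JJ n b)) := by
    intro a b
    rw [← fderiv_app ((contDiff_lam hf).differentiable (by simp) z)]
    have h3 : HasFDerivAt (fun y => fderiv ℝ f y (JJ n b))
        ((fderiv ℝ (fderiv ℝ f) z).flip (JJ n b)) z := by
      have := (h1.differentiable (by simp) z).hasFDerivAt.clm_apply
        (hasFDerivAt_const (JJ n b) z)
      simpa using this
    have h4 : HasFDerivAt (fun y => lam f y b) (-((fderiv ℝ (fderiv ℝ f) z).flip (JJ n b))) z :=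
      h3.neg
    rw [h4.fderiv]
    rfl
  rw [dOne_apply, h2, h2, ddc]
  ring

theorem ddc_JJ {n : ℕ} (f : E2 n → ℝ) (z v : E2 n) : ddc f z v (JJ n v) = levi f z v := by
  have h1 : JJ n (JJ n v) = -v := by
    simp only [JJ_apply]
    rfl
  rw [ddc, levi, h1, map_neg]
  ring

/-- the standard form as a continuous bilinear map -/
def st (n : ℕ) : E2 n →L[ℝ] E2 n →L[ℝ] ℝ :=
  ∑ i, ((((ContinuousLinearMap.proj (R := ℝ) (φ := fun _ : Fin n => ℝ) i).comp
    (ContinuousLinearMap.fst ℝ (Fin n → ℝ) (Fin n → ℝ))).smulRight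
    ((ContinuousLinearMap.proj (R := ℝ) (φ := fun _ : Fin n => ℝ) i).comp
    (ContinuousLinearMap.snd ℝ (Fin n → ℝ) (Fin n → ℝ)))) -
    (((ContinuousLinearMap.proj (R := ℝ) (φ := fun _ : Fin n => ℝ) i).comp
    (ContinuousLinearMap.snd ℝ (Fin n → ℝ) (Fin n → ℝ))).smulRight
    ((ContinuousLinearMap.proj (R := ℝ) (φ := fun _ : Fin n => ℝ) i).comp
    (ContinuousLinearMap.fst ℝ (Fin n → ℝ) (Fin n → ℝ)))))

theorem st_apply {n : ℕ} (u v : E2 n) : st n u v = ∑ i, (u.1 i * v.2 i - u.2 i * v.1 i) := by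
  simp [st]

theorem st_JJ {n : ℕ} (v : E2 n) (hv : v ≠ 0) : 0 < st n v (JJ n v) := by
  rw [st_apply]
  have h0 : ∀ i, v.1 i * (JJ n v).2 i - v.2 i * (JJ n v).1 i = v.1 i ^ 2 + v.2 i ^ 2 := by
    intro i
    simp only [JJ_apply, Pi.neg_apply]
    ring
  rw [Finset.sum_congr rfl fun i _ => h0 i]
  have hnn : ∀ i ∈ Finset.univ, 0 ≤ v.1 i ^ 2 + v.2 i ^ 2 := fun i _ => by positivity
  refine lt_of_le_of_ne (Finset.sum_nonneg hnn) fun h => hv ?_
  have h2 := (Finset.sum_eq_zero_iff_of_nonneg hnn).1 h.symm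
  have h3 : ∀ i, v.1 i = 0 ∧ v.2 i = 0 := by
    intro i
    have := h2 i (Finset.mem_univ i)
    constructor <;> nlinarith [sq_nonneg (v.1 i), sq_nonneg (v.2 i)]
  exact Prod.ext (funext fun i => (h3 i).1) (funext fun i => (h3 i).2)

section gen

variable {E : Type} [NormedAddCommGroup E] [NormedSpace ℝ E]

theorem closed_comb' {σ₁ σ₂ : E → E →L[ℝ] E →L[ℝ] ℝ} (h1 : Differentiable ℝ σ₁)
    (h2 : Differentiable ℝ σ₂) (c1 : ClosedForm σ₁) (c2 : ClosedForm σ₂) (a b : ℝ) :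
    ClosedForm (fun y => a • σ₁ y + b • σ₂ y) := by
  intro x u v w
  have e : fderiv ℝ (fun y => a • σ₁ y + b • σ₂ y) x =
      a • fderiv ℝ σ₁ x + b • fderiv ℝ σ₂ x :=
    (((h1 x).hasFDerivAt.const_smul a).add ((h2 x).hasFDerivAt.const_smul b)).fderiv
  rw [e]
  simp only [_root_.add_apply, _root_.smul_apply, smul_eq_mul]
  linear_combination a * c1 x u v w + b * c2 x u v w

theorem dOne_comb' {α β : E → E →L[ℝ] ℝ} {x : E} (h1 : DifferentiableAt ℝ α x)
    (h2 : DifferentiableAt ℝ β x) (a b : ℝ) (u v : E) :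
    dOne (fun y => a • α y + b • β y) x u v = a * dOne α x u v + b * dOne β x u v := by
  have e : fderiv ℝ (fun y => a • α y + b • β y) x =
      a • fderiv ℝ α x + b • fderiv ℝ β x :=
    ((h1.hasFDerivAt.const_smul a).add (h2.hasFDerivAt.const_smul b)).fderiv
  simp only [dOne_apply]
  rw [e]
  simp only [_root_.add_apply, _root_.smul_apply, smul_eq_mul]
  ring

variable [FiniteDimensional ℝ E]

theorem moser_cpt (J : E →L[ℝ] E) (st : E →L[ℝ] E →L[ℝ] ℝ) (hst : ∀ v, v ≠ 0 → 0 < st v (J v))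
    {α₀ α₁ : E → E →L[ℝ] ℝ} (hla₀ : ContDiff ℝ ∞ α₀) (hla₁ : ContDiff ℝ ∞ α₁) {K V : Set E}
    (hK : IsCompact K) (hV : IsOpen V) (hKV : K ⊆ V) (hoff : ∀ z, z ∉ K → α₀ z = α₁ z)
    (hl₀ : ∀ z ∈ V, ∀ v, v ≠ 0 → 0 < dOne α₀ z v (J v))
    (hl₁ : ∀ z ∈ V, ∀ v, v ≠ 0 → 0 < dOne α₁ z v (J v)) :
    ∃ Φ Ψ : E → E, ContDiff ℝ ∞ Φ ∧ (∀ z, Ψ (Φ z) = z) ∧ (∀ z, Φ (Ψ z) = z) ∧
      (∀ z, z ∉ K → Φ z = z) ∧
      ∀ z u v, dOne α₁ (Φ z) (fderiv ℝ Φ z u) (fderiv ℝ Φ z v) = dOne α₀ z u v := by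
  have hcs : CompleteSpace E := FiniteDimensional.complete ℝ _
  -- the cutoff
  obtain ⟨χ, hχ, hχ01, hχ0, hχ1⟩ : ∃ χ : E → ℝ, ContDiff ℝ ∞ χ ∧
      (∀ z, χ z ∈ Icc (0 : ℝ) 1) ∧ (∀ z, z ∉ V → χ z = 0) ∧ (∀ z, z ∈ K → χ z = 1) := by
    have hd : Disjoint (Vᶜ) K := by
      rw [Set.disjoint_left]
      intro z hz hz'
      exact hz (hKV hz')
    obtain ⟨f, hf, hr, h0, h1⟩ := exists_contMDiff_zero_iff_one_iff_of_isClosed
      (I := 𝓘(ℝ, E)) (n := ⊤) hV.isClosed_compl hK.isClosed hd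
    exact ⟨f, contMDiff_iff_contDiff.1 hf, fun z => hr (mem_range_self z),
      fun z hz => (h0 z).1 hz, fun z hz => (h1 z).1 hz⟩
  set s : ℝ → ℝ := fun t => Real.sin t ^ 2 with hs
  set s' : ℝ → ℝ := fun t => 2 * Real.sin t * Real.cos t with hs'
  have hsd : ∀ t, HasDerivAt s (s' t) t := by
    intro t
    have := (Real.hasDerivAt_sin t).pow 2
    refine this.congr_deriv ?_
    simp [hs']
  have hs01 : ∀ t, s t ∈ Icc (0 : ℝ) 1 := fun t => ⟨sq_nonneg _, by
    simp only [hs]; nlinarith [Real.sin_sq_add_cos_sq t, sq_nonneg (Real.cos t)]⟩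
  have hss : ContDiff ℝ ∞ s := Real.contDiff_sin.pow 2
  have hss' : ContDiff ℝ ∞ s' := (contDiff_const.mul Real.contDiff_sin).mul Real.contDiff_cos
  have hd₀ := contDiff_dOne hla₀
  have hd₁ := contDiff_dOne hla₁
  set S : ℝ × E → E →L[ℝ] E →L[ℝ] ℝ := fun p =>
    (1 - s p.1) • dOne α₀ p.2 + s p.1 • dOne α₁ p.2 with hS
  have hSs : ContDiff ℝ ∞ S :=
    ((contDiff_const.sub (hss.comp contDiff_fst)).smul (hd₀.comp contDiff_snd)).add
      ((hss.comp contDiff_fst).smul (hd₁.comp contDiff_snd))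
  have hSalt : ∀ p v, S p v v = 0 := by
    intro p v
    simp only [hS, _root_.add_apply, _root_.smul_apply, smul_eq_mul, dOne_self]
    ring
  have hSV : ∀ p : ℝ × E, p.2 ∈ V → ∀ v, v ≠ 0 → 0 < S p v (J v) := by
    intro p hp v hv
    have h1 := hs01 p.1
    simp only [hS, _root_.add_apply, _root_.smul_apply, smul_eq_mul]
    have h2 := hl₀ p.2 hp v hv
    have h3 := hl₁ p.2 hp v hv
    rcases eq_or_lt_of_le h1.1 with h4 | h4
    · rw [← h4]; linarith
    · have h5 : 0 ≤ (1 - s p.1) * dOne α₀ p.2 v (J v) := mul_nonneg (by linarith [h1.2]) h2.le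
      have h6 : 0 < s p.1 * dOne α₁ p.2 v (J v) := mul_pos h4 h3
      linarith
  set S' : ℝ × E → E →L[ℝ] E →L[ℝ] ℝ := fun p =>
    χ p.2 • S p + (1 - χ p.2) • st with hS'
  have hS's : ContDiff ℝ ∞ S' :=
    ((hχ.comp contDiff_snd).smul hSs).add
      ((contDiff_const.sub (hχ.comp contDiff_snd)).smul contDiff_const)
  have hS'nd : ∀ p v, (∀ w, S' p v w = 0) → v = 0 := by
    intro p v hv
    by_contra hne
    have h1 := hv (J v)
    simp only [hS', _root_.add_apply, _root_.smul_apply, smul_eq_mul] at h1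
    have h2 := hst v hne
    have h3 := hχ01 p.2
    by_cases hp : p.2 ∈ V
    · have h4 := hSV p hp v hne
      rcases eq_or_lt_of_le h3.1 with h5 | h5
      · rw [← h5] at h1; linarith
      · have h6 := mul_pos h5 h4
        have h7 : 0 ≤ (1 - χ p.2) * st v (J v) := mul_nonneg (by linarith [h3.2]) h2.le
        linarith
    · rw [hχ0 _ hp] at h1
      linarith
  set γ : ℝ × E → E →L[ℝ] ℝ := fun p => α₀ p.2 - α₁ p.2 with hγ
  have hγs : ContDiff ℝ ∞ γ := (hla₀.comp contDiff_snd).sub (hla₁.comp contDiff_snd)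
  have hγ0 : ∀ p : ℝ × E, p.2 ∉ K → γ p = 0 := by
    intro p hp
    simp only [hγ]
    rw [hoff _ hp, sub_self]
  set Y : ℝ × E → E := fun p => (S' p).inverse (γ p) with hY
  have hYs : ContDiff ℝ ∞ Y := contDiff_solve hS's hγs hS'nd
  have hYe : ∀ p, S' p (Y p) = γ p := fun p => solve_spec (hS'nd p) (γ p)
  have hY0 : ∀ p : ℝ × E, p.2 ∉ K → Y p = 0 := by
    intro p hp
    refine solve_unique (hS'nd p) ?_
    rw [hγ0 p hp, map_zero]
  have hYS : ∀ p, S p (Y p) = γ p := by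
    intro p
    by_cases hp : p.2 ∈ K
    · have h1 := hYe p
      simp only [hS', hχ1 _ hp, one_smul, sub_self, zero_smul, add_zero] at h1
      exact h1
    · rw [hY0 p hp, hγ0 p hp, map_zero]
  set X : ℝ × E → E := fun p => s' p.1 • Y p with hX
  have hXs : ContDiff ℝ ∞ X := (hss'.comp contDiff_fst).smul hYs
  have hX0 : ∀ p : ℝ × E, p.2 ∉ K → X p = 0 := by
    intro p hp
    simp only [hX, hY0 p hp, smul_zero]
  have hXb : ∀ T : ℝ, ∃ C : ℝ, 0 < C ∧ ∀ t ∈ Icc (-T) T, ∀ x, ‖X (t, x)‖ ≤ C * ‖x‖ + C := by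
    intro T
    have hc : IsCompact (Icc (-T) T ×ˢ K) := isCompact_Icc.prod hK
    obtain ⟨C, hC⟩ := hc.exists_bound_of_continuousOn hXs.continuous.continuousOn
    have hpos : 0 < max C 1 := lt_of_lt_of_le one_pos (le_max_right _ _)
    refine ⟨max C 1, hpos, fun t ht x => ?_⟩
    have h1 : 0 ≤ max C 1 * ‖x‖ := mul_nonneg hpos.le (norm_nonneg _)
    by_cases hx : x ∈ K
    · have h2 := hC (t, x) (mk_mem_prod ht hx)
      have h3 := le_max_left C 1
      linarith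
    · rw [hX0 (t, x) hx, norm_zero]
      linarith
  obtain ⟨F, G, hF, hG, hF0, hFd, hGF, hFG⟩ := exists_isotopy_linear hXs hXb
  have hcl : ∀ t, ClosedForm (fun y => S (t, y)) := fun t =>
    closed_comb' (hd₀.differentiable (by simp)) (hd₁.differentiable (by simp))
      (closed_dOne hla₀) (closed_dOne hla₁) (1 - s t) (s t)
  have key := pull_const hSs hSalt hcl hXs hF hFd (by
    intro t y a b
    have e1 : HasDerivAt (fun r : ℝ => S (r, y) a b)
        (-s' t * dOne α₀ y a b + s' t * dOne α₁ y a b) t := by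
      have h1 := (((hsd t).const_sub 1).mul_const (dOne α₀ y a b)).add
        ((hsd t).mul_const (dOne α₁ y a b))
      exact h1
    have e2 : (fun z => S (t, z) (X (t, z))) =
        fun z => s' t • α₀ z + (-s' t) • α₁ z := by
      funext z
      have h1 : S (t, z) (X (t, z)) = s' t • S (t, z) (Y (t, z)) := by
        simp only [hX, map_smul]
      rw [h1, hYS]
      simp only [hγ, smul_sub, neg_smul]
      exact sub_eq_add_neg _ _
    rw [e1.deriv, e2, dOne_comb' ((hla₀.differentiable (by simp)) y)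
      ((hla₁.differentiable (by simp)) y)]
    ring) (Real.pi / 2)
  have hs0 : s 0 = 0 := by simp [hs]
  have hs1 : s (Real.pi / 2) = 1 := by simp [hs]
  have hFid : F 0 = id := funext hF0
  refine ⟨F (Real.pi / 2), G (Real.pi / 2), ?_, hGF _, hFG _, ?_, ?_⟩
  · exact hF.comp (contDiff_const.prodMk contDiff_id)
  · intro z hz
    have hY1 : ContDiff ℝ 1 (fun p : ℝ × E => ((1 : ℝ), X p)) :=
      (contDiff_const.prodMk hXs).of_le (by exact_mod_cast le_top)
    have h1 := curve_unique_univ hY1 (c₁ := fun t => (t, F t z)) (c₂ := fun t => (t, z))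
      (fun t => (hasDerivAt_id t).prodMk (hFd t z))
      (fun t => by
        simp only [hX0 (t, z) hz]
        exact (hasDerivAt_id t).prodMk (hasDerivAt_const t z)) (by simp [hF0])
    exact (Prod.ext_iff.1 (congrFun h1 (Real.pi / 2))).2
  · intro x u v
    have h1 := key x u v
    simp only [hS, hs0, hs1, hFid, sub_zero, sub_self, one_smul, zero_smul, zero_add, add_zero,
      fderiv_id, id_eq, ContinuousLinearMap.id_apply] at h1
    exact h1

end gen

theorem MOSER : S_MOSER := by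
  intro n f₀ f₁ K V hf₀ hf₁ hK hV hKV hoff hl₀ hl₁
  obtain ⟨Φ, Ψ, h1, h2, h3, h4, h5⟩ := moser_cpt (JJ n) (st n) (fun v hv => st_JJ v hv)
    (contDiff_lam hf₀) (contDiff_lam hf₁) hK hV hKV (by
      intro z hz
      have h1 : f₀ =ᶠ[𝓝 z] f₁ := by
        filter_upwards [hK.isClosed.isOpen_compl.mem_nhds hz] with z hz
        exact hoff z hz
      rw [lam, lam, h1.fderiv_eq])
    (fun z hz v hv => by rw [dOne_lam hf₀, ddc_JJ]; exact hl₀ z hz v hv)
    (fun z hz v hv => by rw [dOne_lam hf₁, ddc_JJ]; exact hl₁ z hz v hv)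
  refine ⟨Φ, Ψ, h1, h2, h3, h4, fun z u v => ?_⟩
  rw [← dOne_lam hf₀, ← dOne_lam hf₁]
  exact h5 z u v

end Pool.Agent.H287.SV
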