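import Pool.Agent.H269.SV.Stm

/-!
# Project SV (helper269): a smooth convex regularised maximum (`S_MU`)
-/

set_option autoImplicit false

open MeasureTheory Filter Topology Set
open scoped ContDiff

namespace Pool.Agent.H284.SV

theorem deriv_nonneg_of_monotone {f : ℝ → ℝ} (hf : Monotone f) (hd : Differentiable ℝ f) (x : ℝ) :
    0 ≤ deriv f x := by
  have h := (hasDerivAt_iff_tendsto_slope.1 (hd x).hasDerivAt)
  refine ge_of_tendsto h ?_
  filter_upwards [self_mem_nhdsWithin] with y hy
  rw [slope_def_field]
  rcases lt_or_gt_of_ne (show y ≠ x from hy) with h1 | h1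
  · exact div_nonneg_of_nonpos (by linarith [hf h1.le]) (by linarith)
  · exact div_nonneg (by linarith [hf h1.le]) (by linarith)

/-- the derivative of the function -/
noncomputable def ms (t : ℝ) : ℝ := Real.smoothTransition ((t + 1) / 2)

theorem ms_contDiff : ContDiff ℝ ∞ ms :=
  (Real.smoothTransition.contDiff (n := ⊤)).comp (by fun_prop)

theorem ms_cont : Continuous ms := ms_contDiff.continuous

theorem ms_mono : Monotone ms := fun a b h =>
  Real.smoothTransition.monotone (by linarith)

theorem ms_symm (t : ℝ) : ms t + ms (-t) = 1 := by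
  unfold ms Real.smoothTransition
  have e1 : 1 - (t + 1) / 2 = (-t + 1) / 2 := by ring
  have e2 : 1 - (-t + 1) / 2 = (t + 1) / 2 := by ring
  rw [e1, e2]
  have h := Real.smoothTransition.pos_denom ((t + 1) / 2)
  rw [e1] at h
  have h' : expNegInvGlue ((-t + 1) / 2) + expNegInvGlue ((t + 1) / 2) ≠ 0 := by
    rw [add_comm]; exact h.ne'
  field_simp
  ring

/-- the function -/
noncomputable def mm (t : ℝ) : ℝ := ∫ s in (-1 : ℝ)..t, ms s

theorem mm_hasDeriv (t : ℝ) : HasDerivAt mm (ms t) t :=
  intervalIntegral.integral_hasDerivAt_right (ms_cont.intervalIntegrable _ _)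
    (ms_cont.stronglyMeasurableAtFilter _ _) ms_cont.continuousAt

theorem mm_deriv : deriv mm = ms := funext fun t => (mm_hasDeriv t).deriv

theorem mm_one : mm 1 = 1 := by
  have h1 : ∫ s in (-1 : ℝ)..1, ms s = ∫ s in (-1 : ℝ)..1, ms (-s) := by
    rw [intervalIntegral.integral_comp_neg (f := ms)]
    simp
  have h2 : (∫ s in (-1 : ℝ)..1, ms s) + ∫ s in (-1 : ℝ)..1, ms (-s) = 2 := by
    have hc : Continuous fun s => ms (-s) := ms_cont.comp continuous_neg
    rw [← intervalIntegral.integral_add (ms_cont.intervalIntegrable _ _)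
      (hc.intervalIntegrable _ _)]
    simp only [ms_symm]
    rw [intervalIntegral.integral_const]
    norm_num
  unfold mm
  linarith

end Pool.Agent.H284.SV

namespace Pool.Agent.H269.SV

open Pool.Agent.H284.SV

theorem MU : S_MU := by
  refine ⟨mm, ?_, ?_, ?_, ?_⟩
  · rw [contDiff_infty_iff_deriv]
    refine ⟨fun t => (mm_hasDeriv t).differentiableAt, ?_⟩
    rw [mm_deriv]
    exact ms_contDiff
  · intro t ht
    unfold mm
    have h : ∀ s ∈ uIcc (-1 : ℝ) t, ms s = 0 := by
      intro s hs
      rw [uIcc_of_ge ht] at hs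
      exact Real.smoothTransition.zero_of_nonpos (by linarith [hs.2])
    rw [intervalIntegral.integral_congr h]
    simp
  · intro t ht
    have h1 : mm t = mm 1 + ∫ s in (1 : ℝ)..t, ms s := by
      unfold mm
      rw [intervalIntegral.integral_add_adjacent_intervals (ms_cont.intervalIntegrable _ _)
        (ms_cont.intervalIntegrable _ _)]
    have h : ∀ s ∈ uIcc (1 : ℝ) t, ms s = 1 := by
      intro s hs
      rw [uIcc_of_le ht] at hs
      exact Real.smoothTransition.one_of_one_le (by linarith [hs.1])
    rw [h1, mm_one, intervalIntegral.integral_congr h]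
    simp
  · intro t
    rw [mm_deriv]
    refine ⟨Real.smoothTransition.nonneg _, Real.smoothTransition.le_one _, ?_⟩
    exact deriv_nonneg_of_monotone ms_mono (ms_contDiff.differentiable (by simp)) t

end Pool.Agent.H269.SV
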