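import Pool.Agent.H269.SV.Stm

/-!
# SV-NET (by helper44): inner approximation of a symmetric convex body by polytopes
-/

set_option autoImplicit false

open MeasureTheory Filter Topology Set
open scoped ContDiff Matrix Pointwise

noncomputable section

namespace Pool.Agent.H44.SV.Net

open H712MA (Spans dt)
open Pool.Agent.H269.SV

/-- finite nets -/
theorem fnet {n : ℕ} {B : Set (Fin n → ℝ)} (hB : IsCompact B)
    (h0 : (0 : Fin n → ℝ) ∈ interior B) {η : ℝ} (hη : 0 < η) :
    ∃ t : Finset (Fin n → ℝ), (∀ x ∈ t, x ∈ B) ∧ ∀ b ∈ B, ∃ x ∈ t, ∃ b' ∈ B, b = x + η • b' := by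
  obtain ⟨t, ht, hcov⟩ := hB.elim_nhds_subcover (fun x => (fun y => x + η • y) '' interior B) (by
    intro x _
    have h1 : IsOpen ((fun y => x + η • y) '' interior B) := by
      have h2 : IsOpen (η • interior B) := isOpen_interior.smul₀ hη.ne'
      have h3 := (Homeomorph.addLeft x).isOpenMap _ h2
      rwa [← image_smul, image_image] at h3
    exact h1.mem_nhds ⟨0, h0, by simp⟩)
  refine ⟨t, ht, fun b hb => ?_⟩
  obtain ⟨x, hx, y, hy, rfl⟩ := mem_iUnion₂.1 (hcov hb)
  exact ⟨x, hx, y, interior_subset hy, rfl⟩

theorem NET : S_NET := by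
  intro n B hB hconv hsymm h0 ε hε
  classical
  -- a small multiple of the unit vectors is in `B`
  obtain ⟨ρ, hρ, hball⟩ := Metric.nhds_basis_closedBall.mem_iff.1 (mem_interior_iff_mem_nhds.1 h0)
  set u : Fin n → Fin n → ℝ := fun i => Pi.single i ρ with hu
  have huB : ∀ i, u i ∈ B := by
    intro i
    apply hball
    rw [mem_closedBall_zero_iff, hu, Pi.norm_single, Real.norm_of_nonneg hρ.le]
  set η : ℝ := ε / (1 + ε) with hη
  have hη0 : 0 < η := by positivity
  have hη1 : η < 1 := by rw [hη, div_lt_one (by positivity)]; linarith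
  have hη2 : (1 - η)⁻¹ = 1 + ε := by
    rw [hη]; field_simp; ring
  obtain ⟨t, htB, ht⟩ := fnet hB h0 hη0
  set T : Finset (Fin n → ℝ) := t ∪ Finset.univ.image u with hT
  have hTB : ∀ x ∈ T, x ∈ B := by
    intro x hx
    rw [hT, Finset.mem_union, Finset.mem_image] at hx
    rcases hx with hx | ⟨i, -, rfl⟩
    · exact htB x hx
    · exact huB i
  set e : Fin T.card ≃ T := T.equivFin.symm with he
  set l : Fin T.card → Fin n → ℝ := fun k => (e k : Fin n → ℝ) with hl
  have hsurj : ∀ x ∈ T, ∃ k, l k = x := by
    intro x hx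
    exact ⟨e.symm ⟨x, hx⟩, by rw [hl]; simp⟩
  refine ⟨T.card, l, fun k => hTB _ (e k).2, ?_, ?_⟩
  · have h1 : ∀ i, ∃ k, l k = u i := fun i =>
      hsurj (u i) (by rw [hT, Finset.mem_union, Finset.mem_image]; exact Or.inr ⟨i, Finset.mem_univ i, rfl⟩)
    choose f hf using h1
    refine ⟨f, ?_⟩
    unfold dt
    have h2 : (Matrix.of fun i j => l (f i) j) = Matrix.diagonal (fun _ : Fin n => ρ) := by
      ext i j
      rw [Matrix.of_apply, hf i, hu]
      simp only [Matrix.diagonal_apply, Pi.single_apply, eq_comm]
    rw [h2, Matrix.det_diagonal]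
    exact Finset.prod_ne_zero_iff.2 fun _ _ => hρ.ne'
  · intro b hb
    -- finite approximations
    have key : ∀ (j : ℕ), ∀ b ∈ B, ∃ c : Fin T.card → ℝ, ∃ b' ∈ B,
        ∑ k, |c k| ≤ ∑ i ∈ Finset.range j, η ^ i ∧ b = ∑ k, c k • l k + η ^ j • b' := by
      intro j
      induction j with
      | zero =>
        intro b hb
        exact ⟨0, b, hb, by simp, by simp⟩
      | succ j ih =>
        intro b hb
        obtain ⟨x, hx, b1, hb1, rfl⟩ := ht b hb
        obtain ⟨c, b', hb', hc, he1⟩ := ih b1 hb1
        obtain ⟨k0, hk0⟩ := hsurj x (Finset.mem_union_left _ hx)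
        refine ⟨Pi.single k0 1 + η • c, b', hb', ?_, ?_⟩
        · have h3 : ∑ k, |(Pi.single k0 1 + η • c : Fin T.card → ℝ) k| ≤
              ∑ k, (|(Pi.single k0 1 : Fin T.card → ℝ) k| + η * |c k|) := by
            refine Finset.sum_le_sum fun k _ => ?_
            rw [Pi.add_apply, Pi.smul_apply, smul_eq_mul]
            refine (abs_add_le _ _).trans ?_
            rw [abs_mul, abs_of_pos hη0]
          refine h3.trans ?_
          rw [Finset.sum_add_distrib, ← Finset.mul_sum, Finset.sum_range_succ', pow_zero]
          have h4 : ∑ k, |(Pi.single k0 1 : Fin T.card → ℝ) k| = 1 := by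
            rw [Finset.sum_eq_single k0]
            · simp
            · intro k _ hk
              simp [Pi.single_eq_of_ne hk]
            · intro h; exact absurd (Finset.mem_univ _) h
          rw [h4]
          have h5 : ∑ i ∈ Finset.range j, η ^ (i + 1) = η * ∑ i ∈ Finset.range j, η ^ i := by
            rw [Finset.mul_sum]
            exact Finset.sum_congr rfl fun i _ => by rw [pow_succ']
          rw [h5]
          have := mul_le_mul_of_nonneg_left hc hη0.le
          linarith
        · have h6 : ∑ k, (Pi.single k0 1 + η • c : Fin T.card → ℝ) k • l k =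
              l k0 + η • ∑ k, c k • l k := by
            simp only [Pi.add_apply, Pi.smul_apply, add_smul, Finset.sum_add_distrib, smul_assoc,
              Finset.smul_sum]
            congr 1
            rw [Finset.sum_eq_single k0]
            · simp
            · intro k _ hk
              simp [Pi.single_eq_of_ne hk]
            · intro h; exact absurd (Finset.mem_univ _) h
          rw [h6, hk0, he1, smul_add, pow_succ', mul_smul]
          abel
    have hgeo : ∀ j : ℕ, ∑ i ∈ Finset.range j, η ^ i ≤ 1 + ε := by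
      intro j
      rw [← hη2, ← tsum_geometric_of_lt_one hη0.le hη1]
      exact (summable_geometric_of_lt_one hη0.le hη1).sum_le_tsum _ fun i _ => by positivity
    choose c b' hb' hc hbc using fun j => key j b hb
    have hcball : ∀ j, c j ∈ Metric.closedBall (0 : Fin T.card → ℝ) (1 + ε) := by
      intro j
      rw [mem_closedBall_zero_iff, pi_norm_le_iff_of_nonneg (by positivity)]
      intro k
      refine le_trans ?_ ((hc j).trans (hgeo j))
      exact Finset.single_le_sum (f := fun k => |c j k|) (fun k _ => abs_nonneg _)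
        (Finset.mem_univ k)
    obtain ⟨c0, -, φ, hφ, hlim⟩ :=
      (isCompact_closedBall (0 : Fin T.card → ℝ) (1 + ε)).tendsto_subseq hcball
    refine ⟨c0, ?_, ?_⟩
    · have h7 : Tendsto (fun j => ∑ k, |c (φ j) k|) atTop (𝓝 (∑ k, |c0 k|)) := by
        refine tendsto_finsetSum _ fun k _ => ?_
        exact ((continuous_apply k).tendsto c0 |>.comp hlim).abs
      exact le_of_tendsto h7 (Eventually.of_forall fun j => (hc (φ j)).trans (hgeo (φ j)))
    · have h8 : Tendsto (fun j => ∑ k, c (φ j) k • l k) atTop (𝓝 (∑ k, c0 k • l k)) := by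
        refine tendsto_finsetSum _ fun k _ => ?_
        exact ((continuous_apply k).tendsto c0 |>.comp hlim).smul_const _
      obtain ⟨R, hR⟩ := hB.isBounded.exists_norm_le
      have h9 : Tendsto (fun j => η ^ (φ j) • b' (φ j)) atTop (𝓝 0) := by
        rw [tendsto_zero_iff_norm_tendsto_zero]
        have h10 : Tendsto (fun j => η ^ (φ j) * R) atTop (𝓝 0) := by
          have := (tendsto_pow_atTop_nhds_zero_of_lt_one hη0.le hη1).comp hφ.tendsto_atTop
          simpa using this.mul_const R
        refine squeeze_zero (fun j => norm_nonneg _) (fun j => ?_) h10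
        rw [norm_smul, norm_pow, Real.norm_of_nonneg hη0.le]
        exact mul_le_mul_of_nonneg_left (hR _ (hb' _)) (by positivity)
      have h11 : Tendsto (fun _ : ℕ => b) atTop (𝓝 (∑ k, c0 k • l k + 0)) :=
        (h8.add h9).congr fun j => (hbc (φ j)).symm
      rw [add_zero] at h11
      exact tendsto_nhds_unique tendsto_const_nhds h11

end Pool.Agent.H44.SV.Net
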