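import Pool.Agent.H269.SV.Stm
import Pool.Graph.R_seed8.H712R2.MA.H1
import Pool.Graph.R_seed8.H712R2.MA.H2
import Pool.Graph.R_seed8.H712R2.MA.H3
import Pool.Graph.R_seed8.H712R2.MA.H4

/-!
# Project SV (helper269), task ONE (helper591): the differential inequality on vertical slices
-/

set_option autoImplicit false

open MeasureTheory Filter Topology Set

noncomputable section

namespace Pool.Agent.H591.SV

open H712MA (cay gg hd hh eta WW S_H1 S_H2 S_H3 S_H4)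
open Pool.Agent.H269.SV (dens S_EST S_ONE)

lemma sinh_parts (L α : ℝ) : Complex.sinh ((L : ℂ) + α * Complex.I) =
    ⟨Real.sinh L * Real.cos α, Real.cosh L * Real.sin α⟩ := by
  rw [Complex.sinh_add, Complex.cosh_mul_I, Complex.sinh_mul_I, ← Complex.ofReal_sinh,
    ← Complex.ofReal_cosh, ← Complex.ofReal_cos, ← Complex.ofReal_sin]
  apply Complex.ext
  · simp only [Complex.add_re, Complex.mul_re, Complex.ofReal_re, Complex.ofReal_im, Complex.I_re,
      Complex.I_im, Complex.mul_im]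
    ring
  · simp only [Complex.add_im, Complex.mul_re, Complex.ofReal_re, Complex.ofReal_im, Complex.I_re,
      Complex.I_im, Complex.mul_im]
    ring

/-- the data at a point of the upper half disc -/
lemma pt {z : ℂ} (hz : ‖z‖ < 1) (him : 0 < z.im) :
    ∃ L α : ℝ, 0 < α ∧ α < Real.pi / 2 ∧ (gg z).im = 4 / Real.pi ^ 2 * α ∧
      0 < L ^ 2 + α ^ 2 ∧
      ‖z‖ ^ 2 = (Real.cosh L - Real.cos α) / (Real.cosh L + Real.cos α) ∧
      1 / ‖hd z‖ ^ 2 = ‖z‖ ^ 2 * (Real.pi ^ 4 / 16) / (L ^ 2 + α ^ 2) ∧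
      (2 * Complex.I / (hd z * (1 - z ^ 2))).im = Real.pi ^ 2 / 4 *
        ((L * Real.sinh L * Real.cos α + α * Real.sin α * Real.cosh L) / (L ^ 2 + α ^ 2)) := by
  have hpi : Real.pi ≠ 0 := Real.pi_ne_zero
  have hpiC : (Real.pi : ℂ) ≠ 0 := by exact_mod_cast hpi
  have hz0 : z ≠ 0 := by
    intro h
    rw [h] at him
    simp at him
  have h1z : (1 : ℂ) - z ≠ 0 := H712MA.sub_ne_zero_of_norm hz
  have h1z' : (1 : ℂ) + z ≠ 0 := by
    have := H712MA.sub_ne_zero_of_norm (z := -z) (by simpa using hz)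
    simpa using this
  have hcre := H712MA.cay_re_pos hz
  have hcne : cay z ≠ 0 := by
    intro h
    rw [h] at hcre
    simp at hcre
  have hcim : 0 < (cay z).im := by
    rw [H712MA.cay_im]
    exact div_pos (by linarith) (H712MA.normSq_pos_of hz)
  obtain ⟨W, hW⟩ : ∃ W, W = Complex.log (cay z) := ⟨_, rfl⟩
  have hexp : Complex.exp W = cay z := by rw [hW, Complex.exp_log hcne]
  have hα0 : 0 < W.im := by
    rw [hW, Complex.log_im]
    have h0 : 0 ≤ (cay z).arg := Complex.arg_nonneg_iff.mpr hcim.le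
    have h1 : (cay z).arg ≠ 0 := by
      intro h
      exact hcim.ne' (Complex.arg_eq_zero_iff.mp h).2
    exact lt_of_le_of_ne h0 (Ne.symm h1)
  have hα1 : W.im < Real.pi / 2 := by
    rw [hW, Complex.log_im]
    exact (abs_lt.mp (H712MA.abs_arg_cay_lt hz)).2
  have hgg : gg z = (4 / (Real.pi : ℂ) ^ 2) * W := by rw [H712MA.gg_eq hz, hW]
  have hW0 : W ≠ 0 := by
    intro h
    rw [h] at hα0
    simp at hα0
  have hN : Complex.normSq W = W.re ^ 2 + W.im ^ 2 := by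
    rw [Complex.normSq_apply]
    ring
  have hNpos : 0 < W.re ^ 2 + W.im ^ 2 := by
    rw [← hN]
    exact Complex.normSq_pos.mpr hW0
  have hhd : hd z = (4 / (Real.pi : ℂ) ^ 2) * W / z := by
    rw [← hgg]
    unfold gg
    field_simp
  refine ⟨W.re, W.im, hα0, hα1, ?_, hNpos, ?_, ?_, ?_⟩
  · rw [hgg]
    have : (4 / (Real.pi : ℂ) ^ 2) = ((4 / Real.pi ^ 2 : ℝ) : ℂ) := by push_cast; ring
    rw [this, Complex.im_ofReal_mul]
  · -- the modulus
    have hre : (cay z).re = Real.exp W.re * Real.cos W.im := by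
      rw [← hexp, Complex.exp_re]
    have hcc : Complex.normSq (cay z) = Real.exp W.re ^ 2 := by
      rw [← hexp, Complex.normSq_eq_norm_sq, Complex.norm_exp]
    have hu : z * (cay z + 1) = cay z - 1 := by
      unfold cay
      field_simp
      ring
    have hns : Complex.normSq z * Complex.normSq (cay z + 1) = Complex.normSq (cay z - 1) := by
      rw [← Complex.normSq_mul, hu]
    have e1 : Complex.normSq (cay z + 1) = Complex.normSq (cay z) + 2 * (cay z).re + 1 := by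
      rw [Complex.normSq_apply, Complex.normSq_apply]
      simp only [Complex.add_re, Complex.add_im, Complex.one_re, Complex.one_im]
      ring
    have e2 : Complex.normSq (cay z - 1) = Complex.normSq (cay z) - 2 * (cay z).re + 1 := by
      rw [Complex.normSq_apply, Complex.normSq_apply]
      simp only [Complex.sub_re, Complex.sub_im, Complex.one_re, Complex.one_im]
      ring
    have e3 : 2 * Real.exp W.re * Real.cosh W.re = Real.exp W.re ^ 2 + 1 := by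
      rw [Real.cosh_eq]
      have : Real.exp W.re * Real.exp (-W.re) = 1 := by rw [← Real.exp_add]; simp
      linear_combination this
    have hcos : 0 < Real.cos W.im := Real.cos_pos_of_mem_Ioo ⟨by linarith, hα1⟩
    have hpos : 0 < Real.cosh W.re + Real.cos W.im := by
      have := Real.cosh_pos W.re
      linarith
    rw [eq_div_iff hpos.ne', ← Complex.normSq_eq_norm_sq]
    rw [e1, e2, hcc, hre] at hns
    have hE := Real.exp_pos W.re
    have h5 : (2 * Real.exp W.re) * (Complex.normSq z * (Real.cosh W.re + Real.cos W.im)) =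
        (2 * Real.exp W.re) * (Real.cosh W.re - Real.cos W.im) := by
      linear_combination hns + (Complex.normSq z - 1) * e3
    exact mul_left_cancel₀ (by positivity) h5
  · rw [hhd, norm_div, norm_mul]
    have : ‖(4 / (Real.pi : ℂ) ^ 2)‖ = 4 / Real.pi ^ 2 := by
      rw [norm_div, norm_pow, Complex.norm_real, Real.norm_of_nonneg Real.pi_pos.le]
      simp
    rw [this, ← hN, Complex.normSq_eq_norm_sq]
    have h3 : ‖z‖ ≠ 0 := norm_ne_zero_iff.mpr hz0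
    have h4 : ‖W‖ ≠ 0 := norm_ne_zero_iff.mpr hW0
    field_simp
    norm_num
  · have hs : Complex.sinh W = 2 * z / (1 - z ^ 2) := by
      rw [Complex.sinh, hexp, Complex.exp_neg, hexp]
      unfold cay
      have h6 : (1 : ℂ) - z ^ 2 ≠ 0 := by
        have : (1 : ℂ) - z ^ 2 = (1 - z) * (1 + z) := by ring
        rw [this]
        exact mul_ne_zero h1z h1z'
      field_simp
      ring
    have h6 : (1 : ℂ) - z ^ 2 ≠ 0 := by
      have : (1 : ℂ) - z ^ 2 = (1 - z) * (1 + z) := by ring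
      rw [this]
      exact mul_ne_zero h1z h1z'
    have e4 : 2 * Complex.I / (hd z * (1 - z ^ 2)) =
        Complex.I * (((Real.pi ^ 2 / 4 : ℝ) : ℂ) * (Complex.sinh W / W)) := by
      rw [hs, hhd]
      push_cast
      field_simp
    have e5 : (Complex.I * (((Real.pi ^ 2 / 4 : ℝ) : ℂ) * (Complex.sinh W / W))).im =
        Real.pi ^ 2 / 4 * (Complex.sinh W / W).re := by
      rw [Complex.I_mul_im, Complex.re_ofReal_mul]
    rw [e4, e5, Complex.div_re, hN]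
    have e6 : Complex.sinh W = ⟨Real.sinh W.re * Real.cos W.im, Real.cosh W.re * Real.sin W.im⟩ := by
      rw [← sinh_parts, Complex.re_add_im]
    rw [e6]
    ring

/-- the pointwise inequality -/
lemma pw {ε δ : ℝ} (hε : 0 < ε) (hδ : 0 < δ) {m : ℕ} (hm : 1 ≤ m)
    (hE : ∀ L α : ℝ, 0 ≤ α → α ≤ Real.pi / 2 / (1 + ε) →
      m * ((Real.cosh L - Real.cos α) / (Real.cosh L + Real.cos α)) ^ m ≤
        (2 * δ / Real.pi ^ 2) * (L * Real.sinh L * Real.cos α + α * Real.sin α * Real.cosh L))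
    {z : ℂ} (hz : ‖z‖ < 1) (him : 0 < z.im) :
    4 * (m * ‖z‖ ^ (m - 1) / ‖hd z‖) ^ 2 / ((1 + ε) * Real.pi * m) ≤
      m * (‖z‖ ^ 2) ^ (m - 1) * (2 * (gg z).im / ‖hd z‖ ^ 2) +
        δ * (2 / Real.pi) * (2 * Complex.I / (hd z * (1 - z ^ 2))).im := by
  obtain ⟨L, α, hα0, hα1, hgg, hN, hT, hH, hI⟩ := pt hz him
  have hpi := Real.pi_pos
  have hmr : (0 : ℝ) < m := by exact_mod_cast hm
  obtain ⟨T, hTd⟩ : ∃ T, T = ‖z‖ ^ 2 := ⟨_, rfl⟩
  obtain ⟨N, hNd⟩ : ∃ N, N = L ^ 2 + α ^ 2 := ⟨_, rfl⟩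
  obtain ⟨D, hDd⟩ : ∃ D, D = L * Real.sinh L * Real.cos α + α * Real.sin α * Real.cosh L := ⟨_, rfl⟩
  have hT0 : 0 ≤ T := by rw [hTd]; positivity
  have hTm : T * T ^ (m - 1) = T ^ m := by
    rw [← pow_succ', Nat.sub_add_cancel hm]
  rw [← hNd] at hN hH hI
  rw [← hDd] at hI
  rw [← hTd] at hH hT
  have hD0 : 0 ≤ D := by
    rw [hDd]
    have h1 : 0 ≤ L * Real.sinh L := by
      rcases le_total 0 L with h | h
      · exact mul_nonneg h (Real.sinh_nonneg_iff.mpr h)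
      · exact mul_nonneg_of_nonpos_of_nonpos h (Real.sinh_nonpos_iff.mpr h)
    have h2 : 0 ≤ Real.cos α := (Real.cos_pos_of_mem_Ioo ⟨by linarith, hα1⟩).le
    have h3 : 0 ≤ Real.sin α := Real.sin_nonneg_of_nonneg_of_le_pi hα0.le (by linarith)
    have h4 := Real.cosh_pos L
    positivity
  have hmain : Real.pi ^ 3 / 4 * (m * T ^ m) / (1 + ε) ≤
      Real.pi ^ 2 / 2 * α * (m * T ^ m) + δ * (Real.pi / 2) * D := by
    have hmT : 0 ≤ m * T ^ m := by positivity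
    rcases le_total (Real.pi / 2 / (1 + ε)) α with h | h
    · have h1 : Real.pi ^ 3 / 4 * (m * T ^ m) / (1 + ε) =
          Real.pi ^ 2 / 2 * (Real.pi / 2 / (1 + ε)) * (m * T ^ m) := by
        field_simp
        ring
      rw [h1]
      have h2 : Real.pi ^ 2 / 2 * (Real.pi / 2 / (1 + ε)) * (m * T ^ m) ≤
          Real.pi ^ 2 / 2 * α * (m * T ^ m) := by gcongr
      have h3 : 0 ≤ δ * (Real.pi / 2) * D := by positivity
      linarith
    · have h1 := hE L α hα0.le h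
      rw [← hT, ← hDd] at h1
      have h2 : Real.pi ^ 3 / 4 * (m * T ^ m) / (1 + ε) ≤ Real.pi ^ 3 / 4 * (m * T ^ m) :=
        div_le_self (by positivity) (by linarith)
      have h3 : Real.pi ^ 3 / 4 * (m * T ^ m) ≤ Real.pi ^ 3 / 4 * (2 * δ / Real.pi ^ 2 * D) := by
        gcongr
      have h4 : Real.pi ^ 3 / 4 * (2 * δ / Real.pi ^ 2 * D) = δ * (Real.pi / 2) * D := by
        field_simp
        ring
      have h5 : 0 ≤ Real.pi ^ 2 / 2 * α * (m * T ^ m) := by positivity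
      linarith
  have hL : 4 * (m * ‖z‖ ^ (m - 1) / ‖hd z‖) ^ 2 / ((1 + ε) * Real.pi * m) =
      (Real.pi ^ 3 / 4 * (m * T ^ m) / (1 + ε)) / N := by
    have e1 : 4 * (m * ‖z‖ ^ (m - 1) / ‖hd z‖) ^ 2 / ((1 + ε) * Real.pi * m) =
        4 * m ^ 2 * (‖z‖ ^ 2) ^ (m - 1) * (1 / ‖hd z‖ ^ 2) / ((1 + ε) * Real.pi * m) := by
      rw [div_pow, mul_pow, ← pow_mul, ← pow_mul, mul_comm (m - 1) 2]
      ring
    rw [e1, hH, ← hTd]
    rw [show 4 * (m : ℝ) ^ 2 * T ^ (m - 1) * (T * (Real.pi ^ 4 / 16) / N) / ((1 + ε) * Real.pi * m) =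
      4 * (m : ℝ) ^ 2 * (T * T ^ (m - 1)) * ((Real.pi ^ 4 / 16) / N) / ((1 + ε) * Real.pi * m) by ring,
      hTm]
    field_simp
    ring
  have hR : m * (‖z‖ ^ 2) ^ (m - 1) * (2 * (gg z).im / ‖hd z‖ ^ 2) +
        δ * (2 / Real.pi) * (2 * Complex.I / (hd z * (1 - z ^ 2))).im =
      (Real.pi ^ 2 / 2 * α * (m * T ^ m) + δ * (Real.pi / 2) * D) / N := by
    rw [hI, hgg, ← hTd]
    rw [show (m : ℝ) * T ^ (m - 1) * (2 * (4 / Real.pi ^ 2 * α) / ‖hd z‖ ^ 2) =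
      (m : ℝ) * T ^ (m - 1) * (2 * (4 / Real.pi ^ 2 * α)) * (1 / ‖hd z‖ ^ 2) by ring, hH]
    rw [show (m : ℝ) * T ^ (m - 1) * (2 * (4 / Real.pi ^ 2 * α)) * (T * (Real.pi ^ 4 / 16) / N) =
      (m : ℝ) * (T * T ^ (m - 1)) * (2 * (4 / Real.pi ^ 2 * α)) * ((Real.pi ^ 4 / 16) / N) by ring,
      hTm]
    field_simp
    ring
  rw [hL, hR]
  exact div_le_div_of_nonneg_right hmain hN.le

lemma eta_path (h2 : S_H2) (x t : ℝ) (hp : (⟨x, t⟩ : ℂ) ∈ WW) :
    HasDerivAt (fun t : ℝ => eta ⟨x, t⟩) (1 / hd (eta ⟨x, t⟩) * Complex.I) t := by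
  obtain ⟨-, heta, -, -, hder, -⟩ := h2
  have hd1 := hder _ hp
  have hpath : HasDerivAt (fun t : ℝ => (⟨x, t⟩ : ℂ)) Complex.I t := by
    have h0 : (fun t : ℝ => (⟨x, t⟩ : ℂ)) = fun t : ℝ => (x : ℂ) + (t : ℂ) * Complex.I := by
      funext t
      exact Complex.mk_eq_add_mul_I x t
    rw [h0]
    have := ((Complex.ofRealCLM.hasDerivAt (x := t)).mul_const Complex.I).const_add (x : ℂ)
    simpa using this
  have := HasDerivAt.scomp t (h := fun t : ℝ => (⟨x, t⟩ : ℂ)) (g₁ := eta) (h' := Complex.I)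
    (g₁' := 1 / hd (eta ⟨x, t⟩)) hd1 hpath
  have e : (Complex.I • (1 / hd (eta ⟨x, t⟩))) = 1 / hd (eta ⟨x, t⟩) * Complex.I := by
    rw [smul_eq_mul, mul_comm]
  rw [e] at this
  exact this

lemma cay_deriv {z : ℂ} (hz : ‖z‖ < 1) : HasDerivAt cay (2 / (1 - z) ^ 2) z := by
  have h1z : (1 : ℂ) - z ≠ 0 := H712MA.sub_ne_zero_of_norm hz
  have h := ((hasDerivAt_id z).const_add (1 : ℂ)).div ((hasDerivAt_id z).const_sub (1 : ℂ)) h1z
  have e : ((1 : ℂ) * (1 - id z) - (1 + id z) * -1) / (1 - id z) ^ 2 = 2 / (1 - z) ^ 2 := by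
    simp only [id]
    ring
  rw [e] at h
  exact h

/-- derivative of the argument -/
lemma arg_path (h2 : S_H2) (hne : ∀ z : ℂ, ‖z‖ < 1 → hd z ≠ 0) (x t : ℝ)
    (hp : (⟨x, t⟩ : ℂ) ∈ WW) :
    HasDerivAt (fun t : ℝ => (Complex.log (cay (eta ⟨x, t⟩))).im)
      (2 * Complex.I / (hd (eta ⟨x, t⟩) * (1 - (eta ⟨x, t⟩) ^ 2))).im t := by
  have hlt : ‖eta ⟨x, t⟩‖ < 1 := (h2.2.1 _ hp).1
  have hc := HasDerivAt.scomp t (h := fun t : ℝ => eta ⟨x, t⟩) (g₁ := cay)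
    (h' := 1 / hd (eta ⟨x, t⟩) * Complex.I) (g₁' := 2 / (1 - eta ⟨x, t⟩) ^ 2) (cay_deriv hlt)
    (eta_path h2 x t hp)
  have hre := H712MA.cay_re_pos hlt
  have hslit : cay (eta ⟨x, t⟩) ∈ Complex.slitPlane := Or.inl hre
  have hl := HasDerivAt.clog_real (f := fun t : ℝ => cay (eta ⟨x, t⟩)) hc hslit
  have him := (Complex.imCLM.hasFDerivAt (x := Complex.log (cay (eta ⟨x, t⟩)))).comp_hasDerivAt t hl
  refine him.congr_deriv ?_
  show ((1 / hd (eta ⟨x, t⟩) * Complex.I) • (2 / (1 - eta ⟨x, t⟩) ^ 2) / cay (eta ⟨x, t⟩)).im = _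
  congr 1
  have h1z : (1 : ℂ) - eta ⟨x, t⟩ ≠ 0 := H712MA.sub_ne_zero_of_norm hlt
  have h1z' : (1 : ℂ) + eta ⟨x, t⟩ ≠ 0 := by
    have := H712MA.sub_ne_zero_of_norm (z := -eta ⟨x, t⟩) (by simpa using hlt)
    simpa using this
  have h6 : (1 : ℂ) - (eta ⟨x, t⟩) ^ 2 = (1 - eta ⟨x, t⟩) * (1 + eta ⟨x, t⟩) := by ring
  have h7 := hne _ hlt
  rw [h6, smul_eq_mul]
  unfold cay
  field_simp

theorem ONE : S_ONE := by
  intro hEST ε hε δ hδ
  have h1 := H712MA.H1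
  have h2 : S_H2 := H712MA.H2 h1
  have h3 := H712MA.H3
  have h4 : S_H4 := H712MA.H4 h1 h2 h3
  have hpi := Real.pi_pos
  have hne : ∀ z : ℂ, ‖z‖ < 1 → hd z ≠ 0 := by
    intro z hz h0
    have h5 := h1.2.1 z hz
    rw [h0, Complex.zero_re] at h5
    have : (0 : ℝ) < 4 / Real.pi ^ 2 := by positivity
    linarith
  obtain ⟨M₀, hM₀⟩ := hEST ε hε (2 * δ / Real.pi ^ 2) (by positivity)
  refine ⟨max M₀ 1, fun m hm x y hp hy => ?_⟩
  have hm1 : 1 ≤ m := le_trans (le_max_right _ _) hm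
  have hE := hM₀ m (le_trans (le_max_left _ _) hm)
  have hmr : (0 : ℝ) < m := by exact_mod_cast hm1
  obtain ⟨κ, hκ⟩ : ∃ κ, κ = (1 + ε) * Real.pi * m := ⟨_, rfl⟩
  have hκ0 : 0 < κ := by rw [hκ]; positivity
  have hmem : ∀ t ∈ Icc (0 : ℝ) y, (⟨x, t⟩ : ℂ) ∈ WW := by
    intro t ht
    exact (h4.1 x y t hp (by rw [abs_of_nonneg ht.1, abs_of_nonneg hy]; exact ht.2)).1
  have hder : ∀ t : ℝ, (⟨x, t⟩ : ℂ) ∈ WW → HasDerivAt
      (fun t : ℝ => (‖eta ⟨x, t⟩‖ ^ 2) ^ m +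
        δ * (2 / Real.pi) * (Complex.log (cay (eta ⟨x, t⟩))).im)
      (m * (‖eta ⟨x, t⟩‖ ^ 2) ^ (m - 1) * (2 * (gg (eta ⟨x, t⟩)).im / ‖hd (eta ⟨x, t⟩)‖ ^ 2) +
        δ * (2 / Real.pi) *
          (2 * Complex.I / (hd (eta ⟨x, t⟩) * (1 - (eta ⟨x, t⟩) ^ 2))).im) t := by
    intro t ht
    exact ((H712MA.H4_deriv h2 x t ht).fun_pow m).add ((arg_path h2 hne x t ht).const_mul _)
  have hcont : ContinuousOn (fun t : ℝ => (‖eta ⟨x, t⟩‖ ^ 2) ^ m +
        δ * (2 / Real.pi) * (Complex.log (cay (eta ⟨x, t⟩))).im) (Icc 0 y) := fun t ht =>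
    (hder t (hmem t ht)).continuousAt.continuousWithinAt
  have hcd : ContinuousOn (fun t : ℝ => dens m ⟨x, t⟩) (Icc 0 y) := by
    intro t ht
    apply ContinuousAt.continuousWithinAt
    have hlt : ‖eta ⟨x, t⟩‖ < 1 := (h2.2.1 _ (hmem t ht)).1
    have hc1 : ContinuousAt (fun t : ℝ => eta ⟨x, t⟩) t :=
      (eta_path h2 x t (hmem t ht)).continuousAt
    have hc2 : ContinuousAt hd (eta ⟨x, t⟩) :=
      ((h1.2.2.2.2.2.2.2.2).differentiableAt (Metric.isOpen_ball.mem_nhds (by simpa using hlt))).continuousAt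
    have hc3 : ContinuousAt (fun t : ℝ => hd (eta ⟨x, t⟩)) t :=
      ContinuousAt.comp (f := fun t : ℝ => eta ⟨x, t⟩) (g := hd) hc2 hc1
    unfold dens
    exact continuousAt_const.mul (((continuousAt_const.mul (hc1.norm.pow _)).div hc3.norm
      (norm_ne_zero_iff.mpr (hne _ hlt))).pow 2)
  have hint := intervalIntegral.integral_le_sub_of_hasDeriv_right_of_le
    (φ := fun t : ℝ => dens m ⟨x, t⟩ / κ) hy hcont
    (fun t ht => (hder t (hmem t ⟨ht.1.le, ht.2.le⟩)).hasDerivWithinAt)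
    ((hcd.div_const κ).integrableOn_Icc)
    (fun t ht => by
      have hmt := hmem t ⟨ht.1.le, ht.2.le⟩
      rw [hκ]
      exact pw hε hδ hm1 hE (h2.2.1 _ hmt).1 ((h4.2.2.1 x t hmt).1 ht.1))
  rw [intervalIntegral.integral_div] at hint
  have hlt0 : ‖eta ⟨x, 0⟩‖ < 1 := (h2.2.1 _ (hmem 0 ⟨le_rfl, hy⟩)).1
  have hlty : ‖eta ⟨x, y⟩‖ < 1 := (h2.2.1 _ hp).1
  have hg0 : 0 ≤ (Complex.log (cay (eta ⟨x, 0⟩))).im := by
    rw [Complex.log_im, Complex.arg_nonneg_iff, H712MA.cay_im]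
    have hr := (h2.2.2.2.2.2.2.1 _ (hmem 0 ⟨le_rfl, hy⟩)).2
    have hc : starRingEnd ℂ (⟨x, 0⟩ : ℂ) = ⟨x, 0⟩ := by
      apply Complex.ext <;> simp
    rw [hc] at hr
    have h0 : (eta ⟨x, 0⟩).im = 0 := Complex.conj_eq_iff_im.mp hr.symm
    rw [h0]
    simp
  have hgy : 2 / Real.pi * (Complex.log (cay (eta ⟨x, y⟩))).im ≤ 1 := by
    rw [Complex.log_im]
    have := (abs_lt.mp (H712MA.abs_arg_cay_lt hlty)).2
    rw [div_mul_eq_mul_div, div_le_one hpi]
    linarith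
  have hfin : (∫ t in (0 : ℝ)..y, dens m ⟨x, t⟩) / κ ≤ ‖eta ⟨x, y⟩‖ ^ (2 * m) + δ := by
    refine hint.trans ?_
    have e1 : (‖eta ⟨x, y⟩‖ ^ 2) ^ m = ‖eta ⟨x, y⟩‖ ^ (2 * m) := (pow_mul _ 2 m).symm
    have e2 : 0 ≤ (‖eta ⟨x, 0⟩‖ ^ 2) ^ m := by positivity
    have e3 : 0 ≤ δ * (2 / Real.pi) * (Complex.log (cay (eta ⟨x, 0⟩))).im := by positivity
    have e4 : δ * (2 / Real.pi) * (Complex.log (cay (eta ⟨x, y⟩))).im ≤ δ := by
      have := mul_le_mul_of_nonneg_left hgy hδ.le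
      rw [mul_one, ← mul_assoc] at this
      exact this
    rw [e1]
    linarith
  rw [div_le_iff₀ hκ0, hκ] at hfin
  linarith

end Pool.Agent.H591.SV
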