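import Pool.Agent.H269.SV.Stm
import Pool.Graph.R_seed8.H712R2.MA.H1
import Pool.Graph.R_seed8.H712R2.MA.H2
import Pool.Graph.R_seed8.H712R2.MA.P

/-!
# SV-PDL (by helper44): the lens potential satisfies `PD`
-/

set_option autoImplicit false

open MeasureTheory Filter Topology Set
open scoped ContDiff Matrix

noncomputable section

namespace Pool.Agent.H44.SV

open H712MA (pk WW eta hd gg VV E2 Spans hh gf UU)
open Pool.Agent.H269.SV

theorem h2 : H712MA.S_H2 := H712MA.H2 H712MA.H1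

theorem norm_le_eta {p : ℂ} (hp : p ∈ WW) : ‖p‖ ≤ ‖eta p‖ := by
  obtain ⟨-, h, -⟩ := h2
  obtain ⟨h1, h3⟩ := h p hp
  have := H712MA.H1.2.2.2.2.1 (eta p) h1
  rwa [h3] at this

theorem eta_le {p : ℂ} (hp : p ∈ WW) : ‖eta p‖ ≤ Real.pi ^ 2 / 4 * ‖p‖ := by
  obtain ⟨-, h, -⟩ := h2
  obtain ⟨h1, h3⟩ := h p hp
  have h4 := H712MA.H1.2.2.2.2.2.2.2.1 (eta p) 0 h1 (by simp)
  rw [h3, H712MA.H2aux.hh_zero H712MA.H1, sub_zero, sub_zero] at h4
  have hpi : 0 < Real.pi ^ 2 := by positivity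
  rw [div_mul_eq_mul_div, div_le_iff₀ hpi] at h4
  rw [div_mul_eq_mul_div, le_div_iff₀ (by norm_num)]
  linarith

theorem pk_smul {n : ℕ} (v : Fin n → ℝ) (t : ℝ) (z : E2 n) : pk v (t • z) = (t : ℂ) * pk v z := by
  have := (H712MA.TaskP.pkL v).map_smul t z
  rw [Complex.real_smul] at this
  exact this

theorem pk_JJ {n : ℕ} (v : Fin n → ℝ) (z : E2 n) : pk v (JJ n z) = Complex.I * pk v z := by
  apply Complex.ext
  · simp [pk, dotProduct_neg]
  · simp [pk]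

theorem nsq_nonneg {n : ℕ} (z : E2 n) : 0 ≤ nsq z :=
  Finset.sum_nonneg fun i _ => by positivity

theorem nsq_le {n : ℕ} (z : E2 n) : nsq z ≤ 2 * n * ‖z‖ ^ 2 := by
  unfold nsq
  have h : ∀ i ∈ (Finset.univ : Finset (Fin n)), z.1 i ^ 2 + z.2 i ^ 2 ≤ 2 * ‖z‖ ^ 2 := by
    intro i _
    have h1 : |z.1 i| ≤ ‖z‖ := (norm_le_pi_norm z.1 i).trans (norm_fst_le z)
    have h2 : |z.2 i| ≤ ‖z‖ := (norm_le_pi_norm z.2 i).trans (norm_snd_le z)
    have h3 : z.1 i ^ 2 ≤ ‖z‖ ^ 2 := by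
      rw [← sq_abs]; exact pow_le_pow_left₀ (abs_nonneg _) h1 2
    have h4 : z.2 i ^ 2 ≤ ‖z‖ ^ 2 := by
      rw [← sq_abs]; exact pow_le_pow_left₀ (abs_nonneg _) h2 2
    linarith
  refine (Finset.sum_le_card_nsmul _ _ _ h).trans (le_of_eq ?_)
  rw [Finset.card_univ, Fintype.card_fin, nsmul_eq_mul]
  ring

theorem lower_lin {n : ℕ} {ι : Type} (l : ι → Fin n → ℝ) (hl : Spans l) :
    ∃ M > (0:ℝ), ∀ (z : E2 n) (R : ℝ), 0 ≤ R → (∀ k, ‖pk (l k) z‖ ≤ R) → nsq z ≤ M * R ^ 2 := by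
  obtain ⟨M0, hM0, hM⟩ := (H712MA.TaskP.bounded_of_spans l hl 1).exists_pos_norm_le
  have hpos : 0 < 2 * n * M0 ^ 2 + 1 := by positivity
  have key : ∀ (z : E2 n) (R : ℝ), 0 < R → (∀ k, ‖pk (l k) z‖ ≤ R) →
      nsq z ≤ (2 * n * M0 ^ 2 + 1) * R ^ 2 := by
    intro z R hR h
    have h1 : ‖R⁻¹ • z‖ ≤ M0 := by
      apply hM
      intro k
      rw [pk_smul, norm_mul, Complex.norm_real, norm_inv, Real.norm_of_nonneg hR.le,
        inv_mul_le_iff₀ hR, mul_one]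
      exact h k
    rw [norm_smul, norm_inv, Real.norm_of_nonneg hR.le, inv_mul_le_iff₀ hR] at h1
    have h2 : ‖z‖ ^ 2 ≤ (R * M0) ^ 2 := pow_le_pow_left₀ (norm_nonneg _) h1 2
    calc nsq z ≤ 2 * n * ‖z‖ ^ 2 := nsq_le z
      _ ≤ 2 * n * (R * M0) ^ 2 := by
        apply mul_le_mul_of_nonneg_left h2 (by positivity)
      _ ≤ _ := by nlinarith [sq_nonneg R]
  refine ⟨_, hpos, fun z R hR h => ?_⟩
  rcases hR.eq_or_lt with rfl | hR'
  · rw [show (0:ℝ) ^ 2 = 0 by norm_num, mul_zero]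
    by_contra hc
    push Not at hc
    have h3 := key z (Real.sqrt (nsq z / (2 * (2 * n * M0 ^ 2 + 1)))) (by positivity)
      (fun k => (h k).trans (Real.sqrt_nonneg _))
    rw [Real.sq_sqrt (by positivity), div_eq_mul_inv, mul_inv] at h3
    have h4 : (2 * n * M0 ^ 2 + 1) * (nsq z * (2⁻¹ * (2 * n * M0 ^ 2 + 1)⁻¹)) = nsq z / 2 := by
      field_simp
    rw [h4] at h3
    linarith
  · exact key z R hR' h

theorem pk_sq_le {n : ℕ} (v : Fin n → ℝ) (z : E2 n) : ‖pk v z‖ ^ 2 ≤ (∑ i, v i ^ 2) * nsq z := by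
  have h : ‖pk v z‖ ^ 2 = (v ⬝ᵥ z.1) ^ 2 + (v ⬝ᵥ z.2) ^ 2 := by
    rw [Complex.sq_norm, Complex.normSq_apply]
    simp [pk]
    ring
  have h1 : (v ⬝ᵥ z.1) ^ 2 ≤ (∑ i, v i ^ 2) * ∑ i, z.1 i ^ 2 :=
    Finset.sum_mul_sq_le_sq_mul_sq _ _ _
  have h2 : (v ⬝ᵥ z.2) ^ 2 ≤ (∑ i, v i ^ 2) * ∑ i, z.2 i ^ 2 :=
    Finset.sum_mul_sq_le_sq_mul_sq _ _ _
  rw [h]
  unfold nsq
  rw [Finset.sum_add_distrib, mul_add]
  exact add_le_add h1 h2

theorem PDL : S_PDL := by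
  intro L hW he n m ι _ l hn hm hl
  obtain ⟨-, hcpt, hoff, -, -, -, -, -⟩ := H712MA.P ι n L m hm l hl
  have hsub : ∀ z, VV L m l z < 1 → ∀ k, pk (l k) z ∈ WW := by
    intro z hz k
    by_contra hk
    have : z ∉ UU L l := fun h => hk (hW ▸ h k)
    exact absurd (hoff z this) (not_le.2 hz)
  have hVV : ∀ z, VV L m l z = ∑ j, ‖eta (pk (l j) z) ^ m‖ ^ 2 := by
    intro z
    unfold VV gf
    rw [he]
  have hVV' : ∀ z, VV L m l z = ∑ j, (‖eta (pk (l j) z)‖ ^ 2) ^ m := by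
    intro z
    rw [hVV z]
    refine Finset.sum_congr rfl fun j _ => ?_
    rw [norm_pow, ← pow_mul, ← pow_mul, mul_comm]
  have hne : Nonempty ι := by
    obtain ⟨f, -⟩ := hl
    exact ⟨f ⟨0, hn⟩⟩
  obtain ⟨M, hM0, hM⟩ := lower_lin l hl
  refine ⟨H712MA.TaskP.VV_cont L m l, H712MA.TaskP.VV_nonneg L m l, fun z _ => hVV z, ?_, ?_, hcpt,
    ?_, ?_⟩
  · intro j
    have h1 : ContDiffOn ℝ (⊤ : ℕ∞) (fun p => eta p ^ m) WW := by
      have := H712MA.TaskP.gf_contDiffOn L m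
      rw [hW] at this
      refine this.congr fun p _ => ?_
      unfold gf
      rw [he]
    exact h1.comp (H712MA.TaskP.pk_contDiff (l j)).contDiffOn fun z hz => hsub z hz j
  · intro j z hz v
    have hp := hsub z hz j
    have hd1 := (h2.2.2.2.2.1 _ hp).pow m
    have hd2 : HasFDerivAt (fun z : E2 n => pk (l j) z)
        (LinearMap.toContinuousLinearMap (H712MA.TaskP.pkL (l j))) z :=
      (LinearMap.toContinuousLinearMap (H712MA.TaskP.pkL (l j))).hasFDerivAt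
    have hd3 := (hd1.hasFDerivAt.restrictScalars ℝ).comp z hd2
    have hd4 : fderiv ℝ (fun z : E2 n => eta (pk (l j) z) ^ m) z = _ := hd3.fderiv
    rw [hd4]
    have e : ∀ w : E2 n, (LinearMap.toContinuousLinearMap (H712MA.TaskP.pkL (l j))) w
        = pk (l j) w := fun w => rfl
    simp only [ContinuousLinearMap.comp_apply, ContinuousLinearMap.coe_restrictScalars', e, pk_JJ,
      ContinuousLinearMap.toSpanSingleton_apply, smul_eq_mul]
    ring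
  · refine ⟨(M ^ m)⁻¹, by positivity, fun z hz => ?_⟩
    obtain ⟨k0, hk0⟩ := Finite.exists_max (fun k => ‖pk (l k) z‖)
    have h1 := hM z ‖pk (l k0) z‖ (norm_nonneg _) hk0
    have h3 : ‖pk (l k0) z‖ ^ 2 ≤ ‖eta (pk (l k0) z)‖ ^ 2 :=
      pow_le_pow_left₀ (norm_nonneg _) (norm_le_eta (hsub z hz k0)) 2
    have h4 : nsq z ≤ M * ‖eta (pk (l k0) z)‖ ^ 2 :=
      h1.trans (mul_le_mul_of_nonneg_left h3 hM0.le)
    have h5 : nsq z ^ m ≤ M ^ m * (‖eta (pk (l k0) z)‖ ^ 2) ^ m := by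
      rw [← mul_pow]
      exact pow_le_pow_left₀ (nsq_nonneg z) h4 m
    have h6 : (‖eta (pk (l k0) z)‖ ^ 2) ^ m ≤ VV L m l z := by
      rw [hVV']
      exact Finset.single_le_sum (f := fun j => (‖eta (pk (l j) z)‖ ^ 2) ^ m)
        (fun j _ => by positivity) (Finset.mem_univ k0)
    rw [inv_mul_le_iff₀ (by positivity)]
    exact h5.trans (mul_le_mul_of_nonneg_left h6 (by positivity))
  · obtain ⟨δ, hδ, hball⟩ := Metric.isOpen_iff.1 h2.1 0 (by
      have := L.zero_mem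
      rwa [hW] at this)
    set A : ℝ := ∑ k, ∑ i, l k i ^ 2 + 1 with hA
    have hA0 : 0 < A := by
      have : 0 ≤ ∑ k, ∑ i, l k i ^ 2 :=
        Finset.sum_nonneg fun k _ => Finset.sum_nonneg fun i _ => by positivity
      linarith
    have hpk : ∀ k (z : E2 n), ‖pk (l k) z‖ ^ 2 ≤ A * nsq z := by
      intro k z
      refine (pk_sq_le (l k) z).trans (mul_le_mul_of_nonneg_right ?_ (nsq_nonneg z))
      have : ∑ i, l k i ^ 2 ≤ ∑ k, ∑ i, l k i ^ 2 :=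
        Finset.single_le_sum (f := fun k => ∑ i, l k i ^ 2)
          (fun k _ => Finset.sum_nonneg fun i _ => by positivity) (Finset.mem_univ k)
      linarith
    set C : ℝ := Fintype.card ι * ((Real.pi ^ 2 / 4) ^ 2 * A) ^ m + 1 with hC
    have hC0 : 0 < C := by positivity
    refine ⟨C, hC0, min 1 (min (δ ^ 2 / A) (1 / C)), by positivity, fun z hz => ?_⟩
    rw [lt_min_iff, lt_min_iff, lt_div_iff₀ hA0, lt_div_iff₀ hC0] at hz
    obtain ⟨hz1, hz2, hz3⟩ := hz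
    have hWW : ∀ k, pk (l k) z ∈ WW := by
      intro k
      apply hball
      rw [mem_ball_zero_iff]
      have h3 : ‖pk (l k) z‖ ^ 2 < δ ^ 2 := (hpk k z).trans_lt (by linarith)
      exact lt_of_pow_lt_pow_left₀ 2 hδ.le h3
    have hup : VV L m l z ≤ C * nsq z ^ m := by
      rw [hVV']
      have h4 : ∀ j ∈ (Finset.univ : Finset ι), (‖eta (pk (l j) z)‖ ^ 2) ^ m ≤
          ((Real.pi ^ 2 / 4) ^ 2 * A) ^ m * nsq z ^ m := by
        intro j _
        rw [← mul_pow]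
        refine pow_le_pow_left₀ (by positivity) ?_ m
        calc ‖eta (pk (l j) z)‖ ^ 2 ≤ (Real.pi ^ 2 / 4 * ‖pk (l j) z‖) ^ 2 :=
              pow_le_pow_left₀ (norm_nonneg _) (eta_le (hWW j)) 2
          _ = (Real.pi ^ 2 / 4) ^ 2 * ‖pk (l j) z‖ ^ 2 := by ring
          _ ≤ (Real.pi ^ 2 / 4) ^ 2 * (A * nsq z) :=
              mul_le_mul_of_nonneg_left (hpk j z) (by positivity)
          _ = _ := by ring
      refine (Finset.sum_le_card_nsmul _ _ _ h4).trans ?_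
      rw [Finset.card_univ, nsmul_eq_mul, ← mul_assoc]
      refine mul_le_mul_of_nonneg_right ?_ (pow_nonneg (nsq_nonneg z) m)
      linarith
    refine ⟨hup.trans_lt ?_, hup⟩
    have h5 : nsq z ^ m ≤ nsq z := pow_le_of_le_one (nsq_nonneg z) hz1.le (by omega)
    calc C * nsq z ^ m ≤ C * nsq z := mul_le_mul_of_nonneg_left h5 hC0.le
      _ < 1 := by linarith

end Pool.Agent.H44.SV
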