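import Pool.Agent.H269.SV.Stm
import Pool.Graph.R_seed8.H66R2.RZ_Par

/-!
# Project SV (helper269): the vertical primitive of a smooth function is smooth (helper356)
-/

set_option autoImplicit false

open Set Filter Topology Metric MeasureTheory
open scoped ContDiff

noncomputable section

namespace Pool.Agent.H356.SV

open Pool.Agent.H269.SV

/-! ### the global case -/

theorem prim_contDiff (f : ℝ × ℝ → ℝ) (hf : ContDiff ℝ ∞ f) :
    ContDiff ℝ ∞ (fun p : ℝ × ℝ => ∫ t in (0 : ℝ)..p.2, f (p.1, t)) := by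
  have e : (fun p : ℝ × ℝ => ∫ t in (0 : ℝ)..p.2, f (p.1, t)) =
      fun p : ℝ × ℝ => p.2 * ∫ τ in (0 : ℝ)..1, f (p.1, 0 + p.2 * τ) := by
    funext p
    rw [← smul_eq_mul, intervalIntegral.smul_integral_comp_add_mul (fun t => f (p.1, t)) p.2 0]
    simp
  rw [e]
  have h1 : ContDiff ℝ ∞ (fun q : (ℝ × ℝ) × ℝ => f (q.1.1, 0 + q.1.2 * q.2)) := by
    refine hf.comp ?_
    fun_prop
  have h2 := Pool.Agent.H66R2.RZPar.contDiff_int 0 1 (ℝ × ℝ) ℝ
    (fun q : (ℝ × ℝ) × ℝ => f (q.1.1, 0 + q.1.2 * q.2)) h1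
  exact contDiff_snd.mul h2

theorem prim_deriv (f : ℝ × ℝ → ℝ) (hf : Continuous f) (x y : ℝ) :
    HasDerivAt (fun t => ∫ u in (0 : ℝ)..t, f (x, u)) (f (x, y)) y := by
  have hc : Continuous fun u => f (x, u) := by fun_prop
  exact (hc.integral_hasStrictDerivAt 0 y).hasDerivAt

/-- the map `w ↦ (w.re, w.im)` -/
def P : ℂ →L[ℝ] ℝ × ℝ := Complex.reCLM.prod Complex.imCLM

/-- the map `(x, y) ↦ x + i y` -/
def E : ℝ × ℝ →L[ℝ] ℂ := (Complex.equivRealProdCLM.symm : ℝ × ℝ →L[ℝ] ℂ)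

theorem E_apply (x y : ℝ) : E (x, y) = ⟨x, y⟩ := by
  simp [E, Complex.ext_iff]

theorem P_apply (w : ℂ) : P w = (w.re, w.im) := rfl

theorem global (ρ : ℂ → ℝ) (hρ : ContDiff ℝ ∞ ρ) :
    ContDiff ℝ ∞ (fun w : ℂ => ∫ t in (0 : ℝ)..w.im, ρ ⟨w.re, t⟩) ∧
    ∀ w, fderiv ℝ (fun w : ℂ => ∫ t in (0 : ℝ)..w.im, ρ ⟨w.re, t⟩) w Complex.I = ρ w := by
  have hf : ContDiff ℝ ∞ (fun p : ℝ × ℝ => ρ (E p)) := hρ.comp E.contDiff
  have h1 := prim_contDiff _ hf
  have e : (fun w : ℂ => ∫ t in (0 : ℝ)..w.im, ρ ⟨w.re, t⟩) =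
      fun w : ℂ => (fun p : ℝ × ℝ => ∫ t in (0 : ℝ)..p.2, ρ (E (p.1, t))) (P w) := by
    funext w
    simp only [P_apply, E_apply]
  rw [e]
  refine ⟨h1.comp P.contDiff, fun w => ?_⟩
  set Y : ℝ × ℝ → ℝ := fun p => ∫ t in (0 : ℝ)..p.2, ρ (E (p.1, t)) with hY
  have h2 : HasFDerivAt (fun w => Y (P w)) ((fderiv ℝ Y (P w)).comp P) w :=
    ((h1.differentiable (by simp)).differentiableAt.hasFDerivAt).comp w P.hasFDerivAt
  rw [h2.fderiv, ContinuousLinearMap.comp_apply]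
  have hv : P Complex.I = (0, 1) := by simp [P_apply]
  rw [hv]
  have h3 : HasDerivAt (fun t : ℝ => (w.re, t)) ((0 : ℝ), (1 : ℝ)) w.im :=
    (hasDerivAt_const _ _).prodMk (hasDerivAt_id _)
  have h4 : HasFDerivAt Y (fderiv ℝ Y (P w)) (w.re, w.im) :=
    (h1.differentiable (by simp)).differentiableAt.hasFDerivAt
  have h5 : HasDerivAt (fun t : ℝ => Y (w.re, t)) (fderiv ℝ Y (P w) (0, 1)) w.im :=
    h4.comp_hasDerivAt _ h3
  have h6 := prim_deriv (fun p => ρ (E p)) hf.continuous w.re w.im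
  rw [h5.unique h6, E_apply]

/-! ### cut-off -/

/-- a smooth function which is `1` for `t ^ 2 ≤ a ^ 2` and `0` for `b ^ 2 ≤ t ^ 2` -/
def cut (a b t : ℝ) : ℝ := Real.smoothTransition ((b ^ 2 - t ^ 2) / (b ^ 2 - a ^ 2))

theorem cut_contDiff (a b : ℝ) : ContDiff ℝ ∞ (cut a b) := by
  unfold cut
  refine Real.smoothTransition.contDiff.comp ?_
  fun_prop

theorem cut_one {a b t : ℝ} (ha : 0 ≤ a) (hab : a < b) (ht : |t| ≤ a) : cut a b t = 1 := by
  unfold cut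
  refine Real.smoothTransition.one_of_one_le ?_
  have h1 : t ^ 2 ≤ a ^ 2 := by
    rw [← sq_abs t]
    exact pow_le_pow_left₀ (abs_nonneg t) ht 2
  have h2 : a ^ 2 < b ^ 2 := pow_lt_pow_left₀ hab ha (by norm_num)
  rw [le_div_iff₀ (by linarith)]
  linarith

theorem cut_zero {a b t : ℝ} (ha : 0 ≤ a) (hab : a < b) (ht : b ≤ |t|) : cut a b t = 0 := by
  unfold cut
  refine Real.smoothTransition.zero_of_nonpos ?_
  have h1 : b ^ 2 ≤ t ^ 2 := by
    rw [← sq_abs t]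
    exact pow_le_pow_left₀ (by linarith) ht 2
  have h2 : a ^ 2 < b ^ 2 := pow_lt_pow_left₀ hab ha (by norm_num)
  exact div_nonpos_of_nonpos_of_nonneg (by linarith) (by linarith)

/-! ### the local statement -/

theorem local_prim (U : Set ℂ) (ρ : ℂ → ℝ) (hU : IsOpen U)
    (hs : ∀ x y y' : ℝ, (⟨x, y⟩ : ℂ) ∈ U → |y'| ≤ |y| → (⟨x, y'⟩ : ℂ) ∈ U)
    (hρ : ContDiffOn ℝ ∞ ρ U) (w₀ : ℂ) (hw : w₀ ∈ U) :
    ∃ ρ' : ℂ → ℝ, ContDiff ℝ ∞ ρ' ∧ ρ' w₀ = ρ w₀ ∧
      (fun w : ℂ => ∫ t in (0 : ℝ)..w.im, ρ ⟨w.re, t⟩) =ᶠ[𝓝 w₀]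
        fun w : ℂ => ∫ t in (0 : ℝ)..w.im, ρ' ⟨w.re, t⟩ := by
  -- a box
  set K : Set ℂ := (fun t : ℝ => (⟨w₀.re, t⟩ : ℂ)) '' Icc (-|w₀.im|) |w₀.im| with hK
  have hcont : Continuous fun t : ℝ => (⟨w₀.re, t⟩ : ℂ) := by
    have : (fun t : ℝ => (⟨w₀.re, t⟩ : ℂ)) = fun t => E (w₀.re, t) := by
      funext t
      rw [E_apply]
    rw [this]
    exact E.continuous.comp (by fun_prop)
  have hKc : IsCompact K := isCompact_Icc.image hcont
  have hKU : K ⊆ U := by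
    rintro _ ⟨t, ht, rfl⟩
    refine hs w₀.re w₀.im t ?_ (abs_le.2 ⟨ht.1, ht.2⟩)
    exact hw
  obtain ⟨ε, hε, hεU⟩ := hKc.exists_thickening_subset_open hU hKU
  set δ : ℝ := ε / 5 with hδ
  have hδ0 : 0 < δ := by positivity
  set A : ℝ := |w₀.im| with hA
  have hA0 : 0 ≤ A := abs_nonneg _
  -- the box is in `U`
  have hbox : ∀ w : ℂ, |w.re - w₀.re| ≤ 2 * δ → |w.im| ≤ A + 2 * δ → w ∈ U := by
    intro w h1 h2
    apply hεU
    rw [mem_thickening_iff]
    -- clamp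
    set t : ℝ := max (-A) (min A w.im) with ht
    have ht1 : t ∈ Icc (-A) A := ⟨le_max_left _ _, max_le (by linarith) (min_le_left _ _)⟩
    have ht2 : |w.im - t| ≤ 2 * δ := by
      rw [abs_le] at h2 ⊢
      rw [ht]
      rcases le_total A w.im with h | h
      · rw [min_eq_left h, max_eq_right (by linarith)]
        constructor <;> linarith
      · rw [min_eq_right h]
        rcases le_total (-A) w.im with h' | h'
        · rw [max_eq_right h']
          constructor <;> linarith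
        · rw [max_eq_left h']
          constructor <;> linarith
    refine ⟨⟨w₀.re, t⟩, ⟨t, ht1, rfl⟩, ?_⟩
    rw [dist_eq_norm]
    refine (Complex.norm_le_abs_re_add_abs_im _).trans_lt ?_
    simp only [Complex.sub_re, Complex.sub_im]
    have : ε = 5 * δ := by rw [hδ]; ring
    linarith
  set b : ℂ → ℝ := fun w => cut δ (2 * δ) (w.re - w₀.re) * cut (A + δ) (A + 2 * δ) w.im with hb
  have hbs : ContDiff ℝ ∞ b := by
    refine ContDiff.mul ?_ ?_
    · exact (cut_contDiff _ _).comp (Complex.reCLM.contDiff.sub contDiff_const)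
    · exact (cut_contDiff _ _).comp Complex.imCLM.contDiff
  have hb1 : ∀ w : ℂ, |w.re - w₀.re| ≤ δ → |w.im| ≤ A + δ → b w = 1 := by
    intro w h1 h2
    rw [hb]
    simp only
    rw [cut_one hδ0.le (by linarith) h1, cut_one (by linarith) (by linarith) h2, mul_one]
  have hb0 : ∀ w : ℂ, ¬ (|w.re - w₀.re| ≤ 2 * δ ∧ |w.im| ≤ A + 2 * δ) → b w = 0 := by
    intro w h
    rw [hb]
    simp only
    by_cases h1 : |w.re - w₀.re| ≤ 2 * δ
    · have h2 : A + 2 * δ ≤ |w.im| := by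
        by_contra h3
        exact h ⟨h1, by linarith⟩
      rw [cut_zero (by linarith) (by linarith) h2, mul_zero]
    · rw [cut_zero hδ0.le (by linarith) (by linarith), zero_mul]
  refine ⟨fun w => b w * ρ w, ?_, ?_, ?_⟩
  · rw [contDiff_iff_contDiffAt]
    intro w
    by_cases hwb : |w.re - w₀.re| ≤ 2 * δ ∧ |w.im| ≤ A + 2 * δ
    · exact hbs.contDiffAt.mul (hρ.contDiffAt (hU.mem_nhds (hbox w hwb.1 hwb.2)))
    · have ho : IsOpen {w : ℂ | ¬ (|w.re - w₀.re| ≤ 2 * δ ∧ |w.im| ≤ A + 2 * δ)} := by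
        rw [← isClosed_compl_iff]
        have : {w : ℂ | ¬ (|w.re - w₀.re| ≤ 2 * δ ∧ |w.im| ≤ A + 2 * δ)}ᶜ =
            {w : ℂ | |w.re - w₀.re| ≤ 2 * δ} ∩ {w : ℂ | |w.im| ≤ A + 2 * δ} := by
          ext w
          simp
        rw [this]
        exact (isClosed_le (by fun_prop) continuous_const).inter
          (isClosed_le (by fun_prop) continuous_const)
      have he : (fun w => b w * ρ w) =ᶠ[𝓝 w] fun _ => (0 : ℝ) := by
        filter_upwards [ho.mem_nhds hwb] with v hv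
        rw [hb0 v hv, zero_mul]
      exact contDiffAt_const.congr_of_eventuallyEq he
  · simp only
    rw [hb1 w₀ (by simp; exact hδ0.le) (by rw [← hA]; linarith), one_mul]
  · have ho : IsOpen ({w : ℂ | |w.re - w₀.re| < δ} ∩ {w : ℂ | |w.im| < A + δ}) :=
      (isOpen_lt (by fun_prop) continuous_const).inter (isOpen_lt (by fun_prop) continuous_const)
    have hm : w₀ ∈ {w : ℂ | |w.re - w₀.re| < δ} ∩ {w : ℂ | |w.im| < A + δ} := by
      refine ⟨?_, ?_⟩
      · simpa using hδ0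
      · simp only [Set.mem_ofPred_eq]
        rw [← hA]
        linarith
    filter_upwards [ho.mem_nhds hm] with w hw'
    refine intervalIntegral.integral_congr fun t ht => ?_
    have h1 : |w.re - w₀.re| < δ := hw'.1
    have h2 : |w.im| < A + δ := hw'.2
    have h3 : |t| ≤ |w.im| := by
      rcases le_total 0 w.im with h | h
      · rw [uIcc_of_le h] at ht
        rw [abs_of_nonneg ht.1, abs_of_nonneg h]
        exact ht.2
      · rw [uIcc_of_ge h] at ht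
        rw [abs_of_nonpos ht.2, abs_of_nonpos h]
        linarith [ht.1]
    rw [hb1 ⟨w.re, t⟩ h1.le (by simp only; linarith), one_mul]

theorem PRIM : S_PRIM := by
  intro U ρ hU hs hρ
  refine ⟨fun w hw => ?_, fun w hw => ?_⟩
  · obtain ⟨ρ', h1, -, h3⟩ := local_prim U ρ hU hs hρ w hw
    exact ((global ρ' h1).1.contDiffAt.congr_of_eventuallyEq h3).contDiffWithinAt
  · obtain ⟨ρ', h1, h2, h3⟩ := local_prim U ρ hU hs hρ w hw
    rw [h3.fderiv_eq, (global ρ' h1).2 w, h2]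

end Pool.Agent.H356.SV

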