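import Pool.Agent.H269.SV.Stm

/-! Job ZORN of project SV (helper269): a body which contains its double symplectic polar condition
contains the unit ball of a norm which is self-dual for the symplectic form. -/

set_option autoImplicit false

open MeasureTheory Filter Topology Set
open scoped ContDiff Matrix

noncomputable section

namespace Pool.Agent.H397.SV.ZORN

open H712MA (E2)
open Pool.Agent.Y52.SJ (std)
open Pool.Agent.H269.SV

variable {n : ℕ}

lemma std_add_right (v w w' : E2 n) : std v (w + w') = std v w + std v w' := by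
  unfold std
  rw [← Finset.sum_add_distrib]
  refine Finset.sum_congr rfl (fun i _ => ?_)
  simp only [Prod.fst_add, Prod.snd_add, Pi.add_apply]; ring

lemma std_smul_right (t : ℝ) (v w : E2 n) : std v (t • w) = t * std v w := by
  unfold std
  rw [Finset.mul_sum]
  refine Finset.sum_congr rfl (fun i _ => ?_)
  simp only [Prod.smul_fst, Prod.smul_snd, Pi.smul_apply, smul_eq_mul]; ring

lemma std_symm (v w : E2 n) : std v w = - std w v := by
  unfold std
  rw [← Finset.sum_neg_distrib]
  refine Finset.sum_congr rfl (fun i _ => ?_)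
  ring

lemma std_add_left (v v' w : E2 n) : std (v + v') w = std v w + std v' w := by
  rw [std_symm, std_add_right, std_symm w v, std_symm w v']; ring

lemma std_smul_left (t : ℝ) (v w : E2 n) : std (t • v) w = t * std v w := by
  rw [std_symm, std_smul_right, std_symm w v]; ring

lemma std_self (v : E2 n) : std v v = 0 := by
  have := std_symm v v; linarith

lemma std_neg_right (v w : E2 n) : std v (-w) = - std v w := by
  have := std_smul_right (-1) v w
  rw [neg_one_smul, neg_one_mul] at this; exact this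

lemma abs_std_symm (v w : E2 n) : |std v w| = |std w v| := by
  rw [std_symm, abs_neg]

/-- every linear functional is of the form `std a` -/
lemma rep (f : E2 n →ₗ[ℝ] ℝ) : ∃ a : E2 n, ∀ w, f w = std a w := by
  refine ⟨(fun i => f (0, Pi.single i 1), fun i => - f (Pi.single i 1, 0)), fun w => ?_⟩
  have h1 : w = ∑ i, (w.1 i • ((Pi.single i 1 : Fin n → ℝ), (0 : Fin n → ℝ)) +
      w.2 i • ((0 : Fin n → ℝ), (Pi.single i 1 : Fin n → ℝ))) := by
    rw [Finset.sum_add_distrib]
    refine Prod.ext ?_ ?_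
    · rw [Prod.fst_add, Prod.fst_sum, Prod.fst_sum]
      simp only [Prod.smul_fst, smul_zero, Finset.sum_const_zero, add_zero]
      funext j
      rw [Finset.sum_apply]
      simp [Pi.single_apply]
    · rw [Prod.snd_add, Prod.snd_sum, Prod.snd_sum]
      simp only [Prod.smul_snd, smul_zero, Finset.sum_const_zero, zero_add]
      funext j
      rw [Finset.sum_apply]
      simp [Pi.single_apply]
  conv_lhs => rw [h1]
  rw [map_sum]
  unfold std
  refine Finset.sum_congr rfl (fun i _ => ?_)
  rw [map_add, map_smul, map_smul, smul_eq_mul, smul_eq_mul]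
  ring

lemma abs_std_le (v w : E2 n) : |std v w| ≤ (2 * n * ‖v‖) * ‖w‖ := by
  unfold std
  refine (Finset.abs_sum_le_sum_abs _ _).trans ?_
  have : ∀ i ∈ (Finset.univ : Finset (Fin n)), |v.1 i * w.2 i - v.2 i * w.1 i| ≤ 2 * ‖v‖ * ‖w‖ := by
    intro i _
    have a1 : |v.1 i| ≤ ‖v‖ := (norm_le_pi_norm v.1 i).trans (norm_fst_le v)
    have a2 : |v.2 i| ≤ ‖v‖ := (norm_le_pi_norm v.2 i).trans (norm_snd_le v)
    have b1 : |w.1 i| ≤ ‖w‖ := (norm_le_pi_norm w.1 i).trans (norm_fst_le w)
    have b2 : |w.2 i| ≤ ‖w‖ := (norm_le_pi_norm w.2 i).trans (norm_snd_le w)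
    calc |v.1 i * w.2 i - v.2 i * w.1 i| ≤ |v.1 i * w.2 i| + |v.2 i * w.1 i| := abs_sub _ _
      _ = |v.1 i| * |w.2 i| + |v.2 i| * |w.1 i| := by rw [abs_mul, abs_mul]
      _ ≤ ‖v‖ * ‖w‖ + ‖v‖ * ‖w‖ := by gcongr
      _ = 2 * ‖v‖ * ‖w‖ := by ring
  refine (Finset.sum_le_sum this).trans ?_
  rw [Finset.sum_const, Finset.card_univ, Fintype.card_fin, nsmul_eq_mul]
  apply le_of_eq; ring

/-- the bipolar theorem -/
lemma bipolar (K : Set (E2 n)) (hc : IsCompact K) (hK : Convex ℝ K) (hs : ∀ v ∈ K, -v ∈ K)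
    (h0 : (0 : E2 n) ∈ K) : sp (sp K) ⊆ K := by
  intro v hv
  by_contra hvK
  obtain ⟨f, u, hu, huv⟩ := geometric_hahn_banach_closed_point hK hc.isClosed hvK
  have hu0 : 0 < u := by have := hu 0 h0; rwa [map_zero] at this
  obtain ⟨a, ha⟩ := rep ((u⁻¹ • f : E2 n →L[ℝ] ℝ) : E2 n →ₗ[ℝ] ℝ)
  have ha' : ∀ w, std a w = u⁻¹ * f w := by
    intro w; rw [← ha w]; rfl
  have hmem : a ∈ sp K := by
    intro w hw
    rw [ha', abs_mul, abs_of_pos (inv_pos.mpr hu0), inv_mul_le_iff₀ hu0, mul_one, abs_le]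
    refine ⟨?_, (hu w hw).le⟩
    have := (hu (-w) (hs w hw)).le
    rw [map_neg] at this; linarith
  have h1 := hv a hmem
  rw [abs_std_symm, ha', abs_mul, abs_of_pos (inv_pos.mpr hu0), inv_mul_le_iff₀ hu0, mul_one] at h1
  linarith [le_abs_self (f v)]

theorem ZORN : S_ZORN := by
  intro n K hc hK hs h0 hsp
  have h0K : (0 : E2 n) ∈ K := interior_subset h0
  -- a maximal isotropic-type set
  obtain ⟨M, hSM, hM⟩ := zorn_subset_nonempty {M : Set (E2 n) | ∀ v ∈ M, ∀ w ∈ M, |std v w| ≤ 1}
    (by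
      intro c hcS hchain hne
      refine ⟨⋃₀ c, ?_, fun s hs => subset_sUnion_of_mem hs⟩
      intro v hv w hw
      obtain ⟨A, hA, hvA⟩ := hv
      obtain ⟨B, hB, hwB⟩ := hw
      rcases hchain.total hA hB with h | h
      · exact hcS hB v (h hvA) w hwB
      · exact hcS hA v hvA w (h hwB)) (sp K) hsp
  have hMM : ∀ v ∈ M, ∀ w ∈ M, |std v w| ≤ 1 := hM.prop
  have hspM : sp M ⊆ M := by
    intro z hz
    have h1 : insert z M ∈ {M : Set (E2 n) | ∀ v ∈ M, ∀ w ∈ M, |std v w| ≤ 1} := by
      intro v hv w hw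
      rcases hv with rfl | hv
      · rcases hw with rfl | hw
        · rw [std_self, abs_zero]; exact zero_le_one
        · exact hz w hw
      · rcases hw with rfl | hw
        · rw [abs_std_symm]; exact hz v hv
        · exact hMM v hv w hw
    exact hM.le_of_ge h1 (subset_insert z M) (mem_insert z M)
  have hMK : M ⊆ K := by
    intro v hv
    refine bipolar K hc hK hs h0K ?_
    intro w hw
    exact hMM v hv w (hSM hw)
  -- boundedness
  obtain ⟨R, hR0, hR⟩ : ∃ R : ℝ, 0 < R ∧ ∀ v ∈ K, ‖v‖ ≤ R := by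
    obtain ⟨R, hR⟩ := hc.isBounded.exists_norm_le
    exact ⟨max R 1, lt_max_of_lt_right one_pos, fun v hv => (hR v hv).trans (le_max_left _ _)⟩
  have h0M : (0 : E2 n) ∈ M := by
    refine hSM (fun w _ => ?_)
    have := std_smul_left 0 (0 : E2 n) w
    rw [zero_smul, zero_mul] at this
    rw [this, abs_zero]; exact zero_le_one
  haveI : Nonempty M := ⟨⟨0, h0M⟩⟩
  have hbdd : ∀ v : E2 n, BddAbove (range fun w : M => |std v (w : E2 n)|) := by
    intro v
    refine ⟨2 * n * ‖v‖ * R, ?_⟩
    rintro _ ⟨w, rfl⟩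
    exact (abs_std_le v w).trans (mul_le_mul_of_nonneg_left (hR w (hMK w.2)) (by positivity))
  set h : E2 n → ℝ := fun v => ⨆ w : M, |std v (w : E2 n)| with hh
  have hle : ∀ (v w : E2 n), w ∈ M → |std v w| ≤ h v := fun v w hw => le_ciSup (hbdd v) ⟨w, hw⟩
  have hsup : ∀ (v : E2 n) (C : ℝ), (∀ w ∈ M, |std v w| ≤ C) → h v ≤ C := fun v C hC =>
    ciSup_le (fun w => hC w w.2)
  have hnn : ∀ v, 0 ≤ h v := fun v => (abs_nonneg _).trans (hle v 0 h0M)
  have hmem : ∀ v, h v ≤ 1 → v ∈ M := fun v hv => hspM (fun w hw => (hle v w hw).trans hv)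
  have hmem' : ∀ v ∈ M, h v ≤ 1 := fun v hv => hsup v 1 (fun w hw => hMM v hv w hw)
  have hsmul : ∀ (t : ℝ) v, h (t • v) = |t| * h v := by
    intro t v
    have e : ∀ w : M, |std (t • v) (w : E2 n)| = |t| * |std v (w : E2 n)| := by
      intro w; rw [std_smul_left, abs_mul]
    simp only [hh, e]
    rw [Real.mul_iSup_of_nonneg (abs_nonneg t)]
  have hpos : ∀ v, v ≠ 0 → 0 < h v := by
    intro v hv
    -- some w with std v w ≠ 0
    obtain ⟨w, hw⟩ : ∃ w, std v w ≠ 0 := by
      by_contra hcon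
      push Not at hcon
      apply hv
      refine Prod.ext ?_ ?_
      · funext i
        have := hcon (0, Pi.single i 1)
        unfold std at this
        simpa [Pi.single_apply] using this
      · funext i
        have := hcon (Pi.single i 1, 0)
        unfold std at this
        simpa [Pi.single_apply] using this
    set t : ℝ := (2 * n * ‖w‖ * R + 1)⁻¹ with ht
    have hden : 0 < 2 * n * ‖w‖ * R + 1 := by positivity
    have htpos : 0 < t := inv_pos.mpr hden
    have htw : t • w ∈ M := by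
      refine hSM (fun u hu => ?_)
      rw [std_smul_left, abs_mul, abs_of_pos htpos, ht, inv_mul_le_iff₀ hden, mul_one]
      refine (abs_std_le w u).trans ?_
      have := mul_le_mul_of_nonneg_left (hR u hu) (by positivity : (0:ℝ) ≤ 2 * n * ‖w‖)
      linarith
    have h1 := hle v _ htw
    rw [std_smul_right, abs_mul] at h1
    exact lt_of_lt_of_le (mul_pos (abs_pos.mpr htpos.ne') (abs_pos.mpr hw)) h1
  refine ⟨h, ⟨hnn, hpos, ?_, hsmul, ?_, ?_⟩, fun v hv => hMK (hmem v hv)⟩
  · intro v w
    refine hsup _ _ (fun u hu => ?_)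
    rw [std_add_left]
    exact (abs_add_le _ _).trans (add_le_add (hle v u hu) (hle w u hu))
  · intro v w
    by_cases hw : w = 0
    · subst hw
      have := std_smul_right 0 v (0 : E2 n)
      rw [zero_smul, zero_mul] at this
      rw [this, abs_zero]
      exact mul_nonneg (hnn _) (hnn _)
    · have hw0 := hpos w hw
      have hm : (h w)⁻¹ • w ∈ M := by
        refine hmem _ ?_
        rw [hsmul, abs_of_pos (inv_pos.mpr hw0), inv_mul_cancel₀ hw0.ne']
      have h1 := hle v _ hm
      rw [std_smul_right, abs_mul, abs_of_pos (inv_pos.mpr hw0), inv_mul_le_iff₀ hw0] at h1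
      rwa [mul_comm]
  · intro v C hC hvC
    refine hsup _ _ (fun w hw => ?_)
    have hw1 := hmem' w hw
    rw [abs_le]
    constructor
    · have h1 := hvC (-w)
      rw [std_neg_right] at h1
      have h2 : h (-w) = h w := by
        have := hsmul (-1) w
        rwa [neg_one_smul, abs_neg, abs_one, one_mul] at this
      rw [h2] at h1
      nlinarith [mul_le_mul_of_nonneg_left hw1 hC]
    · have h1 := hvC w
      nlinarith [mul_le_mul_of_nonneg_left hw1 hC]

end Pool.Agent.H397.SV.ZORN
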