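import Pool.Agent.H269.SV.Fin
import Pool.Agent.H269.SV.BALL
import Pool.Agent.H269.SV.CHAIN
import Pool.Agent.H269.SV.CYL
import Pool.Agent.H269.SV.DSUM
import Pool.Agent.H269.SV.EST
import Pool.Agent.H269.SV.FMAP
import Pool.Agent.H269.SV.LAP
import Pool.Agent.H269.SV.LEVI
import Pool.Agent.H269.SV.MOSER
import Pool.Agent.H269.SV.MU
import Pool.Agent.H269.SV.NET
import Pool.Agent.H269.SV.ONE
import Pool.Agent.H269.SV.PDL
import Pool.Agent.H269.SV.PRIM
import Pool.Agent.H269.SV.POLE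
import Pool.Agent.H269.SV.THETA
import Pool.Agent.H269.SV.ZORN

/-!
# Project SV: assembling the parts
-/

set_option autoImplicit false

namespace Pool.Agent.H269.SV

theorem inp : Inp where
  est := Pool.Agent.H264.SV.EST
  one := Pool.Agent.H591.SV.ONE
  prim := Pool.Agent.H356.SV.PRIM
  lap := Pool.Agent.H199.SV.LAP
  dsum := Pool.Agent.H399.SV.DSUM
  fmap := Pool.Agent.H860.SV.FMAP
  moser := Pool.Agent.H287.SV.MOSER
  ball := Pool.Agent.H343.SV.BALL
  theta := Pool.Agent.H100.SV.THETA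
  mu := MU
  levi := Pool.Agent.H155.SV.LEVI
  pole := Pool.Agent.H287.SV.PL.POLE
  pdl := Pool.Agent.H44.SV.PDL

/-- every ball of capacity less than `4` embeds in the product of a symmetric convex body and its
polar -/
theorem core : S_CORE := CORE inp Pool.Agent.H44.SV.Net.NET

/-- the comparison of capacities for centrally symmetric domains -/
theorem symm_seven (n : ℕ) (K : Set (H712MA.E2 (n + 1))) (hKo : IsOpen K) (hKc : Convex ℝ K)
    (hKb : Bornology.IsBounded K) (hKn : K.Nonempty) (hKs : ∀ x ∈ K, -x ∈ K) :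
    Pool.Agent.Y52.SJ.cylCapacity K ≤ ENNReal.ofReal 7 * Pool.Agent.Y52.SJ.gromovWidth K :=
  symm core Pool.Agent.H601.SV.CHAIN Pool.Agent.H397.SV.ZORN.ZORN Pool.Agent.H282.SV.CYL n K
    hKo hKc hKb hKn hKs

end Pool.Agent.H269.SV
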