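import Pool.Agent.H269.SV.Stm
import Pool.Graph.R_seed8.H712R2.MA.P
import Pool.Graph.R_seed8.H712R2.MA.H1
import Pool.Graph.R_seed8.H712R2.MA.H2
import Pool.Graph.R_seed8.H712R2.MA.H3
import Pool.Graph.R_seed8.H712R2.MA.H4

/-!
# Project SV: auxiliary lemmas for the assembly
-/

set_option autoImplicit false

open MeasureTheory Filter Topology Set
open scoped ContDiff Matrix

noncomputable section

namespace Pool.Agent.H269.SV

open H712MA (pk WW eta hd gg VV E2 Spans)
open Pool.Agent.Y52.SJ (std SympEmb ball cyl gromovWidth cylCapacity)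

theorem isOpen_ball' (n : ℕ) (r : ℝ) : IsOpen (ball n r) := by
  have : Continuous fun z : E2 n => ∑ i, (z.1 i ^ 2 + z.2 i ^ 2) := by fun_prop
  exact isOpen_lt this continuous_const

theorem JJ_JJ {n : ℕ} (v : E2 n) : JJ n (JJ n v) = -v := by
  ext i <;> simp

theorem levi_eq_ddc {n : ℕ} (f : E2 n → ℝ) (z v : E2 n) : levi f z v = ddc f z v (JJ n v) := by
  unfold levi ddc
  rw [JJ_JJ]
  simp
  ring

theorem levi_congr {n : ℕ} {f g : E2 n → ℝ} {z : E2 n} (h : f =ᶠ[𝓝 z] g) (v : E2 n) :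
    levi f z v = levi g z v := by
  have h1 : fderiv ℝ f =ᶠ[𝓝 z] fderiv ℝ g := h.fderiv
  unfold levi
  rw [h1.fderiv_eq]

theorem ddc_congr {n : ℕ} {f g : E2 n → ℝ} {z : E2 n} (h : f =ᶠ[𝓝 z] g) (u v : E2 n) :
    ddc f z u v = ddc g z u v := by
  have h1 : fderiv ℝ f =ᶠ[𝓝 z] fderiv ℝ g := h.fderiv
  unfold ddc
  rw [h1.fderiv_eq]

theorem std_smul {n : ℕ} (a b : ℝ) (u v : E2 n) : std (a • u) (b • v) = a * b * std u v := by
  unfold std
  rw [Finset.mul_sum]
  refine Finset.sum_congr rfl fun i _ => ?_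
  simp only [Prod.smul_fst, Prod.smul_snd, Pi.smul_apply, smul_eq_mul]
  ring

/-- composition with a conformally symplectic map -/
theorem emb_conf {n : ℕ} {r q : ℝ} {W W' : Set (E2 n)} (hq : 0 < q)
    (h : SympEmb (ball n r) W) (T : E2 n → E2 n) (hT : ContDiff ℝ ∞ T)
    (hi : InjOn T W) (hm : MapsTo T W W')
    (hs : ∀ z ∈ W, ∀ u v, std (fderiv ℝ T z u) (fderiv ℝ T z v) = q * std u v) :
    SympEmb (ball n (Real.sqrt q * r)) W' := by
  obtain ⟨φ, hφ, hφi, hφm, hφs⟩ := h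
  have hsq : 0 < Real.sqrt q := Real.sqrt_pos.2 hq
  set a : ℝ := (Real.sqrt q)⁻¹ with ha
  have ha0 : 0 < a := inv_pos.2 hsq
  have hmem : ∀ z ∈ ball n (Real.sqrt q * r), a • z ∈ ball n r := by
    intro z hz
    change ∑ i, ((a • z).1 i ^ 2 + (a • z).2 i ^ 2) < r ^ 2
    have hz' : ∑ i, (z.1 i ^ 2 + z.2 i ^ 2) < (Real.sqrt q * r) ^ 2 := hz
    have e : ∑ i, ((a • z).1 i ^ 2 + (a • z).2 i ^ 2) = a ^ 2 * ∑ i, (z.1 i ^ 2 + z.2 i ^ 2) := by
      rw [Finset.mul_sum]
      refine Finset.sum_congr rfl fun i _ => ?_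
      simp only [Prod.smul_fst, Prod.smul_snd, Pi.smul_apply, smul_eq_mul]
      ring
    rw [e]
    calc a ^ 2 * ∑ i, (z.1 i ^ 2 + z.2 i ^ 2) < a ^ 2 * (Real.sqrt q * r) ^ 2 :=
          mul_lt_mul_of_pos_left hz' (by positivity)
      _ = (a * Real.sqrt q) ^ 2 * r ^ 2 := by ring
      _ = r ^ 2 := by rw [ha, inv_mul_cancel₀ hsq.ne']; ring
  have hsm : ContDiff ℝ ∞ (fun z : E2 n => a • z) := by fun_prop
  refine ⟨fun z => T (φ (a • z)), ?_, ?_, ?_, ?_⟩
  · exact hT.comp_contDiffOn (hφ.comp hsm.contDiffOn hmem)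
  · intro x hx y hy hxy
    have h1 := hi (hφm (hmem x hx)) (hφm (hmem y hy)) hxy
    have h2 := hφi (hmem x hx) (hmem y hy) h1
    exact smul_right_injective _ ha0.ne' h2
  · exact fun z hz => hm (hφm (hmem z hz))
  · intro z hz u v
    have hz' := hmem z hz
    have hd1 : DifferentiableAt ℝ φ (a • z) :=
      (hφ.contDiffAt ((isOpen_ball' n r).mem_nhds hz')).differentiableAt (by simp)
    have hd2 : DifferentiableAt ℝ T (φ (a • z)) := hT.differentiable (by simp) _
    have hd0 : HasFDerivAt (fun z : E2 n => a • z) (a • ContinuousLinearMap.id ℝ (E2 n)) z :=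
      (hasFDerivAt_id z).const_smul a
    have hd : HasFDerivAt (fun z => T (φ (a • z)))
        ((fderiv ℝ T (φ (a • z))).comp ((fderiv ℝ φ (a • z)).comp
          (a • ContinuousLinearMap.id ℝ (E2 n)))) z :=
      hd2.hasFDerivAt.comp z (hd1.hasFDerivAt.comp z hd0)
    rw [hd.fderiv]
    simp only [ContinuousLinearMap.comp_apply, ContinuousLinearMap.smul_apply,
      ContinuousLinearMap.id_apply]
    rw [hs _ (hφm hz'), hφs _ hz', std_smul]
    have : a * Real.sqrt q = 1 := by rw [ha, inv_mul_cancel₀ hsq.ne']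
    have h2 : q * (a * a) = 1 := by
      calc q * (a * a) = (Real.sqrt q * Real.sqrt q) * (a * a) := by
            rw [Real.mul_self_sqrt hq.le]
        _ = (a * Real.sqrt q) ^ 2 := by ring
        _ = 1 := by rw [this]; norm_num
    rw [← mul_assoc, h2, one_mul]

/-- cut-off functions depending on a continuous function which is smooth on a sublevel set -/
theorem exists_cut {E : Type} [NormedAddCommGroup E] [NormedSpace ℝ E] {P : E → ℝ} {s t t' : ℝ}
    (hP : Continuous P) (hPs : ContDiffOn ℝ ∞ P {z | P z < s}) (h1 : t < t') (h2 : t' < s) :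
    ∃ χ : E → ℝ, (∀ z, P z ≤ t → χ z = 1) ∧ (∀ z, t' ≤ P z → χ z = 0) ∧
      ∀ f : E → ℝ, ContDiffOn ℝ ∞ f {z | P z < s} → ContDiff ℝ ∞ fun z => χ z * f z := by
  have hpos : 0 < t' - t := by linarith
  refine ⟨fun z => Real.smoothTransition ((t' - P z) / (t' - t)), ?_, ?_, ?_⟩
  · intro z hz
    refine Real.smoothTransition.one_of_one_le ?_
    rw [le_div_iff₀ hpos]
    linarith
  · intro z hz
    refine Real.smoothTransition.zero_of_nonpos ?_
    exact div_nonpos_of_nonpos_of_nonneg (by linarith) hpos.le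
  · intro f hf
    rw [contDiff_iff_contDiffAt]
    intro z
    by_cases hz : P z < s
    · have ho : IsOpen {z | P z < s} := isOpen_lt hP continuous_const
      have e1 : ContDiffAt ℝ ∞ P z := hPs.contDiffAt (ho.mem_nhds hz)
      have e2 : ContDiffAt ℝ ∞ f z := hf.contDiffAt (ho.mem_nhds hz)
      exact (Real.smoothTransition.contDiffAt.comp z
        ((contDiffAt_const.sub e1).div_const _)).mul e2
    · have ho : IsOpen {z | t' < P z} := isOpen_lt continuous_const hP
      have hz' : z ∈ {z | t' < P z} := by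
        push Not at hz
        exact lt_of_lt_of_le h2 hz
      have : (fun z => Real.smoothTransition ((t' - P z) / (t' - t)) * f z) =ᶠ[𝓝 z] fun _ => 0 := by
        filter_upwards [ho.mem_nhds hz'] with y hy
        have hy' : t' < P y := hy
        rw [Real.smoothTransition.zero_of_nonpos
          (div_nonpos_of_nonpos_of_nonneg (by linarith) hpos.le), zero_mul]
      exact contDiffAt_const.congr_of_eventuallyEq this

theorem pk_re {n : ℕ} (v : Fin n → ℝ) (z : E2 n) : (pk v z).re = v ⬝ᵥ z.1 := rfl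
theorem pk_im {n : ℕ} (v : Fin n → ℝ) (z : E2 n) : (pk v z).im = v ⬝ᵥ z.2 := rfl

/-- the lens -/
theorem exists_lens : ∃ L : H712MA.Lens, L.W = WW ∧ L.e = eta :=
  (H712MA.H2 H712MA.H1).2.2.2.2.2.2.2.2.2

theorem spans_pos {n : ℕ} {ι : Type} {l : ι → Fin n → ℝ} (hl : Spans l)
    {v : Fin n → ℝ} (hv : ∀ k, l k ⬝ᵥ v = 0) : v = 0 := by
  obtain ⟨f, hf⟩ := hl
  apply Matrix.eq_zero_of_mulVec_eq_zero hf
  funext i
  simp only [Matrix.mulVec, Matrix.of_apply, Pi.zero_apply]
  exact hv (f i)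

end Pool.Agent.H269.SV
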