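import Pool.Agent.H269.SV.Core1

/-!
# Project SV: balls in the Lagrangian product of a symmetric polytope and its polar
-/

set_option autoImplicit false

open MeasureTheory Filter Topology Set
open scoped ContDiff Matrix

noncomputable section

namespace Pool.Agent.H269.SV

open H712MA (pk WW eta hd gg VV E2 Spans)
open Pool.Agent.Y52.SJ (std SympEmb ball cyl gromovWidth cylCapacity)

/-! ### one variable -/

theorem star_WW (x y y' : ℝ) (h : (⟨x, y⟩ : ℂ) ∈ WW) (hy : |y'| ≤ |y|) : (⟨x, y'⟩ : ℂ) ∈ WW :=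
  ((H712MA.H4 H712MA.H1 (H712MA.H2 H712MA.H1) H712MA.H3).1 x y y' h hy).1

theorem open_WW : IsOpen WW := (H712MA.H2 H712MA.H1).1

theorem eta_lt {w : ℂ} (hw : w ∈ WW) : ‖eta w‖ < 1 := ((H712MA.H2 H712MA.H1).2.1 w hw).1

theorem eta_off {w : ℂ} (hw : w ∉ WW) : eta w = 1 := (H712MA.H2 H712MA.H1).2.2.2.1 w hw

theorem hasDerivAt_eta {w : ℂ} (hw : w ∈ WW) : HasDerivAt eta (1 / hd (eta w)) w :=
  (H712MA.H2 H712MA.H1).2.2.2.2.1 w hw

theorem norm_WW {w : ℂ} (hw : w ∈ WW) : ‖w‖ < 1 := (H712MA.H2 H712MA.H1).2.2.2.2.2.1 w hw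

theorem eta_conj {w : ℂ} (hw : w ∈ WW) :
    starRingEnd ℂ w ∈ WW ∧ eta (starRingEnd ℂ w) = starRingEnd ℂ (eta w) :=
  (H712MA.H2 H712MA.H1).2.2.2.2.2.2.1 w hw

/-- `|η|^(2m)` -/
def pp (m : ℕ) (w : ℂ) : ℝ := ‖eta w ^ m‖ ^ 2

theorem pp_eq (m : ℕ) (w : ℂ) : pp m w = ‖eta w‖ ^ (2 * m) := by
  unfold pp
  rw [norm_pow, ← pow_mul, mul_comm]

theorem pp_smooth (hLAP : S_LAP) (m : ℕ) : ContDiffOn ℝ ∞ (pp m) WW ∧
    ∀ w ∈ WW, lap (pp m) w = dens m w := by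
  have hd' : DifferentiableOn ℂ (fun w => eta w ^ m) WW := fun w hw =>
    ((hasDerivAt_eta hw).differentiableAt.pow m).differentiableWithinAt
  obtain ⟨h1, h2⟩ := hLAP WW (fun w => eta w ^ m) open_WW hd'
  refine ⟨h1, fun w hw => ?_⟩
  have h3 := h2 w hw
  rw [((hasDerivAt_eta hw).fun_pow m).deriv] at h3
  change lap (fun w => ‖eta w ^ m‖ ^ 2) w = _
  rw [h3]
  unfold dens
  rw [norm_mul, norm_mul, norm_pow, norm_div, norm_one, Complex.norm_natCast]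
  ring

theorem lap_smooth {U : Set ℂ} (hU : IsOpen U) {p : ℂ → ℝ} (hp : ContDiffOn ℝ ∞ p U) :
    ContDiffOn ℝ ∞ (lap p) U := by
  have h1 : ContDiffOn ℝ ∞ (fderiv ℝ p) U := hp.fderiv_of_isOpen hU (by simp)
  have h2 : ContDiffOn ℝ ∞ (fderiv ℝ (fderiv ℝ p)) U := h1.fderiv_of_isOpen hU (by simp)
  exact ((h2.clm_apply contDiffOn_const).clm_apply contDiffOn_const).add
    ((h2.clm_apply contDiffOn_const).clm_apply contDiffOn_const)

theorem dens_nonneg (m : ℕ) (w : ℂ) : 0 ≤ dens m w := by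
  unfold dens; positivity

theorem dens_conj (m : ℕ) (x t : ℝ) (h : (⟨x, t⟩ : ℂ) ∈ WW) :
    dens m ⟨x, -t⟩ = dens m ⟨x, t⟩ := by
  have e : (⟨x, -t⟩ : ℂ) = starRingEnd ℂ (⟨x, t⟩ : ℂ) := by
    apply Complex.ext <;> simp
  obtain ⟨h1, h2⟩ := eta_conj h
  have h3 : hd (starRingEnd ℂ (eta ⟨x, t⟩)) = starRingEnd ℂ (hd (eta ⟨x, t⟩)) :=
    H712MA.H1.2.2.2.1 _
  unfold dens
  rw [e, h2, h3, RCLike.norm_conj, RCLike.norm_conj]

/-- the vertical primitive of a density -/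
def vprim (ρ : ℂ → ℝ) (w : ℂ) : ℝ := ∫ t in (0 : ℝ)..w.im, ρ ⟨w.re, t⟩

/-- the estimate for the second component of the map -/
theorem vprim_bound (hE : S_EST) (hONE : S_ONE) {ε δ τ : ℝ} (hε : 0 < ε) (hδ : 0 < δ)
    (hτ : 0 < τ) : ∃ M : ℕ, ∀ m : ℕ, M ≤ m → 1 ≤ m → ∀ ρ : ℂ → ℝ,
      (∀ w ∈ WW, ρ w = dens m w / ((1 + ε) * Real.pi * m) + τ) → ∀ w ∈ WW,
      |vprim ρ w| ≤ pp m w + δ + τ := by
  obtain ⟨M, hM⟩ := hONE hE ε hε δ hδ
  refine ⟨M, fun m hm hm1 ρ hρ w hw => ?_⟩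
  have hκ : 0 < (1 + ε) * Real.pi * m := by
    have : (0 : ℝ) < m := by exact_mod_cast hm1
    have := Real.pi_pos
    positivity
  set κ : ℝ := (1 + ε) * Real.pi * m with hκdef
  -- the value on the upper half
  have key : ∀ x y : ℝ, (⟨x, y⟩ : ℂ) ∈ WW → 0 ≤ y → 
      0 ≤ ∫ t in (0 : ℝ)..y, ρ ⟨x, t⟩ ∧ ∫ t in (0 : ℝ)..y, ρ ⟨x, t⟩ ≤ pp m ⟨x, y⟩ + δ + τ := by
    intro x y hxy hy
    have hin : ∀ t ∈ Icc (0 : ℝ) y, (⟨x, t⟩ : ℂ) ∈ WW := fun t ht =>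
      star_WW x y t hxy (by rw [abs_of_nonneg ht.1, abs_of_nonneg hy]; exact ht.2)
    have e1 : ∫ t in (0 : ℝ)..y, ρ ⟨x, t⟩ =
        ∫ t in (0 : ℝ)..y, (κ⁻¹ * dens m ⟨x, t⟩ + τ) := by
      refine intervalIntegral.integral_congr fun t ht => ?_
      rw [uIcc_of_le hy] at ht
      change ρ ⟨x, t⟩ = _
      rw [hρ _ (hin t ht)]
      ring
    have hnn : 0 ≤ ∫ t in (0 : ℝ)..y, ρ ⟨x, t⟩ := by
      rw [e1]
      refine intervalIntegral.integral_nonneg hy fun t _ => ?_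
      have := dens_nonneg m ⟨x, t⟩
      positivity
    refine ⟨hnn, ?_⟩
    have hy1 : y ≤ 1 := by
      have h1 := norm_WW hxy
      have h2 : |(⟨x, y⟩ : ℂ).im| ≤ ‖(⟨x, y⟩ : ℂ)‖ := Complex.abs_im_le_norm _
      change |y| ≤ _ at h2
      rw [abs_of_nonneg hy] at h2
      linarith
    have hb := hM m hm x y hxy hy
    by_cases hi : IntervalIntegrable (fun t => dens m ⟨x, t⟩) volume 0 y
    · rw [e1, intervalIntegral.integral_add (hi.const_mul _) (by simp),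
        intervalIntegral.integral_const_mul, intervalIntegral.integral_const, smul_eq_mul,
        sub_zero]
      have h3 : κ⁻¹ * ∫ t in (0 : ℝ)..y, dens m ⟨x, t⟩ ≤ pp m ⟨x, y⟩ + δ := by
        rw [inv_mul_le_iff₀ hκ, pp_eq]
        exact hb
      nlinarith
    · have h3 : ¬ IntervalIntegrable (fun t => κ⁻¹ * dens m ⟨x, t⟩ + τ) volume 0 y := by
        intro h4
        apply hi
        have h5 := (h4.sub (intervalIntegrable_const (c := τ))).const_mul κ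
        refine h5.congr fun t _ => ?_
        change κ * (κ⁻¹ * dens m ⟨x, t⟩ + τ - τ) = dens m ⟨x, t⟩
        rw [add_sub_cancel_right, ← mul_assoc, mul_inv_cancel₀ hκ.ne', one_mul]
      rw [e1, intervalIntegral.integral_undef h3]
      have : 0 ≤ pp m ⟨x, y⟩ := by unfold pp; positivity
      linarith
  obtain ⟨x, y⟩ := w
  rcases le_total 0 y with hy | hy
  · obtain ⟨h1, h2⟩ := key x y hw hy
    change |∫ t in (0 : ℝ)..y, ρ ⟨x, t⟩| ≤ _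
    rw [abs_of_nonneg h1]
    exact h2
  · -- reflect
    have hw' : (⟨x, -y⟩ : ℂ) ∈ WW := star_WW x y (-y) hw (by rw [abs_neg])
    obtain ⟨h1, h2⟩ := key x (-y) hw' (by linarith)
    have e2 : ∫ t in (0 : ℝ)..y, ρ ⟨x, t⟩ = - ∫ t in (0 : ℝ)..(-y), ρ ⟨x, t⟩ := by
      have e3 : ∫ t in (0 : ℝ)..y, ρ ⟨x, t⟩ = ∫ t in (0 : ℝ)..y, ρ ⟨x, -t⟩ := by
        refine intervalIntegral.integral_congr fun t ht => ?_
        rw [uIcc_of_ge hy] at ht
        have ht' : (⟨x, t⟩ : ℂ) ∈ WW := star_WW x y t hw (by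
          rw [abs_of_nonpos ht.2, abs_of_nonpos hy]; linarith [ht.1])
        have ht'' : (⟨x, -t⟩ : ℂ) ∈ WW := star_WW x t (-t) ht' (by rw [abs_neg])
        change ρ ⟨x, t⟩ = ρ ⟨x, -t⟩
        rw [hρ _ ht', hρ _ ht'', dens_conj m x t ht']
      rw [e3, intervalIntegral.integral_comp_neg (fun t => ρ ⟨x, t⟩), neg_zero,
        intervalIntegral.integral_symm]
    change |∫ t in (0 : ℝ)..y, ρ ⟨x, t⟩| ≤ _
    rw [e2, abs_neg, abs_of_nonneg h1]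
    refine h2.trans (le_of_eq ?_)
    have : pp m ⟨x, -y⟩ = pp m ⟨x, y⟩ := by
      rw [pp_eq, pp_eq]
      have e : (⟨x, -y⟩ : ℂ) = starRingEnd ℂ (⟨x, y⟩ : ℂ) := by
        apply Complex.ext <;> simp
      rw [e, (eta_conj hw).2, RCLike.norm_conj]
    rw [this]

end Pool.Agent.H269.SV
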