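import Pool.Agent.H269.SV.Core2

/-!
# Project SV: balls in the Lagrangian product of a symmetric polytope and its polar
-/

set_option autoImplicit false

open MeasureTheory Filter Topology Set
open scoped ContDiff Matrix

noncomputable section

namespace Pool.Agent.H269.SV

open H712MA (pk WW eta hd gg VV E2 Spans)
open Pool.Agent.Y52.SJ (std SympEmb ball cyl gromovWidth cylCapacity)

theorem lap_comb {p q : ℂ → ℝ} {w : ℂ} (hp : ContDiffAt ℝ ∞ p w) (hq : ContDiffAt ℝ ∞ q w)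
    (a b : ℝ) : lap (fun w => a * p w + b * q w) w = a * lap p w + b * lap q w := by
  have hp1 : ∀ᶠ y in 𝓝 w, DifferentiableAt ℝ p y :=
    ((hp.of_le (m := 1) (by exact_mod_cast le_top)).eventually (by simp)).mono
      fun y h => h.differentiableAt (by simp)
  have hq1 : ∀ᶠ y in 𝓝 w, DifferentiableAt ℝ q y :=
    ((hq.of_le (m := 1) (by exact_mod_cast le_top)).eventually (by simp)).mono
      fun y h => h.differentiableAt (by simp)
  have e1 : fderiv ℝ (fun w => a * p w + b * q w) =ᶠ[𝓝 w]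
      fun y => a • fderiv ℝ p y + b • fderiv ℝ q y := by
    filter_upwards [hp1, hq1] with y h1 h2
    exact ((h1.hasFDerivAt.const_mul a).add (h2.hasFDerivAt.const_mul b)).fderiv
  have hp2 : DifferentiableAt ℝ (fderiv ℝ p) w :=
    (hp.fderiv_right (m := 1) (by norm_cast)).differentiableAt (by simp)
  have hq2 : DifferentiableAt ℝ (fderiv ℝ q) w :=
    (hq.fderiv_right (m := 1) (by norm_cast)).differentiableAt (by simp)
  have e2 : fderiv ℝ (fderiv ℝ (fun w => a * p w + b * q w)) w =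
      a • fderiv ℝ (fderiv ℝ p) w + b • fderiv ℝ (fderiv ℝ q) w := by
    rw [e1.fderiv_eq]
    exact ((hp2.hasFDerivAt.const_smul a).add (hq2.hasFDerivAt.const_smul b)).fderiv
  unfold lap
  rw [e2]
  simp only [_root_.add_apply, _root_.smul_apply, smul_eq_mul]
  ring

theorem lap_normSq (hLAP : S_LAP) (w : ℂ) : lap (fun w => ‖w‖ ^ 2) w = 4 := by
  have h := (hLAP univ id isOpen_univ differentiableOn_id).2 w (mem_univ w)
  simp only [id_eq, deriv_id, norm_one, one_pow, mul_one] at h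
  exact h

theorem dot_sq_le {n : ℕ} (l x : Fin n → ℝ) :
    (l ⬝ᵥ x) ^ 2 ≤ (∑ i, l i ^ 2) * ∑ i, x i ^ 2 :=
  Finset.sum_mul_sq_le_sq_mul_sq _ _ _

theorem norm_pk_sq {n : ℕ} (l : Fin n → ℝ) (z : E2 n) :
    ‖pk l z‖ ^ 2 = (l ⬝ᵥ z.1) ^ 2 + (l ⬝ᵥ z.2) ^ 2 := by
  rw [Complex.sq_norm, Complex.normSq_apply, pk_re, pk_im]
  ring

/-- monotonicity in the level -/
theorem PD.mono {n m : ℕ} {ι : Type} [Fintype ι] {h : ι → E2 n → ℂ} {P : E2 n → ℝ} {s s' : ℝ}
    (hP : PD n m ι h P s') (hm : 1 ≤ m) (hs : 0 < s) (hss : s ≤ s') : PD n m ι h P s := by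
  refine ⟨hP.cont, hP.nonneg, fun z hz => hP.eq z (hz.trans_le hss),
    fun j => (hP.smooth j).mono fun z hz => lt_of_lt_of_le hz hss,
    fun j z hz => hP.hol j z (hz.trans_le hss), fun t ht => hP.cpt t (ht.trans_le hss), ?_, ?_⟩
  · obtain ⟨c, hc, h1⟩ := hP.lower
    exact ⟨c, hc, fun z hz => h1 z (hz.trans_le hss)⟩
  · obtain ⟨C, hC, ρ, hρ, h1⟩ := hP.upper
    refine ⟨C, hC, min ρ (min 1 (s / C)), by positivity, fun z hz => ?_⟩
    obtain ⟨h2, h3⟩ := h1 z (hz.trans_le (min_le_left _ _))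
    have h0 : 0 ≤ nsq z := Finset.sum_nonneg fun i _ => by positivity
    have h4 : nsq z < 1 := hz.trans_le ((min_le_right _ _).trans (min_le_left _ _))
    have h5 : nsq z < s / C := hz.trans_le ((min_le_right _ _).trans (min_le_right _ _))
    refine ⟨?_, h3⟩
    calc P z ≤ C * nsq z ^ m := h3
      _ ≤ C * nsq z := by
          refine mul_le_mul_of_nonneg_left ?_ hC.le
          calc nsq z ^ m ≤ nsq z ^ 1 := pow_le_pow_of_le_one h0 h4.le hm
            _ = nsq z := pow_one _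
      _ < C * (s / C) := mul_lt_mul_of_pos_left h5 hC
      _ = s := by field_simp

theorem PD.contDiffOn {n m : ℕ} {ι : Type} [Fintype ι] {h : ι → E2 n → ℂ} {P : E2 n → ℝ} {s : ℝ}
    (hP : PD n m ι h P s) : ContDiffOn ℝ ∞ P {z | P z < s} := by
  have h1 : ContDiffOn ℝ ∞ (fun z => ∑ j, ‖h j z‖ ^ 2) {z | P z < s} :=
    ContDiffOn.sum fun j _ => (hP.smooth j).norm_sq ℝ
  exact h1.congr fun z hz => hP.eq z hz

/-- `levi` of a sum of functions of the `l_k(z)` -/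
theorem levi_sum (hDSUM : S_DSUM) {n : ℕ} {ι : Type} [Fintype ι] (l : ι → Fin n → ℝ) {U : Set ℂ}
    (p : ℂ → ℝ) (hU : IsOpen U) (hp : ContDiffOn ℝ ∞ p U) (z : E2 n) (hz : ∀ k, pk (l k) z ∈ U)
    (v : E2 n) : levi (fun z => ∑ k, p (pk (l k) z)) z v =
      ∑ k, lap p (pk (l k) z) * ((l k ⬝ᵥ v.1) ^ 2 + (l k ⬝ᵥ v.2) ^ 2) := by
  rw [levi_eq_ddc, hDSUM n ι l U p hU hp z hz]
  refine Finset.sum_congr rfl fun k _ => ?_
  simp only [JJ_apply, dotProduct_neg]
  ring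

theorem sum_pos_of_spans {n : ℕ} {ι : Type} [Fintype ι] {l : ι → Fin n → ℝ} (hl : Spans l)
    {ρ : ι → ℝ} (hρ : ∀ k, 0 < ρ k) {v : E2 n} (hv : v ≠ 0) :
    0 < ∑ k, ρ k * ((l k ⬝ᵥ v.1) ^ 2 + (l k ⬝ᵥ v.2) ^ 2) := by
  have hnn : ∀ k ∈ (Finset.univ : Finset ι), 0 ≤ ρ k * ((l k ⬝ᵥ v.1) ^ 2 + (l k ⬝ᵥ v.2) ^ 2) :=
    fun k _ => by have := hρ k; positivity
  refine lt_of_le_of_ne (Finset.sum_nonneg hnn) fun h0 => hv ?_
  have h1 := (Finset.sum_eq_zero_iff_of_nonneg hnn).1 h0.symm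
  have h2 : ∀ k, l k ⬝ᵥ v.1 = 0 ∧ l k ⬝ᵥ v.2 = 0 := by
    intro k
    have h3 := h1 k (Finset.mem_univ k)
    have h4 : (l k ⬝ᵥ v.1) ^ 2 + (l k ⬝ᵥ v.2) ^ 2 = 0 := by
      rcases mul_eq_zero.1 h3 with h | h
      · exact absurd h (hρ k).ne'
      · exact h
    constructor <;> nlinarith [sq_nonneg (l k ⬝ᵥ v.1), sq_nonneg (l k ⬝ᵥ v.2)]
  exact Prod.ext (spans_pos hl fun k => (h2 k).1) (spans_pos hl fun k => (h2 k).2)

/-- all inputs of the polytope theorem -/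
structure Inp : Prop where
  est : S_EST
  one : S_ONE
  prim : S_PRIM
  lap : S_LAP
  dsum : S_DSUM
  fmap : S_FMAP
  moser : S_MOSER
  ball : S_BALL
  theta : S_THETA
  mu : S_MU
  levi : S_LEVI
  pole : S_POLE
  pdl : S_PDL

set_option maxHeartbeats 1000000 in
theorem poly (I : Inp) (n : ℕ) (hn : 1 ≤ n) (ι : Type) [Fintype ι] (l : ι → Fin n → ℝ)
    (hl : Spans l) (r : ℝ) (hr : 0 < r) (hr4 : Real.pi * r ^ 2 < 4) :
    SympEmb (ball n r) {z : E2 n | (∀ k, |l k ⬝ᵥ z.1| < 1) ∧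
      ∃ c : ι → ℝ, ∑ k, |c k| < 1 ∧ z.2 = ∑ k, c k • l k} := by
  obtain ⟨L, hLW, hLe⟩ := exists_lens
  -- the constants
  have hpi := Real.pi_pos
  set q : ℝ := Real.pi * r ^ 2 / 4 with hq
  have hq0 : 0 < q := by positivity
  have hq1 : q < 1 := by rw [hq]; linarith
  set ε : ℝ := (1 - q) / 2 with hε
  have hε0 : 0 < ε := by rw [hε]; linarith
  set s : ℝ := (1 + q) / 2 with hs
  have hs0 : 0 < s := by rw [hs]; linarith
  have hs1 : s < 1 := by rw [hs]; linarith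
  have hqs : q * (1 + ε) < s := by rw [hε, hs]; nlinarith
  set δ : ℝ := (1 - s) / (2 * (Fintype.card ι + 1)) with hδ
  have hcard : (0 : ℝ) ≤ Fintype.card ι := by positivity
  have hδ0 : 0 < δ := by rw [hδ]; apply div_pos <;> linarith
  have hNδ : Fintype.card ι * (δ + δ) < 1 - s := by
    have h1 : (Fintype.card ι + 1) * (δ + δ) = 1 - s := by rw [hδ]; field_simp; ring
    linarith
  obtain ⟨M, hM⟩ := vprim_bound I.est I.one hε0 hδ0 hδ0
  set m : ℕ := max M 1 with hm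
  have hm1 : 1 ≤ m := le_max_right _ _
  have hMm : M ≤ m := le_max_left _ _
  have hm0 : (0 : ℝ) < m := by exact_mod_cast hm1
  set κ : ℝ := (1 + ε) * Real.pi * m with hκ
  have hκ0 : 0 < κ := by positivity
  -- one variable
  obtain ⟨hpps, hppl⟩ := pp_smooth I.lap m
  set q1 : ℂ → ℝ := fun w => κ⁻¹ * pp m w + (δ / 4) * ‖w‖ ^ 2 with hq1'
  have hnorm : ContDiff ℝ ∞ (fun w : ℂ => ‖w‖ ^ 2) := contDiff_norm_sq ℝ
  have hq1s : ContDiffOn ℝ ∞ q1 WW :=
    (contDiffOn_const.mul hpps).add (contDiffOn_const.mul hnorm.contDiffOn)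
  set ρ : ℂ → ℝ := lap q1 with hρ
  have hρs : ContDiffOn ℝ ∞ ρ WW := lap_smooth open_WW hq1s
  have hρe : ∀ w ∈ WW, ρ w = dens m w / ((1 + ε) * Real.pi * m) + δ := by
    intro w hw
    rw [hρ, hq1', lap_comb (hpps.contDiffAt (open_WW.mem_nhds hw)) hnorm.contDiffAt, hppl w hw,
      lap_normSq I.lap]
    ring
  have hρ0 : ∀ w ∈ WW, 0 < ρ w := by
    intro w hw
    rw [hρe w hw]
    have := dens_nonneg m w
    positivity
  obtain ⟨hcs, hcd⟩ := I.prim WW ρ open_WW star_WW hρs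
  have hcb : ∀ w ∈ WW, |vprim ρ w| ≤ pp m w + δ + δ := fun w hw => hM m hMm hm1 ρ hρe w hw
  obtain ⟨hFs, hFi, hFp⟩ := I.fmap n ι l hl WW (vprim ρ) ρ open_WW star_WW hcs hcd hρ0
  set V0 : Set (E2 n) := {z | ∀ k, pk (l k) z ∈ WW} with hV0
  set F : E2 n → E2 n := fun z => (z.1, ∑ k, vprim ρ (pk (l k) z) • l k) with hF
  -- the potentials
  have hPD1 := I.pdl L hLW hLe n m ι l hn hm1 hl
  have hPD := hPD1.mono hm1 hs0 hs1.le
  set P : E2 n → ℝ := VV L m l with hPdef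
  have hPsum : ∀ z, P z = ∑ k, pp m (pk (l k) z) := by
    intro z
    rw [hPdef]
    unfold VV H712MA.gf pp
    rw [hLe]
  have hPV : ∀ z, P z < s → z ∈ V0 := by
    intro z hz
    by_contra hcon
    have h1 := (H712MA.P ι n L m hm1 l hl).2.2.1 z (by
      intro h2
      apply hcon
      intro k
      have := h2 k
      rw [hLW] at this
      exact this)
    have h2 : VV L m l z < s := hz
    linarith
  set N : E2 n → ℝ := fun z => ∑ k, (1 / 4 : ℝ) * ‖pk (l k) z‖ ^ 2 with hN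
  have hpkc : ∀ k, ContDiff ℝ ∞ fun z : E2 n => pk (l k) z := fun k =>
    H712MA.TaskP.pk_contDiff (l k)
  have hNs : ContDiff ℝ ∞ N :=
    ContDiff.sum fun k _ => contDiff_const.mul (hnorm.comp (hpkc k))
  have hN0 : ∀ z, 0 ≤ N z := fun z => Finset.sum_nonneg fun k _ => by positivity
  have hNC : ∃ C : ℝ, ∀ z, N z ≤ C * nsq z := by
    refine ⟨∑ k, (1 / 4 : ℝ) * ∑ i, (l k i) ^ 2, fun z => ?_⟩
    rw [hN, Finset.sum_mul]
    refine Finset.sum_le_sum fun k _ => ?_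
    rw [norm_pk_sq, mul_assoc]
    refine mul_le_mul_of_nonneg_left ?_ (by norm_num)
    have h1 := dot_sq_le (l k) z.1
    have h2 := dot_sq_le (l k) z.2
    have h3 : nsq z = ∑ i, z.1 i ^ 2 + ∑ i, z.2 i ^ 2 := by
      unfold nsq; rw [Finset.sum_add_distrib]
    rw [h3, mul_add]
    linarith
  have hNl : ∀ z v, v ≠ 0 → 0 < levi N z v := by
    intro z v hv
    have h1 := levi_sum I.dsum l (U := univ) (fun w => (1 / 4 : ℝ) * ‖w‖ ^ 2) isOpen_univ
      (contDiff_const.mul hnorm).contDiffOn z (fun k => mem_univ _) v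
    have h2 : ∀ w : ℂ, lap (fun w => (1 / 4 : ℝ) * ‖w‖ ^ 2) w = 1 := by
      intro w
      have h3 := lap_comb (p := fun w : ℂ => ‖w‖ ^ 2) (q := fun w : ℂ => ‖w‖ ^ 2) (w := w)
        hnorm.contDiffAt hnorm.contDiffAt (1 / 4) 0
      simp only [zero_mul, add_zero, lap_normSq I.lap] at h3
      rw [h3]; norm_num
    rw [hN, h1]
    simp only [h2]
    exact sum_pos_of_spans hl (ρ := fun _ => 1) (fun _ => one_pos) hv
  set f₁ : E2 n → ℝ := fun z => P z / κ + δ * N z with hf₁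
  have hf₁e : f₁ = fun z => ∑ k, q1 (pk (l k) z) := by
    funext z
    rw [hf₁, hq1', hN]
    simp only
    rw [hPsum, Finset.sum_add_distrib, ← Finset.mul_sum, ← Finset.mul_sum, ← Finset.mul_sum]
    ring
  have hf₁ddc : ∀ z ∈ V0, ∀ u v, ddc f₁ z u v = std (fderiv ℝ F z u) (fderiv ℝ F z v) := by
    intro z hz u v
    rw [hFp z hz u v, hf₁e, I.dsum n ι l WW q1 open_WW hq1s z hz u v]
  have hf₁levi : ∀ z ∈ V0, ∀ v, v ≠ 0 → 0 < levi f₁ z v := by
    intro z hz v hv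
    rw [hf₁e, levi_sum I.dsum l q1 open_WW hq1s z hz v]
    exact sum_pos_of_spans hl (ρ := fun k => ρ (pk (l k) z)) (fun k => hρ0 _ (hz k)) hv
  -- the pole
  have hrlt : r ^ 2 < 4 * m * s / κ := by
    rw [lt_div_iff₀ hκ0, hκ]
    have h1 : r ^ 2 * Real.pi = 4 * q := by rw [hq]; ring
    calc r ^ 2 * ((1 + ε) * Real.pi * m) = (r ^ 2 * Real.pi) * (1 + ε) * m := by ring
      _ = 4 * m * (q * (1 + ε)) := by rw [h1]; ring
      _ < 4 * m * s := mul_lt_mul_of_pos_left hqs (by positivity)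
  obtain ⟨t, f₀, a, δ', R, c0, hts, hf₀s, hf₀e, hf₀l, ha, hδ', hR, hrR, hRt, hf₀b⟩ :=
    I.pole I.theta I.mu I.levi n m ι _ P s κ δ r N hn hm1 hs0 hκ0 hδ0 hPD hNs hN0 hNC hNl hr hrlt
  -- cut-offs
  have hPs := hPD.contDiffOn
  obtain ⟨t1, ht1, ht1s⟩ := exists_between hts
  obtain ⟨t2, ht2, ht2s⟩ := exists_between ht1s
  obtain ⟨χ, hχ1, hχ0, hχs⟩ := exists_cut hPD.cont hPs ht2 ht2s
  have hf₁s : ContDiffOn ℝ ∞ f₁ {z | P z < s} :=
    (hPs.div_const κ).add (contDiffOn_const.mul hNs.contDiffOn)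
  have hVo : IsOpen {z | P z < t1} := isOpen_lt hPD.cont continuous_const
  have hnear : ∀ f : E2 n → ℝ, ∀ z, P z < t1 → (fun z => χ z * f z) =ᶠ[𝓝 z] f := by
    intro f z hz
    filter_upwards [hVo.mem_nhds hz] with y hy
    have hy' : P y < t1 := hy
    rw [hχ1 y hy'.le, one_mul]
  obtain ⟨Φ, Ψ, hΦs, hΨΦ, hΦΨ, hΦK, hΦddc⟩ := I.moser n (fun z => χ z * f₀ z)
    (fun z => χ z * f₁ z) {z | P z ≤ t} {z | P z < t1} (hχs f₀ hf₀s) (hχs f₁ hf₁s)
    (hPD.cpt t hts) hVo (fun z hz => lt_of_le_of_lt hz ht1) (by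
      intro z hz
      have hz' : t < P z := by
        by_contra h
        exact hz (not_lt.1 h)
      change χ z * f₀ z = χ z * f₁ z
      by_cases hzs : P z < s
      · rw [hf₀e z hzs hz'.le]
      · rw [hχ0 z (by linarith [not_lt.1 hzs]), zero_mul, zero_mul]) (by
      intro z hz v hv
      rw [levi_congr (hnear f₀ z hz)]
      exact hf₀l z (lt_trans hz ht1s) v hv) (by
      intro z hz v hv
      rw [levi_congr (hnear f₁ z hz)]
      exact hf₁levi z (hPV z (lt_trans hz ht1s)) v hv)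
  have hΦin : ∀ z, P z ≤ t → P (Φ z) ≤ t := by
    intro z hz
    by_contra hcon
    have h1 : Φ (Φ z) = Φ z := hΦK _ hcon
    have h2 : Φ z = z := by
      have := congrArg Ψ h1
      rwa [hΨΦ, hΨΦ] at this
    rw [h2] at hcon
    exact hcon hz
  obtain ⟨φ, hφs, hφi, hφm, hφddc⟩ := I.ball n a δ' R r c0 ha hδ' hR hr hrR
  have hballo := isOpen_ball' n r
  refine ⟨fun z => F (Φ (φ z)), ?_, ?_, ?_, ?_⟩
  · refine hFs.comp (hΦs.comp_contDiffOn hφs) ?_
    intro z hz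
    exact hPV _ ((hΦin _ (hRt _ (hφm hz))).trans_lt hts)
  · intro x hx y hy hxy
    have h1 := hFi (hPV _ ((hΦin _ (hRt _ (hφm hx))).trans_lt hts))
      (hPV _ ((hΦin _ (hRt _ (hφm hy))).trans_lt hts)) hxy
    have h2 := congrArg Ψ h1
    rw [hΨΦ, hΨΦ] at h2
    exact hφi hx hy h2
  · intro z hz
    set w := Φ (φ z) with hw
    have hPw : P w ≤ t := hΦin _ (hRt _ (hφm hz))
    have hwV : w ∈ V0 := hPV w (hPw.trans_lt hts)
    refine ⟨fun k => ?_, fun k => vprim ρ (pk (l k) w), ?_, rfl⟩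
    · have h1 := norm_WW (hwV k)
      have h2 : |(pk (l k) w).re| ≤ ‖pk (l k) w‖ := Complex.abs_re_le_norm _
      rw [pk_re] at h2
      exact lt_of_le_of_lt h2 h1
    · calc ∑ k, |vprim ρ (pk (l k) w)| ≤ ∑ k, (pp m (pk (l k) w) + (δ + δ)) :=
            Finset.sum_le_sum fun k _ => by
              have := hcb _ (hwV k)
              linarith
        _ = P w + Fintype.card ι * (δ + δ) := by
            rw [Finset.sum_add_distrib, ← hPsum, Finset.sum_const, Finset.card_univ,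
              nsmul_eq_mul]
        _ < 1 := by linarith
  · intro z hz u v
    have hPw : P (Φ (φ z)) ≤ t := hΦin _ (hRt _ (hφm hz))
    have hwV : Φ (φ z) ∈ V0 := hPV _ (hPw.trans_lt hts)
    have hPz : P (φ z) ≤ t := hRt _ (hφm hz)
    have hVopen : IsOpen V0 := by
      rw [hV0, Set.ofPred_forall]
      exact isOpen_iInter_of_finite fun k => open_WW.preimage (hpkc k).continuous
    have hd1 : DifferentiableAt ℝ φ z :=
      (hφs.contDiffAt (hballo.mem_nhds hz)).differentiableAt (by simp)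
    have hd2 : DifferentiableAt ℝ Φ (φ z) := hΦs.differentiable (by simp) _
    have hd3 : DifferentiableAt ℝ F (Φ (φ z)) :=
      (hFs.contDiffAt (hVopen.mem_nhds hwV)).differentiableAt (by simp)
    have hd : HasFDerivAt (fun z => F (Φ (φ z)))
        ((fderiv ℝ F (Φ (φ z))).comp ((fderiv ℝ Φ (φ z)).comp (fderiv ℝ φ z))) z :=
      hd3.hasFDerivAt.comp z (hd2.hasFDerivAt.comp z hd1.hasFDerivAt)
    rw [hd.fderiv]
    simp only [ContinuousLinearMap.comp_apply]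
    rw [← hf₁ddc _ hwV]
    have e1 := hΦddc (φ z) (fderiv ℝ φ z u) (fderiv ℝ φ z v)
    rw [ddc_congr (hnear f₁ _ (lt_of_le_of_lt hPw ht1))] at e1
    rw [e1]
    refine hφddc (fun z => χ z * f₀ z) (fun y hy => ?_) z hz u v
    have hy1 := hRt y hy
    change χ y * f₀ y = _
    rw [hχ1 y (hy1.trans ht1.le), one_mul]
    exact hf₀b y hy

end Pool.Agent.H269.SV
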