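import Pool.Agent.H269.SV.Core3

/-!
# Project SV: the core theorem and the sheared embedding
-/

set_option autoImplicit false

open MeasureTheory Filter Topology Set
open scoped ContDiff Matrix

noncomputable section

namespace Pool.Agent.H269.SV

open H712MA (pk WW eta hd gg VV E2 Spans)
open Pool.Agent.Y52.SJ (std SympEmb ball cyl gromovWidth cylCapacity)

theorem smul_mem_interior {n : ℕ} {B : Set (Fin n → ℝ)} (hc : Convex ℝ B)
    (h0 : (0 : Fin n → ℝ) ∈ interior B) {b : Fin n → ℝ} (hb : b ∈ B) {t : ℝ} (ht0 : 0 ≤ t)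
    (ht : t < 1) : t • b ∈ interior B := by
  have := hc.combo_interior_self_mem_interior h0 hb (a := 1 - t) (b := t) (by linarith) ht0
    (by ring)
  simpa using this

/-- a point with `Σ|c_k| < 1` is in the interior -/
theorem comb_mem {n N : ℕ} {B : Set (Fin n → ℝ)} (hc : Convex ℝ B) (hs : ∀ x ∈ B, -x ∈ B)
    (h0 : (0 : Fin n → ℝ) ∈ interior B) {l : Fin N → Fin n → ℝ} (hl : ∀ k, l k ∈ B)
    {c : Fin N → ℝ} (hcs : ∑ k, |c k| < 1) : ∑ k, c k • l k ∈ interior B := by
  set t := ∑ k, |c k| with ht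
  have ht0 : 0 ≤ t := Finset.sum_nonneg fun k _ => abs_nonneg _
  rcases eq_or_lt_of_le ht0 with h | h
  · have h1 : ∀ k, c k = 0 := by
      intro k
      have := (Finset.sum_eq_zero_iff_of_nonneg (fun k _ => abs_nonneg (c k))).1
        (by rw [← ht, ← h]) k (Finset.mem_univ k)
      exact abs_eq_zero.1 this
    simp only [h1, zero_smul, Finset.sum_const_zero]
    exact h0
  · have h1 : ∑ k, (|c k| / t) • (SignType.sign (c k) : ℝ) • l k ∈ B := by
      refine hc.sum_mem (fun k _ => by positivity) ?_ ?_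
      · rw [← Finset.sum_div, ← ht, div_self h.ne']
      · intro k _
        rcases lt_trichotomy (c k) 0 with h2 | h2 | h2
        · rw [sign_neg h2]
          simpa using hs _ (hl k)
        · rw [h2, sign_zero]
          simpa using interior_subset h0
        · rw [sign_pos h2]
          simpa using hl k
    have h2 := smul_mem_interior hc h0 h1 ht0 hcs
    convert h2 using 1
    rw [Finset.smul_sum]
    refine Finset.sum_congr rfl fun k _ => ?_
    rw [smul_smul, smul_smul]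
    congr 1
    have : (SignType.sign (c k) : ℝ) * |c k| = c k := by
      have := sign_mul_abs (c k)
      exact this
    field_simp
    linarith

theorem fderiv_lin {n : ℕ} (T : E2 n →L[ℝ] E2 n) (z : E2 n) : fderiv ℝ T z = T := T.fderiv

theorem CORE (I : Inp) (hNET : S_NET) : S_CORE := by
  intro n B hn hBc hBx hBs hB0 r hr hr4
  have hpi := Real.pi_pos
  have hA : 0 < Real.pi * r ^ 2 := by positivity
  obtain ⟨ε, hε0, hε⟩ : ∃ ε : ℝ, 0 < ε ∧ Real.pi * r ^ 2 * (1 + ε) < 4 := by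
    refine ⟨(4 - Real.pi * r ^ 2) / (2 * (Real.pi * r ^ 2)), div_pos (by linarith) (by linarith),
      ?_⟩
    have : Real.pi * r ^ 2 * (1 + (4 - Real.pi * r ^ 2) / (2 * (Real.pi * r ^ 2))) =
        Real.pi * r ^ 2 + (4 - Real.pi * r ^ 2) / 2 := by field_simp
    rw [this]; linarith
  obtain ⟨N, l, hlB, hlS, hlc⟩ := hNET n B hBc hBx hBs hB0 ε hε0
  have h1ε : 0 < 1 + ε := by linarith
  have hsq : 0 < Real.sqrt (1 + ε) := Real.sqrt_pos.2 h1ε
  have h1 := poly I n hn (Fin N) l hlS (Real.sqrt (1 + ε) * r) (by positivity) (by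
    rw [mul_pow, Real.sq_sqrt h1ε.le]; linarith)
  set T : E2 n →L[ℝ] E2 n := ((1 + ε)⁻¹ • ContinuousLinearMap.fst ℝ (Fin n → ℝ) (Fin n → ℝ)).prod
    (ContinuousLinearMap.snd ℝ (Fin n → ℝ) (Fin n → ℝ)) with hT
  have hTv : ∀ v, T v = ((1 + ε)⁻¹ • v.1, v.2) := fun v => rfl
  have h2 := emb_conf (q := (1 + ε)⁻¹) (W' := {z : E2 n | (∀ b ∈ B, |b ⬝ᵥ z.1| < 1) ∧
    z.2 ∈ interior B}) (inv_pos.2 h1ε) h1 T T.contDiff ?_ ?_ ?_
  · have e : Real.sqrt (1 + ε)⁻¹ * (Real.sqrt (1 + ε) * r) = r := by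
      rw [Real.sqrt_inv, ← mul_assoc, inv_mul_cancel₀ hsq.ne', one_mul]
    rw [e] at h2
    exact h2
  · intro v _ w _ hvw
    rw [hTv, hTv, Prod.mk.injEq] at hvw
    exact Prod.ext (smul_right_injective _ (inv_pos.2 h1ε).ne' hvw.1) hvw.2
  · rintro z ⟨hz1, c, hc, hz2⟩
    rw [hTv]
    refine ⟨fun b hb => ?_, ?_⟩
    · obtain ⟨d, hd, hbd⟩ := hlc b hb
      have e : b ⬝ᵥ ((1 + ε)⁻¹ • z.1) = (1 + ε)⁻¹ * ∑ k, d k * (l k ⬝ᵥ z.1) := by
        rw [dotProduct_smul, smul_eq_mul, hbd, sum_dotProduct]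
        congr 1
        refine Finset.sum_congr rfl fun k _ => ?_
        rw [smul_dotProduct, smul_eq_mul]
      change |b ⬝ᵥ ((1 + ε)⁻¹ • z.1)| < 1
      rw [e, abs_mul, abs_of_pos (inv_pos.2 h1ε), inv_mul_lt_iff₀ h1ε, mul_one]
      by_cases h0 : ∀ k, d k = 0
      · simp only [h0, zero_mul, Finset.sum_const_zero, abs_zero]
        exact h1ε
      · push Not at h0
        obtain ⟨k0, hk0⟩ := h0
        calc |∑ k, d k * (l k ⬝ᵥ z.1)| ≤ ∑ k, |d k * (l k ⬝ᵥ z.1)| :=
              Finset.abs_sum_le_sum_abs _ _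
          _ < ∑ k, |d k| := by
              refine Finset.sum_lt_sum (fun k _ => ?_) ⟨k0, Finset.mem_univ _, ?_⟩
              · rw [abs_mul]
                exact mul_le_of_le_one_right (abs_nonneg _) (hz1 k).le
              · rw [abs_mul]
                exact mul_lt_of_lt_one_right (abs_pos.2 hk0) (hz1 k0)
          _ ≤ 1 + ε := hd
    · change z.2 ∈ interior B
      rw [hz2]
      exact comb_mem hBx hBs hB0 hlB hc
  · intro z _ u v
    rw [fderiv_lin, hTv, hTv]
    unfold std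
    rw [Finset.mul_sum]
    refine Finset.sum_congr rfl fun i _ => ?_
    simp only [Pi.smul_apply, smul_eq_mul]
    ring


end Pool.Agent.H269.SV
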