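import Pool.Agent.H269.SV.Sym

/-!
# Project SV: centrally symmetric convex domains, final comparison
-/

set_option autoImplicit false

open MeasureTheory Filter Topology Set
open scoped ContDiff Matrix Pointwise

noncomputable section

namespace Pool.Agent.H269.SV

open H712MA (pk WW eta hd gg VV E2 Spans)
open Pool.Agent.Y52.SJ (std SympEmb ball cyl gromovWidth cylCapacity)
open Pool.Agent.H52.SV (h_zero h_neg h_cont h_lower Sh_compact Sh_room)

theorem std_cont {n : ℕ} : Continuous fun p : E2 n × E2 n => std p.1 p.2 := by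
  unfold std
  fun_prop

theorem std_neg_left {n : ℕ} (v w : E2 n) : std (-v) w = -std v w := by
  rw [std_sum, std_sum]
  simp only [Prod.fst_neg, Prod.snd_neg, neg_dotProduct]
  ring

theorem std_smul_left {n : ℕ} (a : ℝ) (v w : E2 n) : std (a • v) w = a * std v w := by
  have := std_smul a 1 v w
  simpa using this

theorem std_smul_right {n : ℕ} (a : ℝ) (v w : E2 n) : std v (a • w) = a * std v w := by
  have := std_smul 1 a v w
  simpa using this

/-- lower bound for the Gromov width from embeddings of all smaller balls -/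
theorem le_gromovWidth {n : ℕ} {K : Set (E2 (n + 1))} {a : ℝ}
    (h : ∀ r : ℝ, 0 < r → Real.pi * r ^ 2 < a → SympEmb (ball (n + 1) r) K) :
    ENNReal.ofReal a ≤ gromovWidth K := by
  refine le_of_forall_lt fun c hc => ?_
  have hctop : c ≠ ⊤ := ne_top_of_lt hc
  have hc' : c.toReal < a := by
    rw [ENNReal.lt_ofReal_iff_toReal_lt hctop] at hc
    exact hc
  have hc0 : 0 ≤ c.toReal := ENNReal.toReal_nonneg
  obtain ⟨b, hb1, hb2⟩ := exists_between hc'
  have hb0 : 0 < b := lt_of_le_of_lt hc0 hb1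
  have hpi := Real.pi_pos
  have hr0 : 0 < Real.sqrt (b / Real.pi) := Real.sqrt_pos.2 (by positivity)
  have hr : Real.pi * Real.sqrt (b / Real.pi) ^ 2 = b := by
    rw [Real.sq_sqrt (by positivity)]; field_simp
  have h1 := h _ hr0 (by rw [hr]; exact hb2)
  have h2 : ENNReal.ofReal (Real.pi * Real.sqrt (b / Real.pi) ^ 2) ≤ gromovWidth K := by
    unfold gromovWidth
    exact le_iSup₂_of_le (Real.sqrt (b / Real.pi)) ⟨hr0, h1⟩ le_rfl
  rw [hr] at h2
  refine lt_of_lt_of_le ?_ h2
  rw [ENNReal.lt_ofReal_iff_toReal_lt hctop]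
  exact hb1

theorem sp_compact {n : ℕ} {K : Set (E2 n)} (h0 : (0 : E2 n) ∈ interior K) :
    IsCompact (sp K) := by
  have hcl : IsClosed (sp K) := by
    have : sp K = ⋂ w ∈ K, {v | |std v w| ≤ 1} := by
      ext v; simp [sp]
    rw [this]
    refine isClosed_biInter fun w _ => isClosed_le ?_ continuous_const
    have : Continuous fun v : E2 n => std v w :=
      std_cont.comp (continuous_id.prodMk continuous_const)
    exact this.abs
  obtain ⟨ρ, hρ, hb⟩ := Metric.mem_nhds_iff.1 (mem_interior_iff_mem_nhds.1 h0)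
  refine Metric.isCompact_of_isClosed_isBounded hcl ?_
  refine (Metric.isBounded_closedBall (x := (0 : E2 n)) (r := 2 / ρ)).subset ?_
  intro v hv
  rw [mem_closedBall_zero_iff, Prod.norm_def]
  have key : ∀ w : E2 n, ‖w‖ < ρ → |std v w| ≤ 1 := fun w hw => hv w (hb (by simpa using hw))
  have hρ2 : 0 < ρ / 2 := by positivity
  have e1 : ∀ i, |v.1 i| ≤ 2 / ρ := by
    intro i
    have h1 := key ((0, (ρ / 2) • Pi.single i 1) : E2 n) (by
      rw [Prod.norm_def]
      simp only [norm_zero, norm_smul, Real.norm_of_nonneg hρ2.le]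
      rw [Pi.norm_single, norm_one]
      simp
      exact hρ)
    rw [std_sum] at h1
    simp only [dotProduct_smul, dotProduct_single, mul_one, dotProduct_zero, sub_zero,
      smul_eq_mul] at h1
    rw [abs_mul, abs_of_pos hρ2] at h1
    rw [le_div_iff₀ hρ]
    nlinarith
  have e2 : ∀ i, |v.2 i| ≤ 2 / ρ := by
    intro i
    have h1 := key (((ρ / 2) • Pi.single i 1, 0) : E2 n) (by
      rw [Prod.norm_def]
      simp only [norm_zero, norm_smul, Real.norm_of_nonneg hρ2.le]
      rw [Pi.norm_single, norm_one]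
      simp
      exact hρ)
    rw [std_sum] at h1
    simp only [dotProduct_smul, dotProduct_single, mul_one, dotProduct_zero, zero_sub, abs_neg,
      smul_eq_mul] at h1
    rw [abs_mul, abs_of_pos hρ2] at h1
    rw [le_div_iff₀ hρ]
    nlinarith
  refine max_le ?_ ?_
  · exact (pi_norm_le_iff_of_nonneg (by positivity)).2 fun i => by
      rw [Real.norm_eq_abs]; exact e1 i
  · exact (pi_norm_le_iff_of_nonneg (by positivity)).2 fun i => by
      rw [Real.norm_eq_abs]; exact e2 i

/-- **Centrally symmetric convex domains**: the cylindrical capacity is at most `7` times the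
Gromov width. -/
theorem symm (hCORE : S_CORE) (hCHAIN : S_CHAIN) (hZORN : S_ZORN) (hCYL : S_CYL) (n : ℕ)
    (K : Set (E2 (n + 1))) (hKo : IsOpen K) (hKc : Convex ℝ K) (hKb : Bornology.IsBounded K)
    (hKn : K.Nonempty) (hKs : ∀ x ∈ K, -x ∈ K) :
    cylCapacity K ≤ ENNReal.ofReal 7 * gromovWidth K := by
  -- the closure
  have h0K : (0 : E2 (n + 1)) ∈ K := by
    obtain ⟨x, hx⟩ := hKn
    have := hKc hx (hKs x hx) (by norm_num : (0 : ℝ) ≤ 1 / 2) (by norm_num : (0 : ℝ) ≤ 1 / 2)
      (by norm_num)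
    simpa using this
  set C := closure K with hC
  have hCc : IsCompact C := hKb.isCompact_closure
  have hCx : Convex ℝ C := hKc.closure
  have hCs : ∀ x ∈ C, -x ∈ C := by
    intro x hx
    have h1 : (fun x : E2 (n + 1) => -x) '' closure K ⊆ closure ((fun x => -x) '' K) :=
      image_closure_subset_closure_image continuous_neg
    have h2 : (fun x : E2 (n + 1) => -x) '' K ⊆ K := by
      rintro _ ⟨y, hy, rfl⟩; exact hKs y hy
    exact closure_mono h2 (h1 ⟨x, hx, rfl⟩)
  have hint : interior C = K := by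
    rw [hC, hKc.interior_closure_eq_interior_of_nonempty_interior (by
      rw [hKo.interior_eq]; exact hKn), hKo.interior_eq]
  have hC0 : (0 : E2 (n + 1)) ∈ interior C := by rw [hint]; exact h0K
  -- the maximal value of the form on the polar
  have hS := sp_compact hC0
  have hS0 : (0 : E2 (n + 1)) ∈ sp C := fun w _ => by
    have : std (0 : E2 (n + 1)) w = 0 := by rw [std_sum]; simp
    rw [this]; simp
  obtain ⟨⟨v₀, w₀⟩, ⟨hv₀, hw₀⟩, hmax⟩ := (hS.prod hS).exists_isMaxOn ⟨(0, 0), hS0, hS0⟩
    (f := fun p : E2 (n + 1) × E2 (n + 1) => std p.1 p.2) std_cont.continuousOn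
  have hneg : ∀ v ∈ sp C, -v ∈ sp C := fun v hv w hw => by
    rw [std_neg_left, abs_neg]; exact hv w hw
  set σ := std v₀ w₀ with hσ
  have hmax' : ∀ v ∈ sp C, ∀ w ∈ sp C, |std v w| ≤ σ := by
    intro v hv w hw
    have h1 : std v w ≤ σ := hmax (show (v, w) ∈ sp C ×ˢ sp C from ⟨hv, hw⟩)
    have h2 : std (-v) w ≤ σ := hmax (show (-v, w) ∈ sp C ×ˢ sp C from ⟨hneg v hv, hw⟩)
    rw [std_neg_left] at h2
    exact abs_le.2 ⟨by linarith, h1⟩
  -- positivity
  have hσ0 : 0 < σ := by
    obtain ⟨M, hM⟩ := hKb.exists_norm_le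
    obtain ⟨M', hM'⟩ := hCc.isBounded.exists_norm_le
    set R := |M'| + 1 with hR
    have hR0 : 0 < R := by positivity
    have hbd : ∀ w ∈ C, ‖w‖ ≤ R := fun w hw => (hM' w hw).trans (by
      rw [hR]; linarith [le_abs_self M'])
    have ha : ((R⁻¹ • Pi.single 0 1, 0) : E2 (n + 1)) ∈ sp C := by
      intro w hw
      rw [std_sum]
      simp only [smul_dotProduct, single_dotProduct, one_mul, zero_dotProduct, sub_zero,
        smul_eq_mul]
      rw [abs_mul, abs_of_pos (inv_pos.2 hR0), inv_mul_le_iff₀ hR0, mul_one]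
      have h1 := hbd w hw
      have h2 : ‖w.2 0‖ ≤ ‖w‖ := (norm_le_pi_norm w.2 0).trans (norm_snd_le w)
      rw [Real.norm_eq_abs] at h2
      linarith
    have hb : ((0, R⁻¹ • Pi.single 0 1) : E2 (n + 1)) ∈ sp C := by
      intro w hw
      rw [std_sum]
      simp only [smul_dotProduct, single_dotProduct, one_mul, zero_dotProduct, zero_sub,
        smul_eq_mul, abs_neg]
      rw [abs_mul, abs_of_pos (inv_pos.2 hR0), inv_mul_le_iff₀ hR0, mul_one]
      have h1 := hbd w hw
      have h2 : ‖w.1 0‖ ≤ ‖w‖ := (norm_le_pi_norm w.1 0).trans (norm_fst_le w)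
      rw [Real.norm_eq_abs] at h2
      linarith
    have h3 := hmax' _ ha _ hb
    have h4 : std ((R⁻¹ • Pi.single 0 1, 0) : E2 (n + 1)) ((0, R⁻¹ • Pi.single 0 1)) =
        R⁻¹ * R⁻¹ := by
      rw [std_sum]
      simp
    rw [h4] at h3
    have h5 : 0 < R⁻¹ * R⁻¹ := by positivity
    linarith [le_abs_self (R⁻¹ * R⁻¹)]
  -- the normalised body
  set lam := Real.sqrt σ with hlam
  have hlam0 : 0 < lam := Real.sqrt_pos.2 hσ0
  have hlam2 : lam * lam = σ := Real.mul_self_sqrt hσ0.le
  have hinj : Function.Injective (fun x : E2 (n + 1) => lam • x) :=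
    smul_right_injective _ hlam0.ne'
  have hK1int : interior (lam • C) = lam • K := by
    rw [interior_smul₀ hlam0.ne', hint]
  obtain ⟨h, H, hhK⟩ := hZORN (n + 1) (lam • C) (hCc.smul lam) (hCx.smul lam) (by
      rintro _ ⟨x, hx, rfl⟩
      exact ⟨-x, hCs x hx, by simp⟩) (by
      rw [hK1int]
      exact ⟨0, h0K, by simp⟩) (by
      intro v hv w hw
      have hv' : lam • v ∈ sp C := by
        intro x hx
        rw [std_smul_left]
        have := hv (lam • x) ⟨x, hx, rfl⟩
        rwa [std_smul_right] at this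
      have hw' : lam • w ∈ sp C := by
        intro x hx
        rw [std_smul_left]
        have := hw (lam • x) ⟨x, hx, rfl⟩
        rwa [std_smul_right] at this
      have h1 := hmax' _ hv' _ hw'
      rw [std_smul, hlam2, abs_mul, abs_of_pos hσ0] at h1
      exact le_of_mul_le_mul_left (by linarith) hσ0)
  have hsub : {v | h v < 1} ⊆ lam • K := by
    rw [← hK1int]
    refine interior_maximal (fun v hv => hhK v (le_of_lt hv)) ?_
    exact isOpen_lt (h_cont H) continuous_const
  -- the lower bound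
  have hlow : ENNReal.ofReal (4 / 7 / σ) ≤ gromovWidth K := by
    refine le_gromovWidth fun r hr hrσ => ?_
    have h1 := sheared hCORE hCHAIN (n := n + 1) (by omega) H (lam * r) (by positivity) (by
      rw [mul_pow, sq lam, hlam2]
      rw [lt_div_iff₀ hσ0] at hrσ
      linarith)
    obtain ⟨T, hT⟩ : ∃ T : E2 (n + 1) →L[ℝ] E2 (n + 1), ∀ v, T v = lam⁻¹ • v :=
      ⟨lam⁻¹ • ContinuousLinearMap.id ℝ (E2 (n + 1)), fun v => rfl⟩
    have h2 := emb_conf (q := σ⁻¹) (W' := K) (inv_pos.2 hσ0) h1 T T.contDiff ?_ ?_ ?_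
    · have e : Real.sqrt σ⁻¹ * (lam * r) = r := by
        rw [Real.sqrt_inv, ← mul_assoc, ← hlam, inv_mul_cancel₀ hlam0.ne', one_mul]
      rw [e] at h2
      exact h2
    · intro x _ y _ hxy
      rw [hT, hT] at hxy
      exact smul_right_injective _ (inv_pos.2 hlam0).ne' hxy
    · intro x hx
      obtain ⟨y, hy, hyx⟩ := hsub hx
      have hyx' : lam • y = x := hyx
      have : T x = y := by
        rw [hT, ← hyx', smul_smul, inv_mul_cancel₀ hlam0.ne', one_smul]
      rw [this]
      exact hy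
    · intro z _ u v
      rw [fderiv_lin, hT, hT, std_smul, ← hlam2, mul_inv]
  -- the upper bound
  have hup : cylCapacity K ≤ ENNReal.ofReal (4 / σ) :=
    hCYL n K v₀ w₀ hσ0 (fun x hx => hv₀ x (subset_closure hx)) fun x hx => hw₀ x (subset_closure hx)
  calc cylCapacity K ≤ ENNReal.ofReal (4 / σ) := hup
    _ = ENNReal.ofReal 7 * ENNReal.ofReal (4 / 7 / σ) := by
        rw [← ENNReal.ofReal_mul (by norm_num)]
        congr 1
        field_simp
    _ ≤ ENNReal.ofReal 7 * gromovWidth K := by gcongr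

end Pool.Agent.H269.SV
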