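import Pool.Agent.H269.SV.Stm

/-! MOLL (helper52): smoothing of `φ`. -/

set_option autoImplicit false

open MeasureTheory Filter Topology Set
open scoped ContDiff Matrix Convolution

noncomputable section

namespace Pool.Agent.H52.SV

open H712MA (E2)
open Pool.Agent.H269.SV
open Pool.Agent.Y52.SJ (std)

section norm

variable {n : ℕ} {h : E2 n → ℝ}

theorem h_zero (H : SN n h) : h 0 = 0 := by
  have := H.smul 0 0
  simpa using this

theorem h_neg (H : SN n h) (v : E2 n) : h (-v) = h v := by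
  have := H.smul (-1) v
  simpa using this

theorem h_cont (H : SN n h) : Continuous h := by
  have hc : ConvexOn ℝ univ h := by
    refine ⟨convex_univ, fun x _ y _ a b ha hb _ => ?_⟩
    calc h (a • x + b • y) ≤ h (a • x) + h (b • y) := H.add _ _
      _ = a • h x + b • h y := by
          rw [H.smul, H.smul, abs_of_nonneg ha, abs_of_nonneg hb]; rfl
  exact hc.locallyLipschitz.continuous

theorem h_lower (H : SN n h) : ∃ c : ℝ, 0 < c ∧ ∀ v, c * ‖v‖ ≤ h v := by
  by_cases hne : (Metric.sphere (0 : E2 n) 1).Nonempty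
  · obtain ⟨v0, hv0, hmin⟩ := (isCompact_sphere (0 : E2 n) 1).exists_isMinOn hne
      (h_cont H).continuousOn
    have hv0' : v0 ≠ 0 := by
      rintro rfl
      simp at hv0
    refine ⟨h v0, H.pos v0 hv0', fun v => ?_⟩
    by_cases hv : v = 0
    · rw [hv, norm_zero, mul_zero]; exact H.nonneg 0
    · have hn : 0 < ‖v‖ := norm_pos_iff.2 hv
      have h1 : ‖v‖⁻¹ • v ∈ Metric.sphere (0 : E2 n) 1 := by
        rw [mem_sphere_zero_iff_norm, norm_smul, norm_inv, norm_norm, inv_mul_cancel₀ hn.ne']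
      have h2 := hmin h1
      simp only [Set.mem_ofPred_eq] at h2
      rw [H.smul, abs_of_nonneg (by positivity)] at h2
      calc h v0 * ‖v‖ ≤ (‖v‖⁻¹ * h v) * ‖v‖ := mul_le_mul_of_nonneg_right h2 hn.le
        _ = h v := by field_simp
  · refine ⟨1, one_pos, fun v => ?_⟩
    have : v = 0 := by
      by_contra hv
      apply hne
      have hn : 0 < ‖v‖ := norm_pos_iff.2 hv
      exact ⟨‖v‖⁻¹ • v, by
        rw [mem_sphere_zero_iff_norm, norm_smul, norm_inv, norm_norm, inv_mul_cancel₀ hn.ne']⟩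
    rw [this, norm_zero, mul_zero]; exact H.nonneg 0

theorem Sh_compact (H : SN n h) : IsCompact (Sh h) := by
  obtain ⟨c, hc, hlow⟩ := h_lower H
  have hK : IsCompact {v : E2 n | h v ≤ 1} := by
    refine Metric.isCompact_of_isClosed_isBounded (isClosed_le (h_cont H) continuous_const) ?_
    refine (Metric.isBounded_closedBall (x := (0 : E2 n)) (r := 1 / c)).subset ?_
    intro v hv
    rw [mem_closedBall_zero_iff, le_div_iff₀ hc]
    have h1 := hlow v
    have h2 : h v ≤ 1 := hv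
    linarith
  have : Sh h = Prod.snd '' {v : E2 n | h v ≤ 1} := by
    ext y
    constructor
    · rintro ⟨x, hx⟩
      exact ⟨(x, y), hx, rfl⟩
    · rintro ⟨v, hv, rfl⟩
      exact ⟨v.1, hv⟩
  rw [this]
  exact hK.image continuous_snd

/-- a neighbourhood of `(1 - ε) D` is contained in `D` -/
theorem Sh_room (H : SN n h) {ε : ℝ} (hε : 0 < ε) (hε1 : ε < 1) :
    ∃ r : ℝ, 0 < r ∧ ∀ y ∈ Sh h, ∀ z : Fin n → ℝ, ‖z‖ < r → (1 - ε) • y + z ∈ Sh h := by
  have hc : Continuous fun z : Fin n → ℝ => h ((0 : Fin n → ℝ), z) :=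
    (h_cont H).comp (by fun_prop)
  have h0 : h ((0 : Fin n → ℝ), (0 : Fin n → ℝ)) < ε := by
    have : ((0 : Fin n → ℝ), (0 : Fin n → ℝ)) = (0 : E2 n) := rfl
    rw [this, h_zero H]; exact hε
  have hev : ∀ᶠ z : Fin n → ℝ in 𝓝 0, h ((0 : Fin n → ℝ), z) < ε :=
    (hc.tendsto 0).eventually (gt_mem_nhds h0)
  obtain ⟨r, hr, hball⟩ := Metric.eventually_nhds_iff_ball.1 hev
  refine ⟨r, hr, fun y hy z hz => ?_⟩
  obtain ⟨x, hx⟩ := hy
  refine ⟨(1 - ε) • x, ?_⟩
  have e : ((1 - ε) • x, (1 - ε) • y + z) = (1 - ε) • ((x, y) : E2 n) + ((0 : Fin n → ℝ), z) := by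
    simp
  rw [e]
  have h1 := H.add ((1 - ε) • ((x, y) : E2 n)) ((0 : Fin n → ℝ), z)
  rw [H.smul, abs_of_nonneg (by linarith)] at h1
  have h2 := hball z (by simpa using hz)
  have h3 : (1 - ε) * h (x, y) ≤ (1 - ε) * 1 := mul_le_mul_of_nonneg_left hx (by linarith)
  linarith

end norm

theorem MOLL : S_MOLL := by
  intro n h H φ hφ ε hε hε1
  have hcont := h_cont H
  have hD := Sh_compact H
  -- `φ` is continuous on `D`
  have hφc : ContinuousOn φ (Sh h) := by
    intro y hy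
    have hg : Continuous fun y' : Fin n → ℝ => h ((0 : Fin n → ℝ), y' - y) :=
      hcont.comp (by fun_prop)
    have hg0 : h ((0 : Fin n → ℝ), y - y) = 0 := by
      have : ((0 : Fin n → ℝ), y - y) = (0 : E2 n) := by simp
      rw [this, h_zero H]
    have ht : Tendsto (fun y' : Fin n → ℝ => h ((0 : Fin n → ℝ), y' - y)) (𝓝[Sh h] y) (𝓝 0) := by
      have := (hg.tendsto y).mono_left (nhdsWithin_le_nhds (s := Sh h))
      rwa [hg0] at this
    have hev : ∀ᶠ y' in 𝓝[Sh h] y, |φ y' - φ y| ≤ 7 / 4 * h ((0 : Fin n → ℝ), y' - y) := by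
      filter_upwards [ht.eventually (gt_mem_nhds (zero_lt_one)), self_mem_nhdsWithin] with y' h1 h2
      have h3 := hφ y hy y' h2 0 h1.le
      have e : h ((0 : Fin n → ℝ), y - y') = h ((0 : Fin n → ℝ), y' - y) := by
        have := h_neg H ((0 : Fin n → ℝ), y' - y)
        simpa using this
      have h4 := hφ y' h2 y hy 0 (by rw [e]; exact h1.le)
      rw [e] at h4
      simp only [zero_dotProduct, add_zero] at h3 h4
      rw [abs_le]
      constructor <;> linarith
    rw [ContinuousWithinAt, tendsto_iff_norm_sub_tendsto_zero]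
    refine squeeze_zero' (Eventually.of_forall fun _ => norm_nonneg _) hev ?_
    have := ht.const_mul (7 / 4 : ℝ)
    simpa using this
  obtain ⟨r, hr, hroom⟩ := Sh_room H hε hε1
  set ψ : (Fin n → ℝ) → ℝ := (Sh h).indicator φ with hψ
  have hψi : Integrable ψ := by
    rw [hψ, integrable_indicator_iff hD.isClosed.measurableSet]
    exact hφc.integrableOn_compact hD
  let bump : ContDiffBump (0 : Fin n → ℝ) := ⟨r / 4, r / 2, by positivity, by linarith⟩
  set ρ : (Fin n → ℝ) → ℝ := bump.normed volume with hρ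
  have hρ0 : ∀ z, 0 ≤ ρ z := fun z => bump.nonneg_normed z
  have hρ1 : ∫ z, ρ z = 1 := bump.integral_normed
  have hρc : Continuous ρ := bump.continuous_normed
  have hρs : HasCompactSupport ρ := bump.hasCompactSupport_normed
  have hρe : ∀ z, ρ (-z) = ρ z := fun z => bump.normed_neg z
  have hρsupp : ∀ z, r / 2 ≤ ‖z‖ → ρ z = 0 := by
    intro z hz
    by_contra hne
    have : z ∈ Function.support ρ := hne
    rw [hρ, bump.support_normed_eq] at this
    rw [mem_ball_zero_iff] at this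
    exact absurd this (not_lt.2 hz)
  set Φ : (Fin n → ℝ) → ℝ := ρ ⋆[ContinuousLinearMap.lsmul ℝ ℝ, volume] ψ with hΦ
  have hΦs : ContDiff ℝ ∞ Φ :=
    hρs.contDiff_convolution_left _ bump.contDiff_normed hψi.locallyIntegrable
  have hΦe : ∀ y, Φ y = ∫ z, ρ z * ψ (y - z) := fun y => rfl
  have hint : ∀ y, Integrable fun z => ρ z * ψ (y - z) := fun y =>
    (hρs.convolutionExists_left (L := ContinuousLinearMap.lsmul ℝ ℝ) hρc
      hψi.locallyIntegrable y)
  -- the smoothed inequality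
  have key : ∀ y y' ξ : Fin n → ℝ, (∀ z : Fin n → ℝ, ‖z‖ < r / 2 → y - z ∈ Sh h ∧ y' - z ∈ Sh h) →
      h (ξ, y' - y) ≤ 1 →
      Φ y' ≤ Φ y + 7 / 4 * h (ξ, y' - y) + ξ ⬝ᵥ ((1 / 2 : ℝ) • (y + y')) := by
    intro y y' ξ hz hle
    have i1 : Integrable fun z => ρ z * (ξ ⬝ᵥ z) := by
      refine Continuous.integrable_of_hasCompactSupport ?_ ?_
      · refine hρc.mul ?_
        unfold dotProduct
        fun_prop
      · exact hρs.mul_right
    have i0 : ∫ z, ρ z * (ξ ⬝ᵥ z) = 0 := by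
      have h1 : ∫ z, ρ (-z) * (ξ ⬝ᵥ (-z)) = ∫ z, ρ z * (ξ ⬝ᵥ z) :=
        integral_neg_eq_self (fun z => ρ z * (ξ ⬝ᵥ z)) volume
      simp only [hρe, dotProduct_neg, mul_neg] at h1
      rw [integral_neg] at h1
      linarith
    have iρ : Integrable ρ := hρc.integrable_of_hasCompactSupport hρs
    set c := 7 / 4 * h (ξ, y' - y) + ξ ⬝ᵥ ((1 / 2 : ℝ) • (y + y')) with hc
    have hpt : ∀ z, ρ z * ψ (y' - z) ≤ ρ z * ψ (y - z) + (ρ z * c - ρ z * (ξ ⬝ᵥ z)) := by
      intro z
      by_cases hzr : ‖z‖ < r / 2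
      · obtain ⟨h1, h2⟩ := hz z hzr
        have e1 : ψ (y - z) = φ (y - z) := Set.indicator_of_mem h1 _
        have e2 : ψ (y' - z) = φ (y' - z) := Set.indicator_of_mem h2 _
        have e3 : (y' - z) - (y - z) = y' - y := by abel
        have h3 := hφ (y - z) h1 (y' - z) h2 ξ (by rw [e3]; exact hle)
        rw [e3] at h3
        have e4 : ξ ⬝ᵥ ((1 / 2 : ℝ) • ((y - z) + (y' - z))) =
            ξ ⬝ᵥ ((1 / 2 : ℝ) • (y + y')) - ξ ⬝ᵥ z := by
          rw [← dotProduct_sub]
          congr 1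
          ext i
          simp only [Pi.smul_apply, Pi.add_apply, Pi.sub_apply, smul_eq_mul]
          ring
        rw [e4] at h3
        rw [e1, e2]
        have h4 : φ (y' - z) ≤ φ (y - z) + (c - ξ ⬝ᵥ z) := by rw [hc]; linarith
        have h5 := mul_le_mul_of_nonneg_left h4 (hρ0 z)
        linarith
      · rw [hρsupp z (not_lt.1 hzr)]
        simp
    have i2 : Integrable fun z => ρ z * c - ρ z * (ξ ⬝ᵥ z) := (iρ.mul_const c).sub i1
    have i3 : Integrable fun z => ρ z * ψ (y - z) + (ρ z * c - ρ z * (ξ ⬝ᵥ z)) := (hint y).add i2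
    have h6 := integral_mono (hint y') i3 hpt
    have h7 : ∫ z, (ρ z * ψ (y - z) + (ρ z * c - ρ z * (ξ ⬝ᵥ z))) = Φ y + c := by
      rw [integral_add (hint y) i2, integral_sub (iρ.mul_const c) i1, i0,
        integral_mul_const, hρ1, hΦe]
      ring
    calc Φ y' ≤ Φ y + c := h6.trans h7.le
      _ = _ := by rw [hc]; ring
  refine ⟨Φ, hΦs, fun y hy ξ η => ?_⟩
  set y₀ := (1 - ε) • y with hy₀
  -- the derivative
  have hder : HasDerivAt (fun t : ℝ => Φ (y₀ + t • η)) (fderiv ℝ Φ y₀ η) 0 := by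
    have h1 : HasFDerivAt Φ (fderiv ℝ Φ y₀) (y₀ + (0 : ℝ) • η) := by
      rw [zero_smul, add_zero]
      exact (hΦs.differentiable (by simp)).differentiableAt.hasFDerivAt
    have h2 : HasDerivAt (fun t : ℝ => y₀ + t • η) η 0 := by
      have := ((hasDerivAt_id (0 : ℝ)).smul_const η).const_add y₀
      simpa using this
    exact h1.comp_hasDerivAt 0 h2
  have hslope := hder.tendsto_slope_zero_right
  simp only [zero_add, zero_smul, add_zero] at hslope
  have hlim : Tendsto (fun t : ℝ => 7 / 4 * h (ξ, η) + (ξ ⬝ᵥ y₀ + t * (ξ ⬝ᵥ η) / 2)) (𝓝[>] 0)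
      (𝓝 (7 / 4 * h (ξ, η) + (ξ ⬝ᵥ y₀ + 0 * (ξ ⬝ᵥ η) / 2))) := by
    have : Continuous fun t : ℝ => 7 / 4 * h (ξ, η) + (ξ ⬝ᵥ y₀ + t * (ξ ⬝ᵥ η) / 2) := by fun_prop
    exact (this.tendsto 0).mono_left nhdsWithin_le_nhds
  have hle := le_of_tendsto_of_tendsto hslope hlim ?_
  · rw [zero_mul, zero_div, add_zero] at hle
    linarith
  · have e1 : ∀ᶠ t : ℝ in 𝓝[>] 0, t * (‖η‖ + 1) < r / 2 := by
      have hc : Continuous fun t : ℝ => t * (‖η‖ + 1) := by fun_prop
      have h0 : (0 : ℝ) * (‖η‖ + 1) < r / 2 := by rw [zero_mul]; positivity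
      exact ((hc.tendsto 0).mono_left nhdsWithin_le_nhds).eventually (gt_mem_nhds h0)
    have e2 : ∀ᶠ t : ℝ in 𝓝[>] 0, t * (h (ξ, η) + 1) < 1 := by
      have hc : Continuous fun t : ℝ => t * (h (ξ, η) + 1) := by fun_prop
      have h0 : (0 : ℝ) * (h (ξ, η) + 1) < 1 := by rw [zero_mul]; exact one_pos
      exact ((hc.tendsto 0).mono_left nhdsWithin_le_nhds).eventually (gt_mem_nhds h0)
    filter_upwards [e1, e2, self_mem_nhdsWithin] with t ht1 ht2 ht0
    have ht0' : 0 < t := ht0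
    have hsm : h (t • ξ, (y₀ + t • η) - y₀) = t * h (ξ, η) := by
      have e : (t • ξ, (y₀ + t • η) - y₀) = t • ((ξ, η) : E2 n) := by simp
      rw [e, H.smul, abs_of_pos ht0']
    have hη : t * ‖η‖ < r / 2 := by nlinarith
    have k := key y₀ (y₀ + t • η) (t • ξ) (fun z hz => ?_) (by rw [hsm]; nlinarith)
    · rw [hsm] at k
      have e3 : (t • ξ) ⬝ᵥ ((1 / 2 : ℝ) • (y₀ + (y₀ + t • η))) =
          t * (ξ ⬝ᵥ y₀ + t * (ξ ⬝ᵥ η) / 2) := by
        have : (1 / 2 : ℝ) • (y₀ + (y₀ + t • η)) = y₀ + (t / 2) • η := by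
          ext i
          simp only [Pi.smul_apply, Pi.add_apply, smul_eq_mul]
          ring
        rw [this, smul_dotProduct, dotProduct_add, dotProduct_smul (t / 2) ξ η, smul_eq_mul,
          smul_eq_mul]
        ring
      rw [e3] at k
      show t⁻¹ • (Φ (y₀ + t • η) - Φ y₀) ≤ _
      rw [smul_eq_mul, inv_mul_le_iff₀ ht0']
      linarith
    · constructor
      · have := hroom y hy (-z) (by rw [norm_neg]; linarith)
        rwa [← sub_eq_add_neg] at this
      · have := hroom y hy (t • η - z) (by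
          calc ‖t • η - z‖ ≤ ‖t • η‖ + ‖z‖ := norm_sub_le _ _
            _ = t * ‖η‖ + ‖z‖ := by rw [norm_smul, Real.norm_eq_abs, abs_of_pos ht0']
            _ < r := by linarith)
        have e : y₀ + t • η - z = (1 - ε) • y + (t • η - z) := by rw [hy₀]; abel
        rw [e]; exact this

end Pool.Agent.H52.SV
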