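import Pool.Agent.H269.SV.Stm

/-!
# Gluing a logarithmic pole into a plurisubharmonic potential
-/

set_option autoImplicit false

open MeasureTheory Filter Topology Set
open scoped ContDiff Matrix

noncomputable section

namespace Pool.Agent.H287.SV.PL

open Pool.Agent.H269.SV
open H712MA (E2)
open Pool.Agent.Y52.SJ (ball)

theorem levi_congr {n : ℕ} {f g : E2 n → ℝ} {z : E2 n} (h : f =ᶠ[𝓝 z] g) (v : E2 n) :
    levi f z v = levi g z v := by
  have h1 : fderiv ℝ (fderiv ℝ f) z = fderiv ℝ (fderiv ℝ g) z := h.fderiv.fderiv_eq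
  rw [levi, levi, h1]

theorem levi_lin {n : ℕ} {f g : E2 n → ℝ} {z : E2 n} (hf : ContDiffAt ℝ ∞ f z)
    (hg : ContDiffAt ℝ ∞ g z) (a b : ℝ) (v : E2 n) :
    levi (fun y => a * f y + b * g y) z v = a * levi f z v + b * levi g z v := by
  have hf1 : ContDiffAt ℝ 1 f z := hf.of_le (by exact_mod_cast le_top)
  have hg1 : ContDiffAt ℝ 1 g z := hg.of_le (by exact_mod_cast le_top)
  have e1 : fderiv ℝ (fun y => a * f y + b * g y) =ᶠ[𝓝 z]
      fun y => a • fderiv ℝ f y + b • fderiv ℝ g y := by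
    filter_upwards [hf1.eventually (by simp), hg1.eventually (by simp)] with y h1 h2
    exact (((h1.differentiableAt (by simp)).hasFDerivAt.const_mul a).add
      ((h2.differentiableAt (by simp)).hasFDerivAt.const_mul b)).fderiv
  have hf2 : DifferentiableAt ℝ (fderiv ℝ f) z :=
    (hf.fderiv_right (m := ∞) (by simp)).differentiableAt (by simp)
  have hg2 : DifferentiableAt ℝ (fderiv ℝ g) z :=
    (hg.fderiv_right (m := ∞) (by simp)).differentiableAt (by simp)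
  have e2 : fderiv ℝ (fderiv ℝ (fun y => a * f y + b * g y)) z =
      a • fderiv ℝ (fderiv ℝ f) z + b • fderiv ℝ (fderiv ℝ g) z := by
    rw [e1.fderiv_eq]
    exact ((hf2.hasFDerivAt.const_smul a).add (hg2.hasFDerivAt.const_smul b)).fderiv
  rw [levi, levi, levi, e2]
  simp only [_root_.add_apply, _root_.smul_apply, smul_eq_mul]
  ring

theorem nsq_nonneg {n : ℕ} (z : E2 n) : 0 ≤ nsq z :=
  Finset.sum_nonneg fun i _ => by positivity

theorem nsq_pos {n : ℕ} {z : E2 n} (hz : z ≠ 0) : 0 < nsq z := by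
  have hnn : ∀ i ∈ Finset.univ, 0 ≤ z.1 i ^ 2 + z.2 i ^ 2 := fun i _ => by positivity
  refine lt_of_le_of_ne (nsq_nonneg z) fun h => hz ?_
  have h2 := (Finset.sum_eq_zero_iff_of_nonneg hnn).1 h.symm
  have h3 : ∀ i, z.1 i = 0 ∧ z.2 i = 0 := by
    intro i
    have := h2 i (Finset.mem_univ i)
    constructor <;> nlinarith [sq_nonneg (z.1 i), sq_nonneg (z.2 i)]
  exact Prod.ext (funext fun i => (h3 i).1) (funext fun i => (h3 i).2)

theorem nsq_zero {n : ℕ} : nsq (0 : E2 n) = 0 := by simp [nsq]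

theorem contDiff_nsq {n : ℕ} : ContDiff ℝ ∞ (nsq : E2 n → ℝ) := by
  unfold nsq
  refine ContDiff.sum fun i _ => ?_
  have h1 : ContDiff ℝ ∞ (fun z : E2 n => z.1 i) :=
    (contDiff_apply ℝ ℝ i).comp contDiff_fst
  have h2 : ContDiff ℝ ∞ (fun z : E2 n => z.2 i) :=
    (contDiff_apply ℝ ℝ i).comp contDiff_snd
  exact (h1.pow 2).add (h2.pow 2)

theorem POLE : S_POLE := by
  intro hT hM hL n m ι _ h P s κ τ r N hn hm hs hκ hτ hP hN hN0 hNC hNl hr hrs
  obtain ⟨L1, L2, L3⟩ := hL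
  obtain ⟨μ, hμs, hμ0, hμ1, hμd⟩ := hM
  obtain ⟨cl, hcl, hlow⟩ := hP.lower
  obtain ⟨C, hC, ρ, hρ, hupp⟩ := hP.upper
  obtain ⟨CN, hCN⟩ := hNC
  have hm0 : (0 : ℝ) < m := by exact_mod_cast hm
  -- the levels
  have hrpos : 0 < r ^ 2 := by positivity
  obtain ⟨γ, hγs, hγ0, hrγ⟩ : ∃ γ : ℝ, γ < s ∧ 0 < γ ∧ r ^ 2 < 4 * (m * γ / κ) := by
    have h1 : r ^ 2 * κ / (4 * m) < s := by
      rw [div_lt_iff₀ (by positivity)]
      rw [lt_div_iff₀ hκ] at hrs
      linarith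
    obtain ⟨γ, h2, h3⟩ := exists_between h1
    refine ⟨γ, h3, lt_trans (by positivity) h2, ?_⟩
    rw [div_lt_iff₀ (by positivity)] at h2
    rw [← mul_div_assoc, lt_div_iff₀ hκ]
    linarith
  obtain ⟨s₀, hγs₀, hs₀s⟩ := exists_between hγs
  obtain ⟨s₁, hs₀₁, hs₁s⟩ := exists_between hs₀s
  have hs₀ : 0 < s₀ := hγ0.trans hγs₀
  obtain ⟨Θ, c₀, hΘs, hΘ1, hΘ0, hΘd⟩ := hT s₀ s₁ hs₀ hs₀₁
  have hΘmono : StrictMonoOn Θ (Ioi 0) := by
    refine strictMonoOn_of_deriv_pos (convex_Ioi 0) hΘs.continuousOn fun x hx => ?_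
    rw [interior_Ioi] at hx
    exact (hΘd x hx).1
  set D₀ : ℝ := s₀ * Real.log (s / s₀) with hD₀
  have hΘlow : ∀ t, 0 < t → t < s → s₀ * Real.log t + c₀ - D₀ ≤ Θ t := by
    intro t ht hts
    have hl0 : 0 ≤ Real.log (s / s₀) := Real.log_nonneg (by rw [le_div_iff₀ hs₀]; linarith)
    rcases le_total t s₀ with h1 | h1
    · rw [hΘ0 t ht h1]
      have : 0 ≤ D₀ := mul_nonneg hs₀.le hl0
      linarith
    · have h2 : Θ s₀ ≤ Θ t := hΘmono.monotoneOn (mem_Ioi.2 hs₀) (mem_Ioi.2 ht) h1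
      rw [hΘ0 s₀ hs₀ le_rfl] at h2
      have h3 : Real.log t ≤ Real.log s := Real.log_le_log ht hts.le
      rw [hD₀, Real.log_div hs.ne' hs₀.ne']
      nlinarith
  -- basic facts on `P`
  have hP0 : P 0 = 0 := by
    have h1 := hupp 0 (by rw [nsq_zero]; exact hρ)
    rw [nsq_zero, zero_pow (by omega), mul_zero] at h1
    exact le_antisymm h1.2 (hP.nonneg 0)
  have hPpos : ∀ z, z ≠ 0 → P z < s → 0 < P z := by
    intro z hz hzs
    have h1 := hlow z hzs
    have h2 : 0 < cl * nsq z ^ m := mul_pos hcl (pow_pos (nsq_pos hz) m)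
    linarith
  set a : ℝ := m * γ / κ with ha
  have ha0 : 0 < a := by positivity
  set b' : ℝ := m * s₀ / κ with hb'
  set b : ℝ := b' - a with hb
  have hb0 : 0 < b := by
    rw [hb, hb', ha, ← sub_div, ← mul_sub]
    exact div_pos (mul_pos hm0 (by linarith)) hκ
  set g₁ : E2 n → ℝ := fun z => Θ (P z) / κ + τ * N z with hg₁
  set B₂ : ℝ := (s₀ * Real.log cl + c₀ - D₀) / κ with hB₂
  have hA : ∀ z, z ≠ 0 → P z < s → b' * Real.log (nsq z) + B₂ ≤ g₁ z := by
    intro z hz hzs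
    have h1 := hΘlow (P z) (hPpos z hz hzs) hzs
    have h2 : Real.log cl + m * Real.log (nsq z) ≤ Real.log (P z) := by
      rw [← Real.log_pow, ← Real.log_mul hcl.ne' (pow_pos (nsq_pos hz) m).ne']
      exact Real.log_le_log (mul_pos hcl (pow_pos (nsq_pos hz) m)) (hlow z hzs)
    have h3 : s₀ * (Real.log cl + m * Real.log (nsq z)) + c₀ - D₀ ≤ Θ (P z) := by
      nlinarith
    have h4 : (s₀ * (Real.log cl + m * Real.log (nsq z)) + c₀ - D₀) / κ ≤ Θ (P z) / κ :=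
      div_le_div_of_nonneg_right h3 hκ.le
    have h5 : b' * Real.log (nsq z) + B₂ =
        (s₀ * (Real.log cl + m * Real.log (nsq z)) + c₀ - D₀) / κ := by
      rw [hb', hB₂]; ring
    have h6 := mul_nonneg hτ.le (hN0 z)
    simp only [hg₁]
    linarith
  -- near the origin
  set ρ' : ℝ := min ρ (min 1 (s₀ / C)) with hρ'
  have hρ'0 : 0 < ρ' := lt_min hρ (lt_min one_pos (div_pos hs₀ hC))
  have hPs₀ : ∀ z, nsq z < ρ' → P z ≤ s₀ ∧ P z ≤ C * nsq z ^ m := by
    intro z hz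
    have h1 := hupp z (lt_of_lt_of_le hz (min_le_left _ _))
    have h2 : nsq z < 1 := lt_of_lt_of_le hz ((min_le_right _ _).trans (min_le_left _ _))
    have h3 : nsq z < s₀ / C := lt_of_lt_of_le hz ((min_le_right _ _).trans (min_le_right _ _))
    have h4 : nsq z ^ m ≤ nsq z := pow_le_of_le_one (nsq_nonneg z) h2.le (by omega)
    rw [lt_div_iff₀ hC] at h3
    refine ⟨?_, h1.2⟩
    nlinarith [h1.2]
  set B₁ : ℝ := (s₀ * Real.log C + c₀) / κ + τ * |CN| with hB₁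
  have hB : ∀ z, z ≠ 0 → nsq z < ρ' → g₁ z ≤ b' * Real.log (nsq z) + B₁ := by
    intro z hz hzρ
    obtain ⟨h1, h2⟩ := hPs₀ z hzρ
    have hzs : P z < s := by linarith
    have hPz := hPpos z hz hzs
    have h3 : Real.log (P z) ≤ Real.log C + m * Real.log (nsq z) := by
      rw [← Real.log_pow, ← Real.log_mul hC.ne' (pow_pos (nsq_pos hz) m).ne']
      exact Real.log_le_log hPz h2
    have h4 : Θ (P z) ≤ s₀ * (Real.log C + m * Real.log (nsq z)) + c₀ := by
      rw [hΘ0 _ hPz h1]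
      nlinarith
    have h5 : Θ (P z) / κ ≤ (s₀ * (Real.log C + m * Real.log (nsq z)) + c₀) / κ :=
      div_le_div_of_nonneg_right h4 hκ.le
    have h6 : N z ≤ |CN| := by
      have h7 := hCN z
      have h8 : nsq z < 1 :=
        lt_of_lt_of_le hzρ ((min_le_right _ _).trans (min_le_left _ _))
      have h9 : CN * nsq z ≤ |CN| * nsq z :=
        mul_le_mul_of_nonneg_right (le_abs_self _) (nsq_nonneg z)
      have h10 : |CN| * nsq z ≤ |CN| * 1 := mul_le_mul_of_nonneg_left h8.le (abs_nonneg _)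
      linarith
    have h7 : τ * N z ≤ τ * |CN| := mul_le_mul_of_nonneg_left h6 hτ.le
    have h8 : b' * Real.log (nsq z) + B₁ =
        (s₀ * (Real.log C + m * Real.log (nsq z)) + c₀) / κ + τ * |CN| := by
      rw [hb', hB₁]; ring
    simp only [hg₁]
    linarith
  -- constants
  obtain ⟨Q₂, hQ₂0, hQ₂ρ⟩ := exists_between hρ'0
  set c₂ : ℝ := b * Real.log Q₂ + B₂ - a * Real.log 2 - 1 with hc₂
  set Q₁ : ℝ := min Q₂ (Real.exp ((c₂ - B₁ - 1) / b)) with hQ₁
  have hQ₁0 : 0 < Q₁ := lt_min hQ₂0 (Real.exp_pos _)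
  set R : ℝ := Real.sqrt Q₁ with hR
  have hR0 : 0 < R := Real.sqrt_pos.2 hQ₁0
  have hR2 : R ^ 2 = Q₁ := Real.sq_sqrt hQ₁0.le
  set d : ℝ := min Q₂ ((4 * a - r ^ 2) * R ^ 2 / r ^ 2) with hd
  have hd0 : 0 < d := lt_min hQ₂0 (div_pos (mul_pos (by linarith) (by positivity)) hrpos)
  set δ : ℝ := Real.sqrt d with hδ
  have hδ0 : 0 < δ := Real.sqrt_pos.2 hd0
  have hδ2 : δ ^ 2 = d := Real.sq_sqrt hd0.le
  have hδQ : δ ^ 2 ≤ Q₂ := by rw [hδ2]; exact min_le_left _ _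
  have hδr : r ^ 2 * (R ^ 2 + δ ^ 2) ≤ 4 * a * R ^ 2 := by
    have h1 : δ ^ 2 ≤ (4 * a - r ^ 2) * R ^ 2 / r ^ 2 := by rw [hδ2]; exact min_le_right _ _
    rw [le_div_iff₀ hrpos] at h1
    linarith
  set g₂ : E2 n → ℝ := fun z => a * Real.log (nsq z + δ ^ 2) + c₂ with hg₂
  have hδp : 0 < δ ^ 2 := by positivity
  have hnd : ∀ z : E2 n, 0 < nsq z + δ ^ 2 := fun z => by
    have := nsq_nonneg z
    linarith
  -- far away
  have hfar : ∀ z, Q₂ ≤ nsq z → P z < s → 1 ≤ g₁ z - g₂ z := by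
    intro z hz hzs
    have hnz : 0 < nsq z := lt_of_lt_of_le hQ₂0 hz
    have hz0 : z ≠ 0 := by
      rintro rfl
      rw [nsq_zero] at hnz
      exact lt_irrefl _ hnz
    have h1 := hA z hz0 hzs
    have h2 : Real.log (nsq z + δ ^ 2) ≤ Real.log (nsq z) + Real.log 2 := by
      rw [← Real.log_mul hnz.ne' two_ne_zero]
      exact Real.log_le_log (hnd z) (by linarith)
    have h3 : Real.log Q₂ ≤ Real.log (nsq z) := Real.log_le_log hQ₂0 hz
    have h4 : a * Real.log (nsq z + δ ^ 2) ≤ a * (Real.log (nsq z) + Real.log 2) :=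
      mul_le_mul_of_nonneg_left h2 ha0.le
    have h5 : b * Real.log Q₂ ≤ b * Real.log (nsq z) := mul_le_mul_of_nonneg_left h3 hb0.le
    have h6 : b * Real.log (nsq z) = b' * Real.log (nsq z) - a * Real.log (nsq z) := by
      rw [hb]; ring
    simp only [hg₂]
    rw [hc₂]
    linarith
  have hnear : ∀ z, z ≠ 0 → nsq z < Q₁ → g₁ z - g₂ z ≤ -1 := by
    intro z hz hzQ
    have hnz := nsq_pos hz
    have h1 := hB z hz (by
      refine hzQ.trans (lt_of_le_of_lt (min_le_left _ _) hQ₂ρ))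
    have h2 : Real.log (nsq z) ≤ Real.log (nsq z + δ ^ 2) := Real.log_le_log hnz (by linarith)
    have h3 : Real.log (nsq z) ≤ (c₂ - B₁ - 1) / b := by
      rw [← Real.log_exp ((c₂ - B₁ - 1) / b)]
      exact Real.log_le_log hnz (hzQ.le.trans (min_le_right _ _))
    have h4 : b * Real.log (nsq z) ≤ c₂ - B₁ - 1 := by
      have := mul_le_mul_of_nonneg_left h3 hb0.le
      rwa [mul_div_cancel₀ _ hb0.ne'] at this
    have h5 : a * Real.log (nsq z) ≤ a * Real.log (nsq z + δ ^ 2) :=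
      mul_le_mul_of_nonneg_left h2 ha0.le
    have h6 : b * Real.log (nsq z) = b' * Real.log (nsq z) - a * Real.log (nsq z) := by
      rw [hb]; ring
    simp only [hg₂]
    linarith
  -- smoothness
  have hU : IsOpen {z | P z < s} := isOpen_lt hP.cont continuous_const
  have hPs : ∀ z, P z < s → ContDiffAt ℝ ∞ P z := by
    intro z hz
    have h1 : P =ᶠ[𝓝 z] fun y => ∑ j, ‖h j y‖ ^ 2 := by
      filter_upwards [hU.mem_nhds hz] with y hy
      exact hP.eq y hy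
    refine ContDiffAt.congr_of_eventuallyEq ?_ h1
    refine ContDiffAt.sum fun j _ => ?_
    exact ((hP.smooth j).contDiffAt (hU.mem_nhds hz)).norm_sq ℝ
  have hΘat : ∀ t, 0 < t → ContDiffAt ℝ ∞ Θ t := fun t ht =>
    hΘs.contDiffAt (Ioi_mem_nhds ht)
  have hΘP : ∀ z, z ≠ 0 → P z < s → ContDiffAt ℝ ∞ (fun y => Θ (P y)) z := fun z hz hzs =>
    (hΘat _ (hPpos z hz hzs)).comp z (hPs z hzs)
  have hg₁s : ∀ z, z ≠ 0 → P z < s → ContDiffAt ℝ ∞ g₁ z := fun z hz hzs =>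
    ((hΘP z hz hzs).div_const κ).add (contDiffAt_const.mul hN.contDiffAt)
  have hg₂s : ContDiff ℝ ∞ g₂ :=
    (contDiff_const.mul ((contDiff_nsq.add contDiff_const).log fun z => (hnd z).ne')).add
      contDiff_const
  have hμg : ∀ z, z ≠ 0 → P z < s → ContDiffAt ℝ ∞ (fun y => μ (g₁ y - g₂ y)) z :=
    fun z hz hzs => hμs.contDiffAt.comp z ((hg₁s z hz hzs).sub hg₂s.contDiffAt)
  classical
  set f₀ : E2 n → ℝ := fun z => if z = 0 then g₂ z else g₂ z + μ (g₁ z - g₂ z) with hf₀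
  have hf₀near : ∀ z, nsq z < Q₁ → f₀ z = g₂ z := by
    intro z hz
    simp only [hf₀]
    by_cases hz0 : z = 0
    · rw [if_pos hz0]
    · rw [if_neg hz0, hμ0 _ (hnear z hz0 hz), add_zero]
  have hev1 : ∀ z, nsq z < Q₁ → f₀ =ᶠ[𝓝 z] g₂ := by
    intro z hz
    filter_upwards [(isOpen_lt contDiff_nsq.continuous continuous_const).mem_nhds hz] with y hy
    exact hf₀near y hy
  have hev2 : ∀ z, z ≠ 0 → f₀ =ᶠ[𝓝 z] fun y => 1 * g₂ y + 1 * μ (g₁ y - g₂ y) := by
    intro z hz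
    filter_upwards [isOpen_ne.mem_nhds hz] with y hy
    simp only [hf₀]
    rw [if_neg hy, one_mul, one_mul]
  have hlevi₂ : ∀ z v, v ≠ 0 → 0 < levi g₂ z v := by
    intro z v hv
    have h1 := L3 n a δ c₂ z v ha0 hδ0
    have h2 := nsq_pos hv
    have h3 : 0 < 4 * a * δ ^ 2 * nsq v / (nsq z + δ ^ 2) ^ 2 := by
      have := hnd z
      positivity
    exact lt_of_lt_of_le h3 h1
  have hlevi₁ : ∀ z, z ≠ 0 → P z < s → ∀ v, v ≠ 0 → 0 < levi g₁ z v := by
    intro z hz hzs v hv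
    have hPz := hPpos z hz hzs
    have e1 : levi g₁ z v = κ⁻¹ * levi (fun y => Θ (P y)) z v + τ * levi N z v := by
      have e2 : g₁ = fun y => κ⁻¹ * Θ (P y) + τ * N y := by
        funext y
        simp only [hg₁]
        ring
      rw [e2]
      exact levi_lin (hΘP z hz hzs) hN.contDiffAt κ⁻¹ τ v
    have e3 := L1 n P Θ z v (hPs z hzs) (hΘat _ hPz)
    obtain ⟨e4, e5⟩ := L2 n ι P h {z | P z < s} z v hU hzs (fun y hy => hP.eq y hy) hP.smooth
      (fun j y hy v => hP.hol j y hy v)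
    have h1 : 0 ≤ levi P z v := by
      rw [e4]
      positivity
    obtain ⟨h2, h3⟩ := hΘd (P z) hPz
    have h4 : 0 ≤ levi (fun y => Θ (P y)) z v := by
      rw [e3]
      rcases le_total 0 (deriv (deriv Θ) (P z)) with h5 | h5
      · have h6 := mul_nonneg h2.le h1
        have h7 : 0 ≤ deriv (deriv Θ) (P z) *
            ((fderiv ℝ P z v) ^ 2 + (fderiv ℝ P z (JJ n v)) ^ 2) := mul_nonneg h5 (by positivity)
        linarith
      · have h6 := mul_le_mul_of_nonpos_left e5 h5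
        have h7 := mul_nonneg h3 h1
        nlinarith
    have h5 := hNl z v hv
    rw [e1]
    have h6 := mul_nonneg (inv_nonneg.2 hκ.le) h4
    have h7 := mul_pos hτ h5
    linarith
  refine ⟨s₁, f₀, a, δ, R, c₂, hs₁s, ?_, ?_, ?_, ha0, hδ0, hR0, hδr, ?_, ?_⟩
  · intro z hz
    refine ContDiffAt.contDiffWithinAt ?_
    by_cases hz0 : z = 0
    · refine hg₂s.contDiffAt.congr_of_eventuallyEq (hev1 z ?_)
      rw [hz0, nsq_zero]; exact hQ₁0
    · refine ContDiffAt.congr_of_eventuallyEq ?_ (hev2 z hz0)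
      exact (contDiffAt_const.mul hg₂s.contDiffAt).add (contDiffAt_const.mul (hμg z hz0 hz))
  · intro z hzs hz1
    have h1 : Q₂ ≤ nsq z := by
      by_contra hlt
      push Not at hlt
      have := (hPs₀ z (hlt.trans hQ₂ρ)).1
      linarith
    have h2 := hfar z h1 hzs
    have hz0 : z ≠ 0 := by
      rintro rfl
      rw [nsq_zero] at h1
      linarith
    simp only [hf₀]
    rw [if_neg hz0, hμ1 _ h2]
    simp only [hg₁]
    rw [hΘ1 _ hz1]
    ring
  · intro z hzs v hv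
    by_cases hz0 : z = 0
    · rw [levi_congr (hev1 z (by rw [hz0, nsq_zero]; exact hQ₁0))]
      exact hlevi₂ z v hv
    · rw [levi_congr (hev2 z hz0), levi_lin hg₂s.contDiffAt (hμg z hz0 hzs)]
      have hsub : ContDiffAt ℝ ∞ (fun y => g₁ y - g₂ y) z :=
        (hg₁s z hz0 hzs).sub hg₂s.contDiffAt
      have e1 := L1 n (fun y => g₁ y - g₂ y) μ z v hsub hμs.contDiffAt
      have e2 : levi (fun y => g₁ y - g₂ y) z v = levi g₁ z v - levi g₂ z v := by
        have e3 : (fun y => g₁ y - g₂ y) = fun y => 1 * g₁ y + (-1) * g₂ y := by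
          funext y; ring
        rw [e3, levi_lin (hg₁s z hz0 hzs) hg₂s.contDiffAt]
        ring
      rw [e1, e2]
      obtain ⟨m1, m2, m3⟩ := hμd (g₁ z - g₂ z)
      have h1 := hlevi₁ z hz0 hzs v hv
      have h2 := hlevi₂ z v hv
      have h3 : 0 ≤ deriv (deriv μ) (g₁ z - g₂ z) *
        ((fderiv ℝ (fun y => g₁ y - g₂ y) z v) ^ 2 +
          (fderiv ℝ (fun y => g₁ y - g₂ y) z (JJ n v)) ^ 2) := mul_nonneg m3 (by positivity)
      have h4 : 0 ≤ (1 - deriv μ (g₁ z - g₂ z)) * levi g₂ z v := mul_nonneg (by linarith) h2.le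
      have h5 : 0 ≤ deriv μ (g₁ z - g₂ z) * levi g₁ z v := mul_nonneg m1 h1.le
      rcases eq_or_lt_of_le m1 with h6 | h6
      · rw [← h6] at h4 h5 ⊢
        linarith
      · have h7 := mul_pos h6 h1
        linarith
  · intro z hz
    have h1 : nsq z < Q₁ := by rw [← hR2]; exact hz
    have h2 := (hPs₀ z (h1.trans (lt_of_le_of_lt (min_le_left _ _) hQ₂ρ))).1
    linarith
  · intro z hz
    have h1 : nsq z < Q₁ := by rw [← hR2]; exact hz
    rw [hf₀near z h1]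

end Pool.Agent.H287.SV.PL
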