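import Pool.Agent.H269.SV.Core4
import Pool.Agent.H269.SV.MOLL

/-!
# Project SV: centrally symmetric convex domains
-/

set_option autoImplicit false

open MeasureTheory Filter Topology Set
open scoped ContDiff Matrix Pointwise

noncomputable section

namespace Pool.Agent.H269.SV

open H712MA (pk WW eta hd gg VV E2 Spans)
open Pool.Agent.Y52.SJ (std SympEmb ball cyl gromovWidth cylCapacity)
open Pool.Agent.H52.SV (h_zero h_neg h_cont h_lower Sh_compact Sh_room)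

theorem Sh_convex {n : ℕ} {h : E2 n → ℝ} (H : SN n h) : Convex ℝ (Sh h) := by
  rintro y ⟨x, hx⟩ y' ⟨x', hx'⟩ a b ha hb hab
  refine ⟨a • x + b • x', ?_⟩
  have e : ((a • x + b • x', a • y + b • y') : E2 n) = a • (x, y) + b • (x', y') := by simp
  rw [e]
  have h1 := H.add (a • ((x, y) : E2 n)) (b • (x', y'))
  rw [H.smul, H.smul, abs_of_nonneg ha, abs_of_nonneg hb] at h1
  nlinarith

theorem Sh_symm {n : ℕ} {h : E2 n → ℝ} (H : SN n h) : ∀ y ∈ Sh h, -y ∈ Sh h := by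
  rintro y ⟨x, hx⟩
  refine ⟨-x, ?_⟩
  have e : ((-x, -y) : E2 n) = -(x, y) := by simp
  rw [e, h_neg H]
  exact hx

theorem Sh_zero {n : ℕ} {h : E2 n → ℝ} (H : SN n h) : (0 : Fin n → ℝ) ∈ interior (Sh h) := by
  obtain ⟨r, hr, h1⟩ := Sh_room H (ε := 1 / 2) (by norm_num) (by norm_num)
  rw [mem_interior_iff_mem_nhds]
  have h0 : (0 : Fin n → ℝ) ∈ Sh h := ⟨0, by
    have : (((0 : Fin n → ℝ), (0 : Fin n → ℝ)) : E2 n) = 0 := rfl
    rw [this, h_zero H]; exact zero_le_one⟩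
  refine Filter.mem_of_superset (Metric.ball_mem_nhds 0 hr) fun z hz => ?_
  have := h1 0 h0 z (by simpa using hz)
  simpa using this

theorem std_sum {n : ℕ} (v w : E2 n) : std v w = v.1 ⬝ᵥ w.2 - v.2 ⬝ᵥ w.1 := by
  unfold std dotProduct
  rw [← Finset.sum_sub_distrib]

/-- the gradient -/
def grad {n : ℕ} (Φ : (Fin n → ℝ) → ℝ) (y : Fin n → ℝ) : Fin n → ℝ :=
  fun i => fderiv ℝ Φ y (Pi.single i 1)

theorem grad_dot {n : ℕ} (Φ : (Fin n → ℝ) → ℝ) (y v : Fin n → ℝ) :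
    grad Φ y ⬝ᵥ v = fderiv ℝ Φ y v := by
  have e : v = ∑ i, v i • (Pi.single i (1 : ℝ) : Fin n → ℝ) := by
    ext j
    simp [Finset.sum_apply, Pi.single_apply]
  conv_rhs => rw [e]
  rw [map_sum]
  unfold grad dotProduct
  refine Finset.sum_congr rfl fun i _ => ?_
  rw [map_smul, smul_eq_mul, mul_comm]

theorem grad_contDiff {n : ℕ} {Φ : (Fin n → ℝ) → ℝ} (hΦ : ContDiff ℝ ∞ Φ) :
    ContDiff ℝ ∞ (grad Φ) := by
  have h1 : ContDiff ℝ ∞ (fderiv ℝ Φ) := hΦ.fderiv_right (m := ∞) (by simp)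
  rw [contDiff_pi]
  intro i
  exact h1.clm_apply contDiff_const

theorem grad_fderiv {n : ℕ} {Φ : (Fin n → ℝ) → ℝ} (hΦ : ContDiff ℝ ∞ Φ) (y u v : Fin n → ℝ) :
    fderiv ℝ (grad Φ) y u ⬝ᵥ v = fderiv ℝ (fderiv ℝ Φ) y u v := by
  have h1 : ContDiff ℝ ∞ (fderiv ℝ Φ) := hΦ.fderiv_right (m := ∞) (by simp)
  have hd : DifferentiableAt ℝ (fderiv ℝ Φ) y := h1.differentiable (by simp) y
  have e : ∀ i, fderiv ℝ (grad Φ) y u i = fderiv ℝ (fderiv ℝ Φ) y u (Pi.single i 1) := by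
    intro i
    have h2 : DifferentiableAt ℝ (grad Φ) y := (grad_contDiff hΦ).differentiable (by simp) y
    have h3 := (hasFDerivAt_pi'.1 h2.hasFDerivAt i)
    have h4 : HasFDerivAt (fun y => fderiv ℝ Φ y (Pi.single i 1))
        ((fderiv ℝ (fderiv ℝ Φ) y).flip (Pi.single i 1)) y := by
      have := hd.hasFDerivAt.clm_apply (hasFDerivAt_const (Pi.single i (1 : ℝ)) y)
      simpa using this
    have h5 := h3.unique h4
    have h6 := congrArg (fun L => L u) h5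
    simpa using h6
  have ev : v = ∑ i, v i • (Pi.single i (1 : ℝ) : Fin n → ℝ) := by
    ext j
    simp [Finset.sum_apply, Pi.single_apply]
  conv_rhs => rw [ev]
  rw [map_sum]
  unfold dotProduct
  refine Finset.sum_congr rfl fun i _ => ?_
  rw [map_smul, smul_eq_mul, e i, mul_comm]

theorem symm2 {n : ℕ} {Φ : (Fin n → ℝ) → ℝ} (hΦ : ContDiff ℝ ∞ Φ) (y u v : Fin n → ℝ) :
    fderiv ℝ (fderiv ℝ Φ) y u v = fderiv ℝ (fderiv ℝ Φ) y v u := by
  have hs : IsSymmSndFDerivAt ℝ Φ y :=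
    hΦ.contDiffAt.isSymmSndFDerivAt (by
      rw [minSmoothness_of_isRCLikeNormedField]
      exact WithTop.coe_le_coe.2 (le_top : (2 : ℕ∞) ≤ ⊤))
  exact hs.eq u v

/-- the unit ball of a self-dual norm contains all balls of capacity less than `4/7` -/
theorem sheared (hCORE : S_CORE) (hCHAIN : S_CHAIN) {n : ℕ} (hn : 1 ≤ n)
    {h : E2 n → ℝ} (H : SN n h) (r : ℝ) (hr : 0 < r) (hr4 : Real.pi * r ^ 2 < 4 / 7) :
    SympEmb (ball n r) {v | h v < 1} := by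
  have hpi := Real.pi_pos
  -- choose ε
  obtain ⟨ε, hε0, hε1, hε⟩ : ∃ ε : ℝ, 0 < ε ∧ ε < 1 ∧
      Real.pi * r ^ 2 < 4 / 7 * (1 - ε) ^ 2 := by
    have hc : ContinuousAt (fun ε : ℝ => 4 / 7 * (1 - ε) ^ 2) 0 := by fun_prop
    have h1 : ∀ᶠ ε : ℝ in 𝓝 0, Real.pi * r ^ 2 < 4 / 7 * (1 - ε) ^ 2 :=
      hc.eventually (lt_mem_nhds (by simpa using hr4))
    have h2 : ∀ᶠ ε : ℝ in 𝓝[>] 0, Real.pi * r ^ 2 < 4 / 7 * (1 - ε) ^ 2 :=
      h1.filter_mono nhdsWithin_le_nhds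
    obtain ⟨ε, h3, h4⟩ := (h2.and (Ioo_mem_nhdsGT (zero_lt_one' ℝ))).exists
    exact ⟨ε, h4.1, h4.2, h3⟩
  obtain ⟨φ, hφ⟩ := hCHAIN n h H
  obtain ⟨Φ, hΦs, hΦ⟩ := Pool.Agent.H52.SV.MOLL n h H φ hφ ε hε0 hε1
  have h1ε : 0 < 1 - ε := by linarith
  set q : ℝ := (1 - ε) ^ 2 / 7 with hq
  have hq0 : 0 < q := by positivity
  have hsq : 0 < Real.sqrt q := Real.sqrt_pos.2 hq0
  have h1 := hCORE n (Sh h) hn (Sh_compact H) (Sh_convex H) (Sh_symm H) (Sh_zero H)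
    ((Real.sqrt q)⁻¹ * r) (by positivity) (by
      rw [mul_pow, inv_pow, Real.sq_sqrt hq0.le]
      rw [← mul_assoc, mul_comm Real.pi, mul_assoc, inv_mul_lt_iff₀ hq0, hq]
      linarith)
  set T : E2 n → E2 n := fun z => (((1 - ε) / 2) • z.1 + (2 / 7 : ℝ) • grad Φ ((1 - ε) • z.2),
    (2 / 7 * (1 - ε)) • z.2) with hT
  have hgc := grad_contDiff hΦs
  have hTs : ContDiff ℝ ∞ T := by
    have h2 : ContDiff ℝ ∞ fun z : E2 n => grad Φ ((1 - ε) • z.2) :=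
      hgc.comp (contDiff_snd.const_smul (1 - ε))
    exact ((contDiff_fst.const_smul _).add (h2.const_smul _)).prodMk (contDiff_snd.const_smul _)
  have h2 := emb_conf (q := q) (W' := {v : E2 n | h v < 1}) hq0 h1 T hTs ?_ ?_ ?_
  · have e : Real.sqrt q * ((Real.sqrt q)⁻¹ * r) = r := by
      rw [← mul_assoc, mul_inv_cancel₀ hsq.ne', one_mul]
    rw [e] at h2
    exact h2
  · intro v _ w _ hvw
    rw [hT, Prod.mk.injEq] at hvw
    obtain ⟨h3, h4⟩ := hvw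
    have h5 : v.2 = w.2 := smul_right_injective _ (by positivity : (2 / 7 * (1 - ε)) ≠ 0) h4
    rw [h5] at h3
    have h6 := add_right_cancel h3
    have h7 : v.1 = w.1 := smul_right_injective _ (by positivity : ((1 - ε) / 2) ≠ 0) h6
    exact Prod.ext h7 h5
  · rintro z ⟨hz1, hz2⟩
    have hz2' : z.2 ∈ Sh h := interior_subset hz2
    have e : T z = ((1 - ε) / 2) • ((z.1, 0) : E2 n) +
        (2 / 7 : ℝ) • ((grad Φ ((1 - ε) • z.2), (1 - ε) • z.2) : E2 n) := by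
      rw [hT]
      simp [smul_smul]
    have hA : h (z.1, 0) ≤ 1 := by
      refine H.dual _ 1 zero_le_one fun w => ?_
      rw [std_sum, one_mul]
      simp only [zero_dotProduct, sub_zero]
      by_cases hw : w = 0
      · rw [hw]; simp [h_zero H]
      · have hw0 := H.pos w hw
        have h3 : ((h w)⁻¹ • w.2) ∈ Sh h := ⟨(h w)⁻¹ • w.1, by
          have : (((h w)⁻¹ • w.1, (h w)⁻¹ • w.2) : E2 n) = (h w)⁻¹ • w := rfl
          rw [this, H.smul, abs_of_pos (inv_pos.2 hw0), inv_mul_cancel₀ hw0.ne']⟩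
        have h4 := (le_abs_self _).trans (hz1 _ h3).le
        rw [smul_dotProduct, smul_eq_mul, inv_mul_le_iff₀ hw0, mul_one, dotProduct_comm] at h4
        exact h4
    have hB : h (grad Φ ((1 - ε) • z.2), (1 - ε) • z.2) ≤ 7 / 4 := by
      refine H.dual _ (7 / 4) (by norm_num) fun w => ?_
      rw [std_sum]
      simp only
      rw [grad_dot, dotProduct_comm]
      exact hΦ z.2 hz2' w.1 w.2
    change h (T z) < 1
    rw [e]
    have h3 := H.add (((1 - ε) / 2) • ((z.1, 0) : E2 n))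
      ((2 / 7 : ℝ) • ((grad Φ ((1 - ε) • z.2), (1 - ε) • z.2) : E2 n))
    rw [H.smul, H.smul, abs_of_pos (by positivity : 0 < (1 - ε) / 2),
      abs_of_pos (by norm_num : (0 : ℝ) < 2 / 7)] at h3
    have h4 : (1 - ε) / 2 * h (z.1, 0) ≤ (1 - ε) / 2 * 1 :=
      mul_le_mul_of_nonneg_left hA (by positivity)
    have h5 : (2 / 7 : ℝ) * h (grad Φ ((1 - ε) • z.2), (1 - ε) • z.2) ≤ 2 / 7 * (7 / 4) :=
      mul_le_mul_of_nonneg_left hB (by norm_num)
    linarith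
  · intro z _ u v
    have hgd : HasFDerivAt (grad Φ) (fderiv ℝ (grad Φ) ((1 - ε) • z.2)) ((1 - ε) • z.2) :=
      (hgc.differentiable (by simp) _).hasFDerivAt
    have hs2 : HasFDerivAt (fun z : E2 n => (1 - ε) • z.2)
        ((1 - ε) • ContinuousLinearMap.snd ℝ (Fin n → ℝ) (Fin n → ℝ)) z := by
      have h9 : HasFDerivAt (fun z : E2 n => z.2)
        (ContinuousLinearMap.snd ℝ (Fin n → ℝ) (Fin n → ℝ)) z := hasFDerivAt_snd
      exact h9.fun_const_smul (1 - ε)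
    have hs3 : HasFDerivAt (fun z : E2 n => (2 / 7 * (1 - ε)) • z.2)
        ((2 / 7 * (1 - ε)) • ContinuousLinearMap.snd ℝ (Fin n → ℝ) (Fin n → ℝ)) z := by
      have h9 : HasFDerivAt (fun z : E2 n => z.2)
        (ContinuousLinearMap.snd ℝ (Fin n → ℝ) (Fin n → ℝ)) z := hasFDerivAt_snd
      exact h9.fun_const_smul _
    have hs1 : HasFDerivAt (fun z : E2 n => ((1 - ε) / 2) • z.1)
        (((1 - ε) / 2) • ContinuousLinearMap.fst ℝ (Fin n → ℝ) (Fin n → ℝ)) z := by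
      have h9 : HasFDerivAt (fun z : E2 n => z.1)
        (ContinuousLinearMap.fst ℝ (Fin n → ℝ) (Fin n → ℝ)) z := hasFDerivAt_fst
      exact h9.fun_const_smul _
    have hg2 : HasFDerivAt (fun z : E2 n => grad Φ ((1 - ε) • z.2))
        ((fderiv ℝ (grad Φ) ((1 - ε) • z.2)).comp
          ((1 - ε) • ContinuousLinearMap.snd ℝ (Fin n → ℝ) (Fin n → ℝ))) z :=
      HasFDerivAt.comp (g := grad Φ) (f := fun z : E2 n => (1 - ε) • z.2) z hgd hs2
    have hd : HasFDerivAt T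
        ((((1 - ε) / 2) • ContinuousLinearMap.fst ℝ (Fin n → ℝ) (Fin n → ℝ) + (2 / 7 : ℝ) •
          (fderiv ℝ (grad Φ) ((1 - ε) • z.2)).comp
          ((1 - ε) • ContinuousLinearMap.snd ℝ (Fin n → ℝ) (Fin n → ℝ))).prod
          ((2 / 7 * (1 - ε)) • ContinuousLinearMap.snd ℝ (Fin n → ℝ) (Fin n → ℝ))) z :=
      (hs1.fun_add (hg2.fun_const_smul _)).prodMk hs3
    rw [hd.fderiv]
    set A := fderiv ℝ (grad Φ) ((1 - ε) • z.2) with hAdef
    have hsym : A u.2 ⬝ᵥ v.2 = A v.2 ⬝ᵥ u.2 := by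
      rw [hAdef, grad_fderiv hΦs, grad_fderiv hΦs, symm2 hΦs]
    rw [std_sum, std_sum]
    simp only [ContinuousLinearMap.prod_apply, _root_.add_apply, _root_.smul_apply,
      ContinuousLinearMap.coe_fst', ContinuousLinearMap.coe_snd', ContinuousLinearMap.comp_apply,
      map_smul, add_dotProduct, smul_dotProduct, dotProduct_smul, dotProduct_add, smul_eq_mul]
    have h4 : v.2 ⬝ᵥ A u.2 = A v.2 ⬝ᵥ u.2 := by rw [dotProduct_comm, hsym]
    have h5 : u.2 ⬝ᵥ A v.2 = A v.2 ⬝ᵥ u.2 := by rw [dotProduct_comm]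
    rw [hsym, h5, hq]
    ring

end Pool.Agent.H269.SV
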